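import Mathlib

/-! Arithmetic of the parameters for weighted votes (helper935). -/

namespace Pool.Agent.W935.LC

theorem vote_params (δ α : ℝ) (hδ : 0 ≤ δ) (hδ4 : 4 * δ < 1) (hα : α + 2 * δ < 2) :
    ∃ N : ℕ, ∀ n : ℕ, N ≤ n → ∃ d : ℕ, 1 ≤ d ∧
      2 ^ 88 * (Nat.log 2 (3 * d) + 1) ^ 8 * (3 * d) ^ 4 ≤ n ∧
      (n : ℝ) ^ δ + 2 ≤ d ∧
      2 * (n : ℝ) ^ α ≤
        (((n / 4) * ((n / 4) / (2 ^ 42 * (Nat.log 2 (3 * d) + 1) ^ 4 * (3 * d) ^ 2)) : ℕ) : ℝ) := by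
  obtain ⟨γ, hγ0, hγ1, hγ2⟩ : ∃ γ : ℝ, 0 < γ ∧ 10 * γ + 4 * δ ≤ 1 ∧ α + 2 * δ + 6 * γ ≤ 2 := by
    refine ⟨min ((1 - 4 * δ) / 10) ((2 - α - 2 * δ) / 6), ?_, ?_, ?_⟩
    · apply lt_min
      · linarith
      · linarith
    · have := min_le_left ((1 - 4 * δ) / 10) ((2 - α - 2 * δ) / 6)
      linarith
    · have := min_le_right ((1 - 4 * δ) / 10) ((2 - α - 2 * δ) / 6)
      linarith
  have hlog := (isLittleO_log_rpow_atTop hγ0).bound (show (0 : ℝ) < 1 / 16 by norm_num)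
  have hpow := (tendsto_rpow_atTop hγ0).eventually_ge_atTop ((2 : ℝ) ^ 60)
  have hev := (hlog.and (hpow.and (Filter.eventually_ge_atTop (16 : ℝ))))
  have hevn := tendsto_natCast_atTop_atTop.eventually hev
  obtain ⟨N, hN⟩ := Filter.eventually_atTop.mp hevn
  refine ⟨N, fun n hn => ?_⟩
  obtain ⟨a1, a2, a3⟩ := hN n hn
  have hn1 : (1 : ℝ) ≤ n := by linarith
  have hn0 : (0 : ℝ) < n := by linarith
  have hlog0 : 0 ≤ Real.log n := Real.log_nonneg hn1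
  rw [Real.norm_of_nonneg hlog0, Real.norm_of_nonneg (by positivity)] at a1
  have hnδ1 : 1 ≤ (n : ℝ) ^ δ := Real.one_le_rpow hn1 hδ
  obtain ⟨d, hd⟩ : ∃ d, d = ⌈(n : ℝ) ^ δ⌉₊ + 2 := ⟨_, rfl⟩
  have hd1 : 1 ≤ d := by omega
  have hdlow : (n : ℝ) ^ δ + 2 ≤ d := by
    rw [hd]
    push_cast
    have := Nat.le_ceil ((n : ℝ) ^ δ)
    linarith
  have hdup : (d : ℝ) ≤ 4 * (n : ℝ) ^ δ := by
    rw [hd]
    push_cast
    have := Nat.ceil_lt_add_one (show 0 ≤ (n : ℝ) ^ δ by positivity)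
    linarith
  obtain ⟨D, hD⟩ : ∃ D, D = 3 * d := ⟨_, rfl⟩
  have hDR : (D : ℝ) ≤ 12 * (n : ℝ) ^ δ := by
    rw [hD]
    push_cast
    linarith
  have hD1 : 1 ≤ D := by omega
  have hDn : (D : ℝ) ≤ (n : ℝ) ^ (2 : ℝ) := by
    have h1 : (n : ℝ) ^ δ ≤ (n : ℝ) ^ (1 : ℝ) := Real.rpow_le_rpow_of_exponent_le hn1 (by linarith)
    rw [Real.rpow_one] at h1
    have h2 : (n : ℝ) ^ (2 : ℝ) = n * n := by
      rw [Real.rpow_two, sq]
    rw [h2]
    calc (D : ℝ) ≤ 12 * (n : ℝ) ^ δ := hDR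
      _ ≤ 12 * n := by linarith
      _ ≤ n * n := by nlinarith
  obtain ⟨L, hL⟩ : ∃ L, L = Nat.log 2 D + 1 := ⟨_, rfl⟩
  have hLn : (L : ℝ) ≤ (n : ℝ) ^ γ := by
    have h1 : (2 : ℝ) ^ (Nat.log 2 D) ≤ D := by
      exact_mod_cast Nat.pow_log_le_self 2 (by omega)
    have h2 : (Nat.log 2 D : ℝ) * Real.log 2 ≤ 2 * Real.log n := by
      have h3 : Real.log ((2 : ℝ) ^ (Nat.log 2 D)) ≤ Real.log ((n : ℝ) ^ (2 : ℝ)) :=
        Real.log_le_log (by positivity) (h1.trans hDn)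
      rw [Real.log_pow, Real.log_rpow hn0] at h3
      exact h3
    have h4 : (1 / 2 : ℝ) ≤ Real.log 2 := by
      have := Real.log_two_gt_d9
      linarith
    have h5 : (0 : ℝ) ≤ (Nat.log 2 D : ℝ) := Nat.cast_nonneg _
    have h6 : (Nat.log 2 D : ℝ) ≤ 4 * Real.log n := by nlinarith
    rw [hL]
    push_cast
    have h7 : (2 : ℝ) ≤ (n : ℝ) ^ γ := le_trans (by norm_num) a2
    linarith
  -- the two products
  obtain ⟨X, hX⟩ : ∃ X, X = 2 ^ 44 * L ^ 4 * D ^ 2 := ⟨_, rfl⟩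
  have hXR : (X : ℝ) ≤ (n : ℝ) ^ (2 * δ + 5 * γ) := by
    have hXc : (X : ℝ) = (2 : ℝ) ^ 44 * (L : ℝ) ^ 4 * (D : ℝ) ^ 2 := by
      rw [hX]
      push_cast
      ring
    rw [hXc]
    have e1 : (L : ℝ) ^ 4 ≤ ((n : ℝ) ^ γ) ^ 4 := pow_le_pow_left₀ (Nat.cast_nonneg _) hLn 4
    have e2 : (D : ℝ) ^ 2 ≤ (12 * (n : ℝ) ^ δ) ^ 2 := pow_le_pow_left₀ (Nat.cast_nonneg _) hDR 2
    have e3 : ((n : ℝ) ^ γ) ^ 4 = (n : ℝ) ^ (4 * γ) := by
      rw [← Real.rpow_natCast, ← Real.rpow_mul hn0.le]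
      congr 1
      push_cast
      ring
    have e4 : ((n : ℝ) ^ δ) ^ 2 = (n : ℝ) ^ (2 * δ) := by
      rw [← Real.rpow_natCast, ← Real.rpow_mul hn0.le]
      congr 1
      push_cast
      ring
    calc (2 : ℝ) ^ 44 * (L : ℝ) ^ 4 * (D : ℝ) ^ 2 ≤
          2 ^ 44 * ((n : ℝ) ^ γ) ^ 4 * (12 * (n : ℝ) ^ δ) ^ 2 := by
          apply mul_le_mul _ e2 (by positivity) (by positivity)
          exact mul_le_mul_of_nonneg_left e1 (by positivity)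
      _ = (2 ^ 44 * 144) * ((n : ℝ) ^ (4 * γ) * (n : ℝ) ^ (2 * δ)) := by
          rw [mul_pow, e3, e4]
          ring
      _ ≤ (n : ℝ) ^ γ * ((n : ℝ) ^ (4 * γ) * (n : ℝ) ^ (2 * δ)) := by
          apply mul_le_mul_of_nonneg_right _ (by positivity)
          refine le_trans ?_ a2
          norm_num
      _ = (n : ℝ) ^ (2 * δ + 5 * γ) := by
          rw [← Real.rpow_add hn0, ← Real.rpow_add hn0]
          congr 1
          ring
  have hβ1 : 2 * δ + 5 * γ ≤ 1 / 2 := by linarith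
  refine ⟨d, hd1, ?_, hdlow, ?_⟩
  · have e1 : 2 ^ 88 * L ^ 8 * D ^ 4 = X * X := by rw [hX]; ring
    rw [← hD, ← hL, e1]
    have e2 : (X : ℝ) * X ≤ n := by
      calc (X : ℝ) * X ≤ (n : ℝ) ^ (2 * δ + 5 * γ) * (n : ℝ) ^ (2 * δ + 5 * γ) :=
            mul_le_mul hXR hXR (Nat.cast_nonneg _) (by positivity)
        _ = (n : ℝ) ^ ((2 * δ + 5 * γ) + (2 * δ + 5 * γ)) := by rw [← Real.rpow_add hn0]
        _ ≤ (n : ℝ) ^ (1 : ℝ) := Real.rpow_le_rpow_of_exponent_le hn1 (by linarith)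
        _ = n := Real.rpow_one _
    exact_mod_cast e2
  · rw [← hD, ← hL]
    obtain ⟨W, hW⟩ : ∃ W, W = 2 ^ 42 * L ^ 4 * D ^ 2 := ⟨_, rfl⟩
    rw [← hW]
    have hW1 : 1 ≤ W := by
      rw [hW]
      exact Nat.mul_pos (Nat.mul_pos (by norm_num) (Nat.pow_pos (by omega))) (Nat.pow_pos (by omega))
    have hWX : W ≤ X := by
      rw [hW, hX]
      exact Nat.mul_le_mul_right _ (Nat.mul_le_mul_right _ (by norm_num))
    set β := 2 * δ + 5 * γ with hβ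
    have hWn : (W : ℝ) ≤ (n : ℝ) ^ β := le_trans (by exact_mod_cast hWX) hXR
    obtain ⟨q, hq⟩ : ∃ q, q = n / 4 := ⟨_, rfl⟩
    rw [← hq]
    have hn16 : 16 ≤ n := by exact_mod_cast a3
    have q1 : (n : ℝ) / 8 ≤ q := by
      have : n ≤ 8 * q := by omega
      have : (n : ℝ) ≤ 8 * q := by exact_mod_cast this
      linarith
    have q2 : (q : ℝ) < W * ((q / W : ℕ) + 1) := by
      have := Nat.lt_mul_div_succ q (show 0 < W by omega)
      exact_mod_cast this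
    have hWpos : (0 : ℝ) < W := by exact_mod_cast hW1
    have hnβ : 0 < (n : ℝ) ^ β := by positivity
    have hsplit : (n : ℝ) ^ (1 - β) * (n : ℝ) ^ β = n := by
      rw [← Real.rpow_add hn0]
      simp
    have hbig : (2 : ℝ) ^ 60 ≤ (n : ℝ) ^ (1 - β) :=
      a2.trans (Real.rpow_le_rpow_of_exponent_le hn1 (by linarith))
    have q3 : (n : ℝ) ^ (1 - β) / 16 ≤ ((q / W : ℕ) : ℝ) := by
      have h1 : (n : ℝ) / 8 < (n : ℝ) ^ β * (((q / W : ℕ) : ℝ) + 1) := by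
        calc (n : ℝ) / 8 ≤ q := q1
          _ < W * ((q / W : ℕ) + 1) := q2
          _ ≤ (n : ℝ) ^ β * (((q / W : ℕ) : ℝ) + 1) := by gcongr
      have h2 : (n : ℝ) ^ (1 - β) / 8 < ((q / W : ℕ) : ℝ) + 1 := by
        by_contra hcon
        push Not at hcon
        have h3 := mul_le_mul_of_nonneg_left hcon hnβ.le
        have h4 : (n : ℝ) ^ β * ((n : ℝ) ^ (1 - β) / 8) = n / 8 := by
          calc (n : ℝ) ^ β * ((n : ℝ) ^ (1 - β) / 8) = ((n : ℝ) ^ (1 - β) * (n : ℝ) ^ β) / 8 := by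
                ring
            _ = n / 8 := by rw [hsplit]
        rw [h4] at h3
        linarith
      have h5 : (2 : ℝ) ^ 60 = 1152921504606846976 := by norm_num
      rw [h5] at hbig
      linarith
    have q4 : (n : ℝ) ^ (1 - β) * (n : ℝ) / 128 ≤ ((q * (q / W) : ℕ) : ℝ) := by
      push_cast
      calc (n : ℝ) ^ (1 - β) * (n : ℝ) / 128 = ((n : ℝ) / 8) * ((n : ℝ) ^ (1 - β) / 16) := by ring
        _ ≤ (q : ℝ) * ((q / W : ℕ) : ℝ) := by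
          apply mul_le_mul q1 q3 (by positivity) (by positivity)
    refine le_trans ?_ q4
    have q5 : (n : ℝ) ^ (1 - β) * (n : ℝ) = (n : ℝ) ^ α * (n : ℝ) ^ (2 - β - α) := by
      conv_lhs => rw [show (n : ℝ) ^ (1 - β) * (n : ℝ) = (n : ℝ) ^ (1 - β) * (n : ℝ) ^ (1 : ℝ) by
        rw [Real.rpow_one]]
      rw [← Real.rpow_add hn0, ← Real.rpow_add hn0]
      congr 1
      ring
    have q6 : (2 : ℝ) ^ 60 ≤ (n : ℝ) ^ (2 - β - α) :=
      a2.trans (Real.rpow_le_rpow_of_exponent_le hn1 (by rw [hβ]; linarith))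
    have q7 : 0 < (n : ℝ) ^ α := by positivity
    rw [q5]
    have h5 : (2 : ℝ) ^ 60 = 1152921504606846976 := by norm_num
    rw [h5] at q6
    nlinarith

end Pool.Agent.W935.LC
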