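import Pool.Agent.UGen.Main
import Pool.Agent.Helper446.RE

/-!
No minimal generic degree: below every set of density one that is not generically computable there
is another such set from which the first one cannot be recovered.
-/

set_option autoImplicit false
open Filter
open Pool.Agent.Helper446

namespace Pool.Agent.W935.GenMin

open Pool.Agent.UGen (D1 GC D1_iff IsDesc)

/-- the enumeration operator with axioms `W` -/
def op {α β : Type} (W : List α × β → Prop) (X : Set α) : Set β :=
  {p | ∃ l : List α, (∀ q ∈ l, q ∈ X) ∧ W (l, p)}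

lemma op_mono {α β : Type} (W : List α × β → Prop) {X Y : Set α} (h : X ⊆ Y) :
    op W X ⊆ op W Y := by
  rintro p ⟨l, h1, h2⟩
  exact ⟨l, fun q hq => h (h1 q hq), h2⟩

lemma re_op {α β : Type} [Primcodable α] [Primcodable β] {W : List α × β → Prop} (hW : REPred W)
    {X : Set α} (hX : REPred fun a => a ∈ X) : REPred fun b => b ∈ op W X := by
  refine RE.ex (p := fun (b : β) (l : List α) => (∀ q ∈ l, q ∈ X) ∧ W (l, b)) ?_
  refine RE.and ?_ ?_
  · exact RE.all_mem (p := fun (_ : β × List α) (q : α) => q ∈ X)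
      (RE.comp hX Computable.snd) Computable.snd
  · exact RE.comp hW (Computable.snd.pair Computable.fst)

/-- composition of enumeration operators -/
lemma comp_op {α β γ : Type} [Primcodable α] [Primcodable β] [Primcodable γ]
    {W : List α × β → Prop} (hW : REPred W) {V : List β × γ → Prop} (hV : REPred V) :
    ∃ U : List α × γ → Prop, REPred U ∧ ∀ X, op U X = op V (op W X) := by
  refine ⟨fun x => ∃ l' : List β, (∀ q ∈ l', q ∈ op W {a | a ∈ x.1}) ∧ V (l', x.2), ?_, ?_⟩
  · refine RE.ex (p := fun (x : List α × γ) (l' : List β) =>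
      (∀ q ∈ l', q ∈ op W {a | a ∈ x.1}) ∧ V (l', x.2)) ?_
    refine RE.and ?_ ?_
    · refine RE.all_mem (p := fun (y : (List α × γ) × List β) (q : β) => q ∈ op W {a | a ∈ y.1.1})
        ?_ Computable.snd
      refine RE.ex (p := fun (z : ((List α × γ) × List β) × β) (l : List α) =>
        (∀ a ∈ l, a ∈ z.1.1.1) ∧ W (l, z.2)) ?_
      refine RE.and ?_ ?_
      · refine RE.all_mem (p := fun (z : (((List α × γ) × List β) × β) × List α) (a : α) =>
          a ∈ z.1.1.1.1) ?_ Computable.snd
        refine RE.mem_list Computable.snd ?_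
        exact Computable.fst.comp (Computable.fst.comp (Computable.fst.comp
          (Computable.fst.comp Computable.fst)))
      · exact RE.comp hW (Computable.snd.pair (Computable.snd.comp Computable.fst))
    · exact RE.comp hV (Computable.snd.pair (Computable.snd.comp Computable.fst))
  · intro X
    ext p
    constructor
    · rintro ⟨l, h1, l', h2, h3⟩
      exact ⟨l', fun q hq => op_mono W (fun a ha => h1 a ha) (h2 q hq), h3⟩
    · rintro ⟨l', h1, h2⟩
      have h3 : ∃ l : List α, (∀ a ∈ l, a ∈ X) ∧ ∀ q ∈ l', q ∈ op W {a | a ∈ l} := by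
        clear h2
        induction l' with
        | nil => exact ⟨[], by simp, by simp⟩
        | cons b l' ih =>
          obtain ⟨l, h4, h5⟩ := ih fun q hq => h1 q (List.mem_cons_of_mem _ hq)
          obtain ⟨m, h6, h7⟩ := h1 b List.mem_cons_self
          refine ⟨m ++ l, ?_, ?_⟩
          · intro a ha
            rcases List.mem_append.1 ha with ha | ha
            · exact h6 a ha
            · exact h4 a ha
          · intro q hq
            rcases List.mem_cons.1 hq with rfl | hq
            · exact ⟨m, fun a ha => List.mem_append_left _ ha, h7⟩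
            · exact op_mono W (fun a (ha : a ∈ l) => List.mem_append_right _ ha) (h5 q hq)
      obtain ⟨l, h4, h5⟩ := h3
      exact ⟨l, h4, l', h5, h2⟩

/-! ### Forcing -/

/-- the sets between `B` and `ℕ` that agree with `σ` below `n` -/
def Cond (B : Set ℕ) (p : ℕ × Set ℕ) : Set (Set ℕ) :=
  {C | B ⊆ C ∧ ∀ x < p.1, (x ∈ C ↔ x ∈ p.2)}

/-- there are only countably many c.e. predicates -/
lemma countable_re {α : Type} [Primcodable α] : {p : α → Prop | REPred p}.Countable := by
  have h : {p : α → Prop | REPred p} ⊆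
      Set.range fun c : Nat.Partrec.Code => fun a : α => (c.eval (Encodable.encode a)).Dom := by
    intro p hp
    obtain ⟨c, hc⟩ := Nat.Partrec.Code.exists_code.1 hp
    refine ⟨c, ?_⟩
    funext a
    apply propext
    have h1 : c.eval (Encodable.encode a) =
        (Part.assert (p a) fun _ => Part.some ()).map Encodable.encode := by
      rw [hc]; simp
    change (c.eval (Encodable.encode a)).Dom ↔ p a
    rw [h1]
    simp only [Part.map_Dom]
    constructor
    · rintro ⟨h, -⟩; exact h
    · intro h; exact ⟨h, trivial⟩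
  exact (Set.countable_range _).mono h

/-- Generic extensions exist. -/
lemma generic (B : Set ℕ) (R : ℕ → Set ℕ → Prop)
    (hR : ∀ i, ∀ p : ℕ × Set ℕ, B ⊆ p.2 → ∃ q : ℕ × Set ℕ, p.1 ≤ q.1 ∧ q.2 ∈ Cond B p ∧
      ∀ C ∈ Cond B q, R i C) : ∃ C, B ⊆ C ∧ ∀ i, R i C := by
  have hR' : ∀ i, ∀ p : {p : ℕ × Set ℕ // B ⊆ p.2}, ∃ q : {p : ℕ × Set ℕ // B ⊆ p.2},
      p.1.1 < q.1.1 ∧ q.1.2 ∈ Cond B p.1 ∧ ∀ C ∈ Cond B q.1, R i C := by
    rintro i ⟨p, hp⟩
    obtain ⟨q, h1, h2, h3⟩ := hR i p hp
    refine ⟨⟨(q.1 + 1, q.2), h2.1⟩, Nat.lt_succ_of_le h1, h2, fun C hC => h3 C ?_⟩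
    exact ⟨hC.1, fun x hx => hC.2 x (Nat.lt_succ_of_lt hx)⟩
  choose f hf1 hf2 hf3 using hR'
  let s : ℕ → {p : ℕ × Set ℕ // B ⊆ p.2} := fun i =>
    Nat.rec ⟨(0, B), subset_rfl⟩ (fun i p => f i p) i
  have hs : ∀ i, s (i + 1) = f i (s i) := fun i => rfl
  have hlen : ∀ i, i ≤ (s i).1.1 := by
    intro i
    induction i with
    | zero => exact Nat.zero_le _
    | succ i ih =>
      have := hf1 i (s i)
      rw [← hs] at this
      omega
  have hmono : ∀ i j, i ≤ j → (s i).1.1 ≤ (s j).1.1 ∧
      ∀ x < (s i).1.1, (x ∈ (s j).1.2 ↔ x ∈ (s i).1.2) := by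
    intro i j hij
    induction j, hij using Nat.le_induction with
    | base => exact ⟨le_rfl, fun x _ => Iff.rfl⟩
    | succ j _ ih =>
      have h1 := hf1 j (s j)
      have h2 := hf2 j (s j)
      rw [← hs] at h1 h2
      exact ⟨ih.1.trans h1.le, fun x hx => (h2.2 x (lt_of_lt_of_le hx ih.1)).trans (ih.2 x hx)⟩
  let C : Set ℕ := {x | x ∈ (s (x + 1)).1.2}
  have hC : ∀ i, C ∈ Cond B (s i).1 := by
    intro i
    refine ⟨fun x hx => (s (x + 1)).2 hx, fun x hx => ?_⟩
    show x ∈ (s (x + 1)).1.2 ↔ _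
    rcases le_total i (x + 1) with h | h
    · exact (hmono i (x + 1) h).2 x hx
    · exact ((hmono (x + 1) i h).2 x (hlen (x + 1))).symm
  refine ⟨C, (hC 0).1, fun i => ?_⟩
  have := hf3 i (s i) C (by rw [← hs]; exact hC (i + 1))
  exact this

/-- Below a density-one set that has no c.e. subset of density one there is a set of the same kind
from which the first set cannot be recovered. -/
theorem main (B : Set ℕ) (hB : ∀ V : Set ℕ, REPred (fun x => x ∈ V) → V ⊆ B → ¬ D1 V) :
    ∃ C, B ⊆ C ∧ (∀ V : Set ℕ, REPred (fun x => x ∈ V) → V ⊆ C → ¬ D1 V) ∧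
      ∀ U : List ℕ × ℕ → Prop, REPred U → op U C ⊆ B → ¬ D1 (op U C) := by
  classical
  -- enumerate the requirements
  have hc1 : {p : ℕ → Prop | REPred p}.Countable := countable_re
  have hc2 : {p : List ℕ × ℕ → Prop | REPred p}.Countable := countable_re
  obtain ⟨v, hv⟩ := hc1.exists_eq_range ⟨fun _ => True, RE.const True⟩
  obtain ⟨u, hu⟩ := hc2.exists_eq_range ⟨fun _ => True, RE.const True⟩
  have hv' : ∀ i, REPred (v i) := fun i => by
    have : v i ∈ {p : ℕ → Prop | REPred p} := by rw [hv]; exact ⟨i, rfl⟩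
    exact this
  have hu' : ∀ i, REPred (u i) := fun i => by
    have : u i ∈ {p : List ℕ × ℕ → Prop | REPred p} := by rw [hu]; exact ⟨i, rfl⟩
    exact this
  obtain ⟨C, hBC, hC⟩ := generic B (fun i C =>
    (({x | v i x} ⊆ C → ¬ D1 {x | v i x})) ∧ (op (u i) C ⊆ B → ¬ D1 (op (u i) C))) (by
    intro i p hp
    -- the first requirement
    have step1 : ∃ q : ℕ × Set ℕ, B ⊆ q.2 ∧ p.1 ≤ q.1 ∧ q.2 ∈ Cond B p ∧
        ∀ C ∈ Cond B q, ({x | v i x} ⊆ C → ¬ D1 {x | v i x}) := by
      by_cases hD : D1 {x | v i x}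
      · have h1 : ¬ {x | v i x ∧ p.1 ≤ x} ⊆ B := by
          intro hsub
          refine hB _ ?_ hsub ?_
          · exact RE.and (hv' i) (RE.le (Computable.const _) Computable.id)
          · rw [D1_iff] at hD ⊢
            intro ε hε
            obtain ⟨M, hM⟩ := hD (ε / 2) (by positivity)
            obtain ⟨N, hN⟩ := exists_nat_gt ((p.1 : ℝ) / (ε / 2))
            refine ⟨max M N, fun m hm => ?_⟩
            have h2 := hM m (le_trans (le_max_left _ _) hm)
            have h3 : ({x | v i x ∧ p.1 ≤ x}ᶜ ∩ Set.Iio m).ncard ≤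
                ({x | v i x}ᶜ ∩ Set.Iio m).ncard + p.1 := by
              have h4 : {x | v i x ∧ p.1 ≤ x}ᶜ ∩ Set.Iio m ⊆
                  ({x | v i x}ᶜ ∩ Set.Iio m) ∪ Set.Iio p.1 := by
                rintro x ⟨h5, h6⟩
                by_cases h7 : x < p.1
                · exact Or.inr h7
                · exact Or.inl ⟨fun h8 => h5 ⟨h8, not_lt.1 h7⟩, h6⟩
              refine (Set.ncard_le_ncard h4 (((Set.finite_Iio m).subset
                Set.inter_subset_right).union (Set.finite_Iio _))).trans ?_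
              refine (Set.ncard_union_le _ _).trans ?_
              have : (Set.Iio p.1).ncard = p.1 := by
                rw [Set.ncard_eq_toFinset_card' (Set.Iio p.1)]; simp
              omega
            have h5 : (({x | v i x ∧ p.1 ≤ x}ᶜ ∩ Set.Iio m).ncard : ℝ) ≤
                (({x | v i x}ᶜ ∩ Set.Iio m).ncard : ℝ) + p.1 := by exact_mod_cast h3
            have h6 : (p.1 : ℝ) ≤ ε / 2 * m := by
              have h7 : (N : ℝ) ≤ m := by exact_mod_cast le_trans (le_max_right _ _) hm
              have h8 : (p.1 : ℝ) / (ε / 2) ≤ m := hN.le.trans h7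
              rw [div_le_iff₀ (by positivity)] at h8
              linarith
            linarith
        rw [Set.not_subset] at h1
        obtain ⟨x, ⟨hx1, hx2⟩, hx3⟩ := h1
        refine ⟨(x + 1, {y | y ∈ B ∨ (y ∈ p.2 ∧ y < p.1)}), fun y hy => Or.inl hy, ?_, ?_, ?_⟩
        · exact Nat.le_succ_of_le hx2
        · refine ⟨fun y hy => Or.inl hy, fun y hy => ?_⟩
          constructor
          · rintro (h | h)
            · exact hp h
            · exact h.1
          · intro h
            exact Or.inr ⟨h, hy⟩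
        · intro C hC hsub
          exfalso
          have h2 : x ∈ C := hsub hx1
          have h3 := (hC.2 x (Nat.lt_succ_self x)).1 h2
          rcases h3 with h3 | h3
          · exact hx3 h3
          · exact absurd h3.2 (not_lt.2 hx2)
      · exact ⟨p, hp, le_rfl, ⟨hp, fun x _ => Iff.rfl⟩, fun C _ _ => hD⟩
    obtain ⟨q, hq0, hq1, hq2, hq3⟩ := step1
    -- the second requirement
    have step2 : ∃ r : ℕ × Set ℕ, q.1 ≤ r.1 ∧ r.2 ∈ Cond B q ∧
        ∀ C ∈ Cond B r, (op (u i) C ⊆ B → ¬ D1 (op (u i) C)) := by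
      by_cases hD : op (u i) {x | x < q.1 → x ∈ q.2} ⊆ B
      · refine ⟨q, le_rfl, ⟨hq0, fun x _ => Iff.rfl⟩, fun C hC _ hD1 => ?_⟩
        refine hB _ (re_op (hu' i) ?_) hD (hD1.mono (op_mono _ ?_))
        · have h1 : {x | x ∈ q.2 ∧ x < q.1}.Finite :=
            (Set.finite_Iio q.1).subset fun x hx => hx.2
          have h2 : REPred fun x : ℕ => x ∈ h1.toFinset.toList ∨ q.1 ≤ x :=
            RE.or (RE.mem_list Computable.id (Computable.const _))
              (RE.le (Computable.const _) Computable.id)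
          refine h2.of_eq fun x => ?_
          simp only [Finset.mem_toList, Set.Finite.mem_toFinset, Set.mem_ofPred_eq]
          constructor
          · rintro (h | h) h'
            · exact h.1
            · omega
          · intro h
            by_cases hx : x < q.1
            · exact Or.inl ⟨h hx, hx⟩
            · exact Or.inr (not_lt.1 hx)
        · intro x hx hx'
          exact (hC.2 x hx').1 hx
      · rw [Set.not_subset] at hD
        obtain ⟨x, ⟨l, hl1, hl2⟩, hx⟩ := hD
        refine ⟨(max q.1 (l.foldr max 0 + 1), {y | y ∈ q.2 ∨ (q.1 ≤ y ∧ y ∈ l)}), le_max_left _ _,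
          ⟨fun y hy => Or.inl (hq0 hy), fun y hy => ?_⟩, fun C hC hsub => ?_⟩
        · constructor
          · rintro (h | h)
            · exact h
            · exact absurd h.1 (not_le.2 hy)
          · exact fun h => Or.inl h
        · exfalso
          apply hx
          apply hsub
          refine ⟨l, fun y hy => ?_, hl2⟩
          have hmax : y ≤ l.foldr max 0 := by
            clear hl1 hl2 hC
            induction l with
            | nil => simp at hy
            | cons a l ih =>
              rcases List.mem_cons.1 hy with rfl | hy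
              · exact le_max_left _ _
              · exact (ih hy).trans (le_max_right _ _)
          refine (hC.2 y (lt_max_of_lt_right (Nat.lt_succ_of_le hmax))).2 ?_
          by_cases hy' : y < q.1
          · exact Or.inl (hl1 y hy hy')
          · exact Or.inr ⟨not_lt.1 hy', hy⟩
    obtain ⟨r, hr1, hr2, hr3⟩ := step2
    refine ⟨r, hq1.trans hr1, ⟨hr2.1, fun x hx => ?_⟩, fun C hC => ⟨hq3 C ?_, hr3 C hC⟩⟩
    · exact (hr2.2 x (lt_of_lt_of_le hx hq1)).trans (hq2.2 x hx)
    · exact ⟨hC.1, fun x hx => (hC.2 x (lt_of_lt_of_le hx hr1)).trans (hr2.2 x hx)⟩)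
  refine ⟨C, hBC, fun V hV hsub => ?_, fun U hU hsub => ?_⟩
  · have : (fun x => x ∈ V) ∈ {p : ℕ → Prop | REPred p} := hV
    rw [hv] at this
    obtain ⟨i, hi⟩ := this
    have h1 : {x | v i x} = V := by
      ext x
      rw [Set.mem_ofPred_eq, hi]
    have h2 := (hC i).1
    rw [h1] at h2
    exact h2 hsub
  · have : U ∈ {p : List ℕ × ℕ → Prop | REPred p} := hU
    rw [hu] at this
    obtain ⟨i, hi⟩ := this
    have h2 := (hC i).2
    rw [hi] at h2
    exact h2 hsub


/-- `G` is (the graph of) a generic description of `A` -/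
def GD (A : Set ℕ) (G : Set (ℕ × ℕ)) : Prop :=
  (∀ x y : ℕ, (x, y) ∈ G → ((x ∈ A ∧ y = 1) ∨ (x ∉ A ∧ y = 0))) ∧
    Filter.Tendsto
      (fun n : ℕ => ((({x : ℕ | ∃ y : ℕ, (x, y) ∈ G} ∩ Set.Iio n).ncard : ℝ) / (n : ℝ)))
      Filter.atTop (nhds 1)

/-- generic reducibility -/
def Red (A B : Set ℕ) : Prop :=
  ∃ W : List (ℕ × ℕ) × (ℕ × ℕ) → Prop, REPred W ∧
    ∀ G : Set (ℕ × ℕ), GD B G →
      GD A {p : ℕ × ℕ | ∃ l : List (ℕ × ℕ), (∀ q ∈ l, q ∈ G) ∧ W (l, p)}

lemma GD.dom {A : Set ℕ} {G : Set (ℕ × ℕ)} (h : GD A G) : D1 {x | ∃ y, (x, y) ∈ G} := h.2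

/-- a generically computable set is reducible to every set -/
lemma red_of_gc {A : Set ℕ} (h : GC A) (B : Set ℕ) : Red A B := by
  obtain ⟨φ, h1, h2, h3⟩ := h
  let V : ℕ × ℕ → Prop := fun p => ∃ b : Bool, b ∈ φ p.1 ∧ p.2 = b.toNat
  have hV : REPred V := by
    refine RE.ex (p := fun (p : ℕ × ℕ) (b : Bool) => b ∈ φ p.1 ∧ p.2 = b.toNat) ?_
    refine RE.and ?_ ?_
    · have h4 : Partrec fun q : (ℕ × ℕ) × Bool => (φ q.1.1).bind fun b =>
          cond (decide (b = q.2)) (Part.some ()) Part.none := by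
        refine Partrec.bind (h1.comp (Computable.fst.comp Computable.fst)) ?_
        refine Partrec.cond (c := fun z : ((ℕ × ℕ) × Bool) × Bool => decide (z.2 = z.1.2)) ?_
          (Computable.const ()).partrec Partrec.none
        exact (Primrec.eq (α := Bool)).decide.to_comp.comp Computable.snd
          (Computable.snd.comp Computable.fst)
      refine h4.dom_re.of_eq fun q => ?_
      simp only [Part.bind_dom]
      constructor
      · rintro ⟨h5, h6⟩
        have h7 : (φ q.1.1).get h5 = q.2 := by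
          by_contra hne
          simp [hne] at h6
        rw [← h7]
        exact Part.get_mem h5
      · rintro ⟨h5, h6⟩
        exact ⟨h5, by rw [h6]; simp⟩
    · refine RE.eq (Computable.snd.comp Computable.fst) ?_
      have : Primrec Bool.toNat := Primrec.dom_finite _
      exact this.to_comp.comp Computable.snd
  refine ⟨fun x => V x.2, RE.comp hV Computable.snd, fun G _ => ?_⟩
  have hset : {p : ℕ × ℕ | ∃ l : List (ℕ × ℕ), (∀ q ∈ l, q ∈ G) ∧ V p} = {p | V p} := by
    ext p
    exact ⟨fun ⟨_, _, h⟩ => h, fun h => ⟨[], by simp, h⟩⟩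
  show GD A {p : ℕ × ℕ | ∃ l : List (ℕ × ℕ), (∀ q ∈ l, q ∈ G) ∧ V p}
  rw [hset]
  refine ⟨?_, ?_⟩
  · rintro x y ⟨b, hb, hy⟩
    have h4 := h2 x b hb
    simp only at hy
    cases b
    · right
      exact ⟨fun h => by simpa using h4.2 h, by simpa using hy⟩
    · left
      exact ⟨h4.1 rfl, by simpa using hy⟩
  · have h4 : {x : ℕ | ∃ y : ℕ, (x, y) ∈ {p | V p}} = {n | (φ n).Dom} := by
      ext n
      constructor
      · rintro ⟨y, b, hb, -⟩
        exact Part.dom_iff_mem.2 ⟨b, hb⟩
      · intro h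
        exact ⟨_, (φ n).get h, Part.get_mem h, rfl⟩
    rw [h4]
    exact h3

/-- the positive part of a c.e. generic description yields a c.e. subset of density one -/
lemma gc_of_sub {B V : Set ℕ} (hV : REPred fun x => x ∈ V) (hsub : V ⊆ B) (hD : D1 V) : GC B := by
  have h1 : Partrec fun x : ℕ => (Part.assert (x ∈ V) fun _ => Part.some ()).map
      fun _ => true := Partrec.map hV (Computable.const true).to₂
  refine ⟨_, h1, ?_, ?_⟩
  · intro n b hb
    simp only [Part.mem_map_iff, Part.mem_assert_iff] at hb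
    obtain ⟨_, ⟨h2, _⟩, rfl⟩ := hb
    simp [hsub h2]
  · have h2 : {n : ℕ | ((Part.assert (n ∈ V) fun _ => Part.some ()).map
      fun _ => true).Dom} = V := by
      ext n
      constructor
      · rintro ⟨h3, -⟩
        exact h3
      · intro h3
        exact ⟨h3, trivial⟩
    rw [h2]
    exact hD

theorem no_minimal (A : Set ℕ) (hA0 : ¬ Red A ∅)
    (hA : ∀ C : Set ℕ, Red C A → (Red C ∅ ∨ Red A C)) : False := by
  have hA1 : ¬ GC A := fun h => hA0 (red_of_gc h ∅)
  obtain ⟨B, ⟨W, hW, hWX⟩, hB, hBD⟩ := Pool.Agent.UGen.main A hA1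
  -- the positive part of the operator
  let U0 : List (ℕ × ℕ) × ℕ → Prop := fun x =>
    W (Nat.pair x.2 1, x.1.map fun q => Nat.pair q.1 q.2)
  have hU0 : REPred U0 := by
    refine RE.comp hW ?_
    refine Computable.pair ?_ ?_
    · exact (Primrec₂.natPair.comp Primrec.snd (Primrec.const 1)).to_comp
    · exact (Primrec.list_map Primrec.fst
        (Primrec₂.natPair.comp (Primrec.fst.comp Primrec.snd)
          (Primrec.snd.comp Primrec.snd)).to₂).to_comp
  have hop : ∀ G, GD A G → op U0 G ⊆ B ∧ D1 (op U0 G) := by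
    intro G hG
    let X : Set ℕ := {x | ∃ q ∈ G, x = Nat.pair q.1 q.2}
    have hX : IsDesc A X := by
      refine ⟨?_, ?_⟩
      · rintro x ⟨q, hq, rfl⟩
        refine ⟨q.1, q.2, rfl, ?_⟩
        rcases hG.1 q.1 q.2 hq with h | h
        · exact Or.inl ⟨h.2, h.1⟩
        · exact Or.inr ⟨h.2, h.1⟩
      · have h1 : {n : ℕ | ∃ j : ℕ, Nat.pair n j ∈ X} = {x | ∃ y, (x, y) ∈ G} := by
          ext n
          constructor
          · rintro ⟨j, ⟨a, b⟩, hq, he⟩
            obtain ⟨rfl, rfl⟩ := Nat.pair_eq_pair.1 he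
            exact ⟨_, hq⟩
          · rintro ⟨y, hy⟩
            exact ⟨y, (n, y), hy, rfl⟩
        rw [h1]
        exact hG.dom
    have h1 := hWX X hX
    have h2 : op U0 G = {m | Nat.pair m 1 ∈
        {y : ℕ | ∃ l : List ℕ, (∀ z ∈ l, z ∈ X) ∧ W (y, l)}} := by
      ext m
      constructor
      · rintro ⟨l, h3, h4⟩
        refine ⟨l.map fun q => Nat.pair q.1 q.2, ?_, h4⟩
        intro z hz
        obtain ⟨q, hq, rfl⟩ := List.mem_map.1 hz
        exact ⟨q, h3 q hq, rfl⟩
      · rintro ⟨l, h3, h4⟩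
        refine ⟨l.map Nat.unpair, ?_, ?_⟩
        · intro q hq
          obtain ⟨z, hz, rfl⟩ := List.mem_map.1 hq
          obtain ⟨q', hq', rfl⟩ := h3 z hz
          simpa using hq'
        · show W (Nat.pair m 1, (l.map Nat.unpair).map fun q => Nat.pair q.1 q.2)
          rw [List.map_map]
          have : ((fun q : ℕ × ℕ => Nat.pair q.1 q.2) ∘ Nat.unpair) = id := by
            funext z; simp
          rw [this, List.map_id]
          exact h4
    refine ⟨?_, ?_⟩
    · intro m hm
      rw [h2] at hm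
      obtain ⟨n, j, he, h3⟩ := h1.1 _ hm
      obtain ⟨rfl, rfl⟩ := Nat.pair_eq_pair.1 he
      simpa using h3
    · rw [h2]
      refine (h1.dom.inter hBD).mono ?_
      rintro m ⟨⟨j, hj⟩, hm⟩
      obtain ⟨n, j', he, h3⟩ := h1.1 _ hj
      obtain ⟨rfl, rfl⟩ := Nat.pair_eq_pair.1 he
      rcases h3 with h3 | h3
      · have := h3.1
        subst this
        exact hj
      · exact absurd hm h3.2
  have hB' : ∀ V : Set ℕ, REPred (fun x => x ∈ V) → V ⊆ B → ¬ D1 V :=
    fun V h1 h2 h3 => hB (gc_of_sub h1 h2 h3)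
  obtain ⟨C, hBC, hC1, hC2⟩ := main B hB'
  have hCD : D1 C := hBD.mono hBC
  -- `C` is below `A`
  have hCA : Red C A := by
    refine ⟨fun x => x.2.2 = 1 ∧ U0 (x.1, x.2.1), ?_, fun G hG => ?_⟩
    · refine RE.and (RE.eq (Computable.snd.comp Computable.snd) (Computable.const 1)) ?_
      exact RE.comp hU0 (Computable.fst.pair (Computable.fst.comp Computable.snd))
    · obtain ⟨h1, h2⟩ := hop G hG
      refine ⟨?_, ?_⟩
      · rintro x y ⟨l, h3, h4, h5⟩
        exact Or.inl ⟨hBC (h1 ⟨l, h3, h5⟩), h4⟩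
      · refine D1.mono h2 ?_
        rintro x ⟨l, h3, h4⟩
        exact ⟨1, l, h3, rfl, h4⟩
  rcases hA C hCA with h | h
  · obtain ⟨V, hV, h1⟩ := h
    let G : Set (ℕ × ℕ) := {q | q.2 = 0}
    have hG : GD ∅ G := by
      refine ⟨?_, ?_⟩
      · rintro x y h2
        exact Or.inr ⟨fun h => h, h2⟩
      · have h2 : {x : ℕ | ∃ y : ℕ, (x, y) ∈ G} = Set.univ := by
          ext x
          simp [G]
        rw [h2]
        show D1 Set.univ
        rw [D1_iff]
        intro ε hε
        refine ⟨0, fun m _ => ?_⟩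
        simp
        positivity
    have h2 := h1 G hG
    refine hC1 {m | (m, 1) ∈ op V G} ?_ ?_ ?_
    · have h3 : REPred fun q : ℕ × ℕ => q ∈ op V G :=
        re_op hV (RE.eq Computable.snd (Computable.const 0))
      exact RE.comp h3 (Computable.id.pair (Computable.const 1))
    · intro m hm
      have h3 := h2.1 m 1 hm
      simpa using h3
    · refine (h2.dom.inter hCD).mono ?_
      rintro m ⟨⟨j, hj⟩, hm⟩
      rcases h2.1 m j hj with h3 | h3
      · have := h3.2
        subst this
        exact hj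
      · exact absurd hm h3.1
  · obtain ⟨V, hV, h1⟩ := h
    let E : List ℕ × (ℕ × ℕ) → Prop := fun x => x.2.1 ∈ x.1 ∧ x.2.2 = 1
    have hE : REPred E := RE.and (RE.mem_list (Computable.fst.comp Computable.snd) Computable.fst)
      (RE.eq (Computable.snd.comp Computable.snd) (Computable.const 1))
    have hEC : op E C = {q | q.1 ∈ C ∧ q.2 = 1} := by
      ext q
      constructor
      · rintro ⟨l, h2, h3, h4⟩
        exact ⟨h2 _ h3, h4⟩
      · rintro ⟨h2, h3⟩
        exact ⟨[q.1], by simpa using h2, by simp [E, h3]⟩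
    have hG : GD C (op E C) := by
      rw [hEC]
      refine ⟨?_, ?_⟩
      · rintro x y h2
        exact Or.inl h2
      · refine D1.mono hCD ?_
        intro x hx
        exact ⟨1, hx, rfl⟩
    obtain ⟨U1, hU1, h2⟩ := comp_op hE hV
    obtain ⟨U2, hU2, h3⟩ := comp_op hU1 hU0
    have h4 : op U2 C = op U0 (op V (op E C)) := by rw [h3, h2]
    have h5 := hop _ (h1 _ hG)
    have h6 : op U2 C ⊆ B ∧ D1 (op U2 C) := by
      rw [h4]
      exact h5
    exact hC2 U2 hU2 h6.1 h6.2

end Pool.Agent.W935.GenMin
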