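import Pool.Agent.H560R2.Neg6
import Pool.Agent.H560R2.Fm3

/-! Formulas with few arbitrary gates on top of monotone circuits: the chain argument for the clique
function (helper935; from the modules H560R2.Neg*, H560R2.Fm* of the starting files). -/

namespace Pool.Agent.W935.CF

open Finset Pool.Agent.H520R2 Pool.Agent.H520R2.NM Pool.Agent.H560R2

/-- Monotone formulas over available functions are programs. -/
lemma ml_prog {X : Type*} {B B' : Set (X → Bool)} {n : ℕ} {f : X → Bool} (h : ML B' n f) :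
    ∀ L : List (X → Bool), MProg B L → (∀ b ∈ B', Av B L b) →
      (∃ c, f = fun _ => c) ∨ ∃ L', MProg B (L' ++ L) ∧ L'.length + 1 ≤ n ∧ Av B (L' ++ L) f := by
  induction h with
  | const c => exact fun _ _ _ => Or.inl ⟨c, rfl⟩
  | leaf hb =>
    intro L hL hB
    exact Or.inr ⟨[], by simpa using hL, by simp, by simpa using hB _ hb⟩
  | @and n m f g _ _ ihf ihg =>
    intro L hL hB
    rcases ihf L hL hB with ⟨c, rfl⟩ | ⟨L1, h1, h2, h3⟩
    · rcases ihg L hL hB with ⟨c', rfl⟩ | ⟨L2, k1, k2, k3⟩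
      · exact Or.inl ⟨c && c', rfl⟩
      · cases c
        · exact Or.inl ⟨false, by simp⟩
        · refine Or.inr ⟨L2, k1, by omega, ?_⟩
          simpa using k3
    · rcases ihg (L1 ++ L) h1 (fun b hb => (hB b hb).mono L1) with ⟨c', rfl⟩ | ⟨L2, k1, k2, k3⟩
      · cases c'
        · exact Or.inl ⟨false, by simp⟩
        · refine Or.inr ⟨L1, h1, by omega, ?_⟩
          simpa using h3
      · refine Or.inr ⟨(fun x => f x && g x) :: (L2 ++ L1), ?_, ?_, ?_⟩
        · have := MProg.and k1 (h3.mono L2) k3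
          simpa using this
        · simp only [List.length_cons, List.length_append]
          omega
        · exact Or.inr (by simp)
  | @or n m f g _ _ ihf ihg =>
    intro L hL hB
    rcases ihf L hL hB with ⟨c, rfl⟩ | ⟨L1, h1, h2, h3⟩
    · rcases ihg L hL hB with ⟨c', rfl⟩ | ⟨L2, k1, k2, k3⟩
      · exact Or.inl ⟨c || c', rfl⟩
      · cases c
        · refine Or.inr ⟨L2, k1, by omega, ?_⟩
          simpa using k3
        · exact Or.inl ⟨true, by simp⟩
    · rcases ihg (L1 ++ L) h1 (fun b hb => (hB b hb).mono L1) with ⟨c', rfl⟩ | ⟨L2, k1, k2, k3⟩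
      · cases c'
        · refine Or.inr ⟨L1, h1, by omega, ?_⟩
          simpa using h3
        · exact Or.inl ⟨true, by simp⟩
      · refine Or.inr ⟨(fun x => f x || g x) :: (L2 ++ L1), ?_, ?_, ?_⟩
        · have := MProg.or k1 (h3.mono L2) k3
          simpa using this
        · simp only [List.length_cons, List.length_append]
          omega
        · exact Or.inr (by simp)

lemma ml_mono {X : Type*} {B : Set (X → Bool)} (R : X → X → Prop)
    (hB : ∀ b ∈ B, ∀ x y, R x y → b x ≤ b y) {n : ℕ} {f : X → Bool} (h : ML B n f) :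
    ∀ x y, R x y → f x ≤ f y := by
  induction h with
  | const c => exact fun _ _ _ => le_rfl
  | leaf hb => exact hB _ hb
  | and _ _ ihf ihg => exact fun x y hxy => band_mono (ihf x y hxy) (ihg x y hxy)
  | or _ _ ihf ihg => exact fun x y hxy => bor_mono (ihf x y hxy) (ihg x y hxy)

/-- An arbitrary function of few monotone functions is not the clique function. -/
theorem det_clique (d n : ℕ) (hd : 1 ≤ d) (hn : 2 ^ 88 * (Nat.log 2 d + 1) ^ 8 * d ^ 4 ≤ n)
    (A B : Finset (Fin n)) (hAB : Disjoint A B) (hc : 2 * (A.card + B.card) ≤ n)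
    {V : Type} (lf : V → SimpleGraph (Fin n) → Bool) (hlf : ∀ l, FreeOutB (rect A B hAB) d (lf l))
    (L0 : List ((V → Bool) → Bool)) (hL0 : MProg (VB V) L0)
    (P : List (ℕ × ((V → Bool) → Bool))) (hP : ∀ p ∈ P, ML {f | Av (VB V) L0 f} p.1 p.2)
    (F : (V → Bool) → Bool) (hdet : ∀ x x', (∀ p ∈ P, p.2 x = p.2 x') → F x = F x')
    (hC : ∀ G, F (inp lf G) = true ↔
      ∃ c : Finset (Fin n), G.IsClique (c : Set (Fin n)) ∧ Real.sqrt (n : ℝ) < (c.card : ℝ))
    (hsize : 2 * (L0.length + (P.map Prod.fst).sum) < 4 ^ d) :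
    A.card * (B.card / (2 ^ 42 * (Nat.log 2 d + 1) ^ 4 * d ^ 2)) ≤ P.length := by
  classical
  obtain ⟨lam, h0, h1, h2⟩ := exists_lam2 d hd
  obtain ⟨F', _, _, _, hq⟩ := exists_field lam h0
  set q := 2 ^ lam with hqd
  set u := Nat.log 2 d + 1 with hu
  have hlam : 1 ≤ lam := by omega
  have hd4 : 1024 * d ≤ q := by
    refine le_trans ?_ h1
    have : 1 ≤ lam * (lam + 1) := Nat.mul_pos hlam (by omega)
    calc 1024 * d = (1024 * d) * 1 := by ring
      _ ≤ (1024 * d) * (lam * (lam + 1)) := Nat.mul_le_mul_left _ this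
      _ = _ := by ring
  have hq2 : q ^ 2 ≤ 2 ^ 42 * u ^ 4 * d ^ 2 := by
    calc q ^ 2 ≤ (2 ^ 21 * u ^ 2 * d) ^ 2 := Nat.pow_le_pow_left h2 2
      _ = _ := by ring
  have hq4 : 16 * q ^ 4 ≤ n := by
    calc 16 * q ^ 4 ≤ 16 * (2 ^ 21 * u ^ 2 * d) ^ 4 :=
          Nat.mul_le_mul_left _ (Nat.pow_le_pow_left h2 4)
      _ = 2 ^ 88 * u ^ 8 * d ^ 4 := by ring
      _ ≤ n := hn
  have hsq : 4 * q ^ 2 ≤ Nat.sqrt n := by
    rw [Nat.le_sqrt]
    calc 4 * q ^ 2 * (4 * q ^ 2) = 16 * q ^ 4 := by ring
      _ ≤ n := hq4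
  have hsn : Nat.sqrt n * Nat.sqrt n ≤ n := Nat.sqrt_le n
  have e0 : 1 ≤ q := by omega
  have e1 : 2 * d ≤ q := by omega
  have e2 : q * (2 * d) ≤ q ^ 2 := by rw [sq]; exact Nat.mul_le_mul_left _ e1
  have e2' : 2 * d * q ≤ q ^ 2 := by rw [mul_comm]; exact e2
  have e3 : q ≤ q ^ 2 := by rw [sq]; exact Nat.le_mul_self q
  have e8 : 1 ≤ q ^ 2 := Nat.one_le_pow _ _ e0
  have hsq1 : 4 ≤ Nat.sqrt n := by omega
  have hι : Fintype.card (F' × F') = q ^ 2 := by rw [Fintype.card_prod, sq, hq]
  have hCl : Fintype.card (PCl F' (2 * d)) = 2 * d + (q * (2 * d) + q) := by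
    simp [PCl, hq]
  have hSt : Fintype.card (PSt F' (2 * d)) = 2 * d * q + (q * (2 * d) * q ^ 2 + q ^ 2) := by
    simp [PSt, hq, sq]
  have hb2 : 2 * (Fintype.card (PSt F' (2 * d)) + Nat.sqrt n) ≤ n := by
    rw [hSt]
    have e4 : q * (2 * d) * q ^ 2 ≤ q ^ 2 * q ^ 2 := Nat.mul_le_mul_right _ e2
    have e5 : 16 * (q ^ 2 * q ^ 2) ≤ n := by
      calc 16 * (q ^ 2 * q ^ 2) = 16 * q ^ 4 := by ring
        _ ≤ _ := hq4
    have e6 : q ^ 2 ≤ q ^ 2 * q ^ 2 := Nat.le_mul_self _
    have e7 : 4 * Nat.sqrt n ≤ Nat.sqrt n * Nat.sqrt n := Nat.mul_le_mul_right _ hsq1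
    omega
  have hclle : Fintype.card (PCl F' (2 * d)) ≤ Nat.sqrt n := by
    rw [hCl]; omega
  set M := A.card * (B.card / (2 ^ 42 * u ^ 4 * d ^ 2)) with hM
  rcases Nat.eq_zero_or_pos M with hM0 | hMpos
  · omega
  have hBpos : 0 < B.card / (2 ^ 42 * u ^ 4 * d ^ 2) := Nat.pos_of_mul_pos_left hMpos
  -- number of copies
  set K' := B.card / q ^ 2 with hK'
  have hK'le : B.card / (2 ^ 42 * u ^ 4 * d ^ 2) ≤ K' := Nat.div_le_div_left hq2 e8
  have hK'pos : 0 < K' := lt_of_lt_of_le hBpos hK'le
  have hMle : M ≤ A.card * K' := Nat.mul_le_mul_left _ hK'le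
  set p := Nat.sqrt n - Fintype.card (PCl F' (2 * d)) with hp
  have hp1 : 1 + Fintype.card (PCl F' (2 * d)) + p = Nat.sqrt n + 1 := by omega
  obtain ⟨ψ, hψA, hψB⟩ := psi_exists (St := PSt F' (2 * d)) (ι := F' × F') pst A.card K' p A B hAB
    le_rfl (by rw [hι]; exact Nat.mul_div_le _ _) (by omega)
  have hHr : ∀ k w, (rect A B hAB).Adj (ψ (Sum.inl k)) (ψ (Sum.inr (Sum.inl (Sum.inl w)))) :=
    fun k w => Or.inl ⟨hψA k, hψB w⟩
  let E : (Fin A.card × Fin K' → Set (F' × F')) → SimpleGraph (Fin n) :=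
    fun y => gPsi pcls pcmp pst A.card K' p ψ ⊥ y
  have hclique : ∀ y, (∃ c : Finset (Fin n), (E y).IsClique (c : Set (Fin n)) ∧
      Real.sqrt (n : ℝ) < (c.card : ℝ)) ↔ ∃ j, fPoly (2 * d) (y j) := by
    intro y
    have h := gPsi_clique (cls := pcls) (cmp := pcmp) (pst_inj (F := F') (d := 2 * d)) hK'pos
      (ψ := ψ) (P := ⊥) (by intro u v h; exact absurd h (by simp)) (by
        rw [hp1]
        intro c hcl
        rw [SimpleGraph.isNClique_iff] at hcl
        obtain ⟨a, ha, b, hb, hab⟩ := Finset.one_lt_card.mp (show 1 < c.card by omega)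
        exact hcl.1 ha hb hab) y
    rw [hp1] at h
    simp only [real_sqrt_lt_nat]
    refine h.trans ?_
    constructor
    · rintro ⟨j, hj⟩; exact ⟨j, (csp_iff (by omega) (y j)).mp hj⟩
    · rintro ⟨j, hj⟩; exact ⟨j, (csp_iff (by omega) (y j)).mpr hj⟩
  have hf0 : ¬ fPoly (F := F') (2 * d) ∅ := by
    rintro ⟨c, hc⟩
    exact hc 0
  let en : Fin M → Fin A.card × Fin K' := fun i =>
    finProdFinEquiv.symm (Fin.castLE hMle i)
  have hen : Function.Injective en := by
    intro i j h
    exact Fin.castLE_injective _ (finProdFinEquiv.symm.injective h)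
  -- monotone leaves
  have hmono : ∀ y y', (∀ j, y j ⊆ y' j) → inp lf (E y) ≤ inp lf (E y') := by
    intro y y' hyy l
    obtain ⟨S, hS1, hS2, hS3⟩ := hlf l
    show lf l (E y) ≤ lf l (E y')
    rcases hb : lf l (E y) with _ | _
    · exact Bool.false_le _
    · rw [hS3 (E y) (E y') (fun u v huv => gPsi_out hHr y y' huv)
        (fun u v _ h => gPsi_mono hyy h) hb]
  have hPm : ∀ p ∈ P, ∀ x x' : V → Bool, x ≤ x' → p.2 x ≤ p.2 x' := by
    intro p hp
    exact ml_mono (fun x x' => x ≤ x') (fun b hb x x' h => mono_of_av hL0 b hb x x' h) (hP p hp)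
  have hupd : ∀ (Y : Fin A.card × Fin K' → Set (F' × F')) (J : Fin A.card × Fin K')
      (X : Set (F' × F')), Y J = ∅ → inp lf (E Y) ≤ inp lf (E (Function.update Y J X)) := by
    intro Y J X hJ
    refine hmono _ _ fun j => ?_
    by_cases hj : j = J
    · rw [hj, hJ]
      exact Set.empty_subset _
    · rw [Function.update_of_ne hj]
  let pr : (Fin A.card × Fin K' → Set (F' × F')) → List Bool := fun Y =>
    P.map (fun p => p.2 (inp lf (E Y)))
  have hpr : ∀ Y Y', pr Y = pr Y' ↔ ∀ p ∈ P, p.2 (inp lf (E Y)) = p.2 (inp lf (E Y')) := by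
    intro Y Y'
    exact List.map_inj_left
  have hval : ∀ Y, F (inp lf (E Y)) = true ↔ ∃ j, fPoly (2 * d) (Y j) := fun Y =>
    (hC (E Y)).trans (hclique Y)
  obtain ⟨Y, k1, k2, k3⟩ := chain_core (κ := Fin A.card × Fin K') (m := M)
    (fun X => ¬ fPoly (F := F') (2 * d) X) ∅ hf0 en hen pr (by
      intro y J hy hyJ
      by_contra hcon
      push Not at hcon
      let S := P.filter (fun p => !(p.2 (inp lf (E y))))
      have hg := ML_any (B := {f | Av (VB V) L0 f}) S (fun p hp => hP p (List.mem_of_mem_filter hp))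
      have hsum : (S.map Prod.fst).sum ≤ (P.map Prod.fst).sum := sum_filter_le P _
      have hg' : MComp (VB V) (L0.length + (P.map Prod.fst).sum)
          (fun x => S.any (fun p => p.2 x)) := by
        rcases ml_prog hg L0 hL0 (fun b hb => hb) with ⟨c, hc'⟩ | ⟨L', m1, m2, m3⟩
        · exact ⟨[], MProg.nil, by simp, Or.inl (Or.inl ⟨c, hc'⟩)⟩
        · refine ⟨L' ++ L0, m1, ?_, m3⟩
          rw [List.length_append]
          omega
      have hg2 := hg'.comp (B' := blockBase (fun y => inp lf (E y)) y J)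
        (fun X => inp lf (E (Function.update y J X))) (fun b hb => ⟨b, hb, rfl⟩)
      have hy0 : F (inp lf (E y)) = false := by
        rw [← Bool.not_eq_true, hval]
        rintro ⟨J', hJ'⟩
        exact hy J' hJ'
      have hiff : ∀ X, S.any (fun p => p.2 (inp lf (E (Function.update y J X)))) = true ↔
          fPoly (2 * d) X := by
        intro X
        constructor
        · intro hX
          by_contra hneg
          obtain ⟨p, hp, hpX⟩ := List.any_eq_true.mp hX
          obtain ⟨hp1, hp2⟩ := List.mem_filter.mp hp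
          have := (hpr _ _).mp (hcon X hneg) p hp1
          rw [this] at hpX
          rw [hpX] at hp2
          exact absurd hp2 (by simp)
        · intro hX
          have hv : F (inp lf (E (Function.update y J X))) = true :=
            (hval _).mpr ⟨J, by rwa [Function.update_self]⟩
          have hne : ¬ ∀ p ∈ P, p.2 (inp lf (E (Function.update y J X))) =
              p.2 (inp lf (E y)) := by
            intro hall
            have := hdet _ _ hall
            rw [hv, hy0] at this
            exact absurd this (by simp)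
          push Not at hne
          obtain ⟨p, hp, hpne⟩ := hne
          have hmono := hPm p hp _ _ (hupd y J X hyJ)
          have e1 : p.2 (inp lf (E y)) = false := by
            by_contra hc
            rw [Bool.not_eq_false] at hc
            rw [hc] at hmono hpne
            exact hpne (top_le_iff.mp hmono)
          have e2 : p.2 (inp lf (E (Function.update y J X))) = true := by
            rw [e1] at hpne
            simpa using hpne
          rw [List.any_eq_true]
          exact ⟨p, List.mem_filter.mpr ⟨hp, by simp [e1]⟩, e2⟩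
      have := mcomp_lower (F := F') d lam hd (by rw [hq]) (by rw [hq]; exact h1)
        (blockBase (fun y => inp lf (E y)) y J)
        (block_narrow hHr lf d hlf y J) _ _ hg2 hiff
      omega)
  -- count
  let c : ℕ → ℕ := fun i => P.countP (fun p => p.2 (inp lf (E (Y i))))
  have hstep : ∀ i < M, c i + 1 ≤ c (i + 1) := by
    intro i hi
    obtain ⟨J, X, hJ, hX⟩ := k1 i hi
    have hmono : ∀ p ∈ P, p.2 (inp lf (E (Y i))) = true → p.2 (inp lf (E (Y (i + 1)))) = true := by
      intro p hp hpt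
      have := hPm p hp _ _ (hupd (Y i) J X hJ)
      rw [← hX, hpt] at this
      exact top_le_iff.mp this
    have hne := k2 i hi
    rw [Ne, hpr] at hne
    push Not at hne
    obtain ⟨p, hp, hpne⟩ := hne
    exact countP_lt P _ _ hmono ⟨p, hp, hpne⟩
  have hM' : ∀ i ≤ M, i ≤ c i := by
    intro i
    induction i with
    | zero => intro _; exact Nat.zero_le _
    | succ i ih =>
      intro hi
      have := ih (by omega)
      have := hstep i (by omega)
      omega
  have h5 := hM' M le_rfl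
  have h6 : c M ≤ P.length := List.countP_le_length
  omega

end Pool.Agent.W935.CF
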