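import Pool.Agent.W935.CF1

/-! Monotone circuits with a formula on top: the exact clique function (helper935). -/

namespace Pool.Agent.W935.CF

open Finset Pool.Agent.H520R2 Pool.Agent.H520R2.NM Pool.Agent.H560R2

/-- a monotone circuit as a program -/
lemma circ_prog {V : Type} {s : ℕ} (b : Fin s → Bool) (l r : Fin s → V ⊕ Fin s)
    (htop : ∀ i k, l i = Sum.inr k ∨ r i = Sum.inr k → k < i)
    (val : (V → Bool) → Fin s → Bool)
    (hval : ∀ x i, val x i = if b i = true
      then (Sum.elim x (val x) (l i) && Sum.elim x (val x) (r i))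
      else (Sum.elim x (val x) (l i) || Sum.elim x (val x) (r i))) :
    ∃ L, MProg (VB V) L ∧ L.length ≤ s ∧ ∀ i, Av (VB V) L (fun x => val x i) := by
  have key : ∀ k ≤ s, ∃ L, MProg (VB V) L ∧ L.length ≤ k ∧
      ∀ i : Fin s, i.val < k → Av (VB V) L (fun x => val x i) := by
    intro k
    induction k with
    | zero => exact fun _ => ⟨[], MProg.nil, le_rfl, fun i hi => absurd hi (by omega)⟩
    | succ k ih =>
      intro hk
      obtain ⟨L, h1, h2, h3⟩ := ih (by omega)
      let i0 : Fin s := ⟨k, hk⟩
      have hav : ∀ z : V ⊕ Fin s, (∀ j, z = Sum.inr j → j < i0) →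
          Av (VB V) L (fun x => Sum.elim x (val x) z) := by
        rintro (v | j) hz
        · exact Or.inl (Or.inr ⟨v, rfl⟩)
        · exact h3 j (hz j rfl)
      have hl := hav (l i0) (fun j hj => htop i0 j (Or.inl hj))
      have hr := hav (r i0) (fun j hj => htop i0 j (Or.inr hj))
      rcases hb : b i0 with _ | _
      · refine ⟨_ :: L, MProg.or h1 hl hr, by simp only [List.length_cons]; omega, ?_⟩
        intro i hi
        rcases Nat.lt_or_ge i.val k with hik | hik
        · exact (h3 i hik).cons _
        · have : i = i0 := Fin.ext (by show i.val = k; omega)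
          subst this
          refine Or.inr ?_
          have e : (fun x => val x i0) =
              fun x => (Sum.elim x (val x) (l i0) || Sum.elim x (val x) (r i0)) := by
            funext x
            rw [hval x i0, if_neg (by rw [hb]; simp)]
          rw [e]
          exact List.mem_cons_self
      · refine ⟨_ :: L, MProg.and h1 hl hr, by simp only [List.length_cons]; omega, ?_⟩
        intro i hi
        rcases Nat.lt_or_ge i.val k with hik | hik
        · exact (h3 i hik).cons _
        · have : i = i0 := Fin.ext (by show i.val = k; omega)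
          subst this
          refine Or.inr ?_
          have e : (fun x => val x i0) =
              fun x => (Sum.elim x (val x) (l i0) && Sum.elim x (val x) (r i0)) := by
            funext x
            rw [hval x i0, if_pos hb]
          rw [e]
          exact List.mem_cons_self
  obtain ⟨L, h1, h2, h3⟩ := key s le_rfl
  exact ⟨L, h1, h2, fun i => h3 i i.isLt⟩

/-- The output of a formula over a monotone circuit is a function of few monotone functions. -/
theorem hybrid_det {V : Type} {s : ℕ} (b : Fin s → Bool) (l r : Fin s → V ⊕ Fin s)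
    (htop : ∀ i k, l i = Sum.inr k ∨ r i = Sum.inr k → k < i)
    (val : (V → Bool) → Fin s → Bool)
    (hval : ∀ x i, val x i = if b i = true
      then (Sum.elim x (val x) (l i) && Sum.elim x (val x) (r i))
      else (Sum.elim x (val x) (l i) || Sum.elim x (val x) (r i)))
    (φ : GF (V ⊕ Fin s)) :
    ∃ (L0 : List ((V → Bool) → Bool)) (P : List (ℕ × ((V → Bool) → Bool))),
      MProg (VB V) L0 ∧ L0.length ≤ s ∧ (∀ p ∈ P, ML {f | Av (VB V) L0 f} p.1 p.2) ∧
      P.length ≤ 5 * φ.free + 1 ∧ (P.map Prod.fst).sum ≤ 2 * φ.leaves ∧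
      ∀ x x' : V → Bool, (∀ p ∈ P, p.2 x = p.2 x') →
        φ.eval (Sum.elim x (val x)) = φ.eval (Sum.elim x' (val x')) := by
  obtain ⟨L0, h1, h2, h3⟩ := circ_prog b l r htop val hval
  obtain ⟨Q, k1, k2, k3, k4⟩ := φ.good
  refine ⟨L0, Q.map (fun p => (p.1, fun x => p.2 (Sum.elim x (val x)))), h1, h2, ?_, ?_, ?_, ?_⟩
  · intro p hp
    obtain ⟨p', hp', rfl⟩ := List.mem_map.mp hp
    refine ML.comp (fun x : V → Bool => Sum.elim x (val x)) ?_ (k1 p' hp')
    rintro b' (⟨c, rfl⟩ | ⟨v | i, rfl⟩)
    · exact Or.inl (Or.inl ⟨c, rfl⟩)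
    · exact Or.inl (Or.inr ⟨v, rfl⟩)
    · exact h3 i
  · rw [List.length_map]; exact k2
  · rw [List.map_map]
    exact k3
  · intro x x' hx
    refine k4 _ _ fun p hp => ?_
    exact hx _ (List.mem_map_of_mem (f := fun p : ℕ × ((V ⊕ Fin s → Bool) → Bool) =>
      (p.1, fun x : V → Bool => p.2 (Sum.elim x (val x)))) hp)

end Pool.Agent.W935.CF
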