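import Pool.Agent.W935.CF2
import Pool.Agent.H630VC.Final2

/-! Asymptotic parameters (helper935). -/

namespace Pool.Agent.W935.CF

open Filter

lemma params (k : ℕ) (α : ℝ) (hα : 0 ≤ α) (hα2 : α < 2) :
    ∃ N : ℕ, ∀ n : ℕ, N ≤ n → ∃ d : ℕ, 1 ≤ d ∧ 4 * n ^ k < 4 ^ d ∧
      2 ^ 88 * (Nat.log 2 d + 1) ^ 8 * d ^ 4 ≤ n ∧
      5 * (n : ℝ) ^ α + 1 ≤
        ((n / 4) * ((n / 4) / (2 ^ 42 * (Nat.log 2 d + 1) ^ 4 * d ^ 2)) : ℕ) := by
  set ε := 2 - α with hε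
  set δ := min (ε / 2) (1 / 2) with hδd
  have hδ : 0 < δ := lt_min (by linarith) (by norm_num)
  have hδ1 : δ ≤ ε / 2 := min_le_left _ _
  have hδ2 : δ ≤ 1 / 2 := min_le_right _ _
  obtain ⟨N1, hN1⟩ := H630VC.eventually_log ((2 : ℝ) ^ 16 * (k + 2) ^ 2) (δ / 6) (by positivity)
  obtain ⟨N2, hN2⟩ := Filter.eventually_atTop.1 (((tendsto_rpow_atTop (show 0 < ε / 2 by linarith)).comp
      (tendsto_natCast_atTop_atTop (R := ℝ))).eventually_ge_atTop 768)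
  obtain ⟨N3, hN3⟩ := Filter.eventually_atTop.1 (((tendsto_rpow_atTop
      (show (0 : ℝ) < 1 - δ by linarith)).comp
      (tendsto_natCast_atTop_atTop (R := ℝ))).eventually_ge_atTop 16)
  refine ⟨max (max N1 N2) (max N3 6), fun n hn => ?_⟩
  have a1 := hN1 n (((le_max_left _ _).trans (le_max_left _ _)).trans hn)
  have a2 := hN2 n (((le_max_right _ _).trans (le_max_left _ _)).trans hn)
  have a3 := hN3 n (((le_max_left _ _).trans (le_max_right _ _)).trans hn)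
  have hn6 : 6 ≤ n := ((le_max_right _ _).trans (le_max_right _ _)).trans hn
  simp only [Function.comp] at a2 a3
  have hn1R : (1 : ℝ) ≤ n := by
    have : 1 ≤ n := by omega
    exact_mod_cast this
  have hn0 : (0 : ℝ) < n := by linarith
  obtain ⟨L, hL⟩ : ∃ L, L = Nat.log 2 n + 1 := ⟨_, rfl⟩
  have hL1 : 1 ≤ L := by omega
  obtain ⟨d, hd⟩ : ∃ d, d = (k + 2) * L := ⟨_, rfl⟩
  have hd1 : 1 ≤ d := by rw [hd]; exact Nat.mul_pos (by omega) hL1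
  have hlogd : Nat.log 2 d + 1 ≤ 2 * d := by
    have := Nat.log_lt_self 2 (show d ≠ 0 by omega)
    omega
  have hD : ((2 ^ 88 * (Nat.log 2 d + 1) ^ 8 * d ^ 4 : ℕ) : ℝ) ≤ (n : ℝ) ^ δ := by
    have e1 : 2 ^ 88 * (Nat.log 2 d + 1) ^ 8 * d ^ 4 ≤ 2 ^ 88 * (2 * d) ^ 8 * d ^ 4 :=
      Nat.mul_le_mul_right _ (Nat.mul_le_mul_left _ (Nat.pow_le_pow_left hlogd 8))
    have e2 : ((2 ^ 88 * (2 * d) ^ 8 * d ^ 4 : ℕ) : ℝ) =
        ((2 : ℝ) ^ 16 * (k + 2) ^ 2 * ((Nat.log 2 n : ℝ) + 1) ^ 2) ^ 6 := by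
      rw [hd, hL]
      push_cast
      generalize ((k : ℝ) + 2) = x
      generalize ((Nat.log 2 n : ℝ) + 1) = y
      ring
    calc ((2 ^ 88 * (Nat.log 2 d + 1) ^ 8 * d ^ 4 : ℕ) : ℝ)
        ≤ ((2 ^ 88 * (2 * d) ^ 8 * d ^ 4 : ℕ) : ℝ) := by exact_mod_cast e1
      _ = _ := e2
      _ ≤ ((n : ℝ) ^ (δ / 6)) ^ 6 := by
        apply pow_le_pow_left₀ (by positivity) a1
      _ = (n : ℝ) ^ δ := by
        rw [← Real.rpow_natCast, ← Real.rpow_mul hn0.le]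
        congr 1
        push_cast
        ring
  obtain ⟨D, hDd⟩ : ∃ D, D = 2 ^ 88 * (Nat.log 2 d + 1) ^ 8 * d ^ 4 := ⟨_, rfl⟩
  rw [← hDd] at hD
  obtain ⟨W, hW⟩ : ∃ W, W = 2 ^ 42 * (Nat.log 2 d + 1) ^ 4 * d ^ 2 := ⟨_, rfl⟩
  have hW1 : 1 ≤ W := by
    rw [hW]
    exact Nat.mul_pos (Nat.mul_pos (by norm_num) (Nat.pow_pos (by omega))) (Nat.pow_pos hd1)
  have hWD : W ≤ D := by
    rw [hW, hDd]
    have e1 : (Nat.log 2 d + 1) ^ 4 ≤ (Nat.log 2 d + 1) ^ 8 :=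
      Nat.pow_le_pow_right (by omega) (by norm_num)
    have e2 : d ^ 2 ≤ d ^ 4 := Nat.pow_le_pow_right hd1 (by norm_num)
    exact Nat.mul_le_mul (Nat.mul_le_mul (by norm_num) e1) e2
  have hWn : (W : ℝ) ≤ (n : ℝ) ^ δ := le_trans (by exact_mod_cast hWD) hD
  refine ⟨d, hd1, ?_, ?_, ?_⟩
  rotate_left
  · rw [← hDd]
    have : (D : ℝ) ≤ (n : ℝ) := by
      refine hD.trans ?_
      calc (n : ℝ) ^ δ ≤ (n : ℝ) ^ (1 : ℝ) :=
            Real.rpow_le_rpow_of_exponent_le hn1R (by linarith)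
        _ = n := Real.rpow_one _
    exact_mod_cast this
  rotate_left
  · have e1 : n < 2 ^ L := by
      rw [hL]
      exact Nat.lt_pow_succ_log_self (by norm_num) n
    have e2 : n ^ k ≤ (2 ^ L) ^ k := Nat.pow_le_pow_left e1.le k
    have e3 : (2 ^ L) ^ k * 4 < 4 ^ d := by
      clear a1 a2 a3 hD hWn hWD hW hDd hN1 hN2 hN3
      have f1 : (4 : ℕ) ^ d = 2 ^ (2 * d) := by
        rw [pow_mul]
        norm_num
      have f2 : (2 ^ L) ^ k * 4 = 2 ^ (L * k + 2) := by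
        rw [pow_add, pow_mul]
        norm_num
      rw [f1, f2]
      apply Nat.pow_lt_pow_right (by norm_num)
      rw [hd]
      nlinarith
    omega
  · rw [← hW]
    obtain ⟨q, hq⟩ : ∃ q, q = n / 4 := ⟨_, rfl⟩
    rw [← hq]
    have q1 : (n : ℝ) / 8 ≤ q := by
      have : n ≤ 8 * q := by omega
      have : (n : ℝ) ≤ 8 * q := by exact_mod_cast this
      linarith
    have q2 : (q : ℝ) < W * ((q / W : ℕ) + 1) := by
      have := Nat.lt_mul_div_succ q (show 0 < W by omega)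
      exact_mod_cast this
    have hWpos : (0 : ℝ) < W := by exact_mod_cast hW1
    have hnδ : 0 < (n : ℝ) ^ δ := by positivity
    have hsplit : (n : ℝ) ^ (1 - δ) * (n : ℝ) ^ δ = n := by
      rw [← Real.rpow_add hn0]
      simp
    have q3 : (n : ℝ) ^ (1 - δ) / 16 ≤ ((q / W : ℕ) : ℝ) := by
      have : (n : ℝ) / 8 < (n : ℝ) ^ δ * (((q / W : ℕ) : ℝ) + 1) := by
        calc (n : ℝ) / 8 ≤ q := q1
          _ < W * ((q / W : ℕ) + 1) := q2
          _ ≤ (n : ℝ) ^ δ * (((q / W : ℕ) : ℝ) + 1) := by gcongr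
      rw [← hsplit] at this
      have h2 : (n : ℝ) ^ (1 - δ) / 8 < ((q / W : ℕ) : ℝ) + 1 := by
        by_contra hcon
        push Not at hcon
        have := mul_le_mul_of_nonneg_left hcon hnδ.le
        nlinarith
      linarith
    have q4 : (n : ℝ) ^ (1 - δ) * (n : ℝ) / 128 ≤ ((q * (q / W) : ℕ) : ℝ) := by
      push_cast
      calc (n : ℝ) ^ (1 - δ) * (n : ℝ) / 128 = ((n : ℝ) / 8) * ((n : ℝ) ^ (1 - δ) / 16) := by ring
        _ ≤ (q : ℝ) * ((q / W : ℕ) : ℝ) := by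
          apply mul_le_mul q1 q3 (by positivity) (by positivity)
    have q5 : (n : ℝ) ^ (1 - δ) * (n : ℝ) = (n : ℝ) ^ α * (n : ℝ) ^ (ε - δ) := by
      have e1 : (n : ℝ) = (n : ℝ) ^ (1 : ℝ) := (Real.rpow_one _).symm
      conv_lhs => rw [show (n : ℝ) ^ (1 - δ) * (n : ℝ) = (n : ℝ) ^ (1 - δ) * (n : ℝ) ^ (1 : ℝ) by
        rw [Real.rpow_one]]
      rw [← Real.rpow_add hn0, ← Real.rpow_add hn0]
      congr 1
      rw [hε]
      ring
    have q6 : (768 : ℝ) ≤ (n : ℝ) ^ (ε - δ) :=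
      a2.trans (Real.rpow_le_rpow_of_exponent_le hn1R (by linarith))
    have q7 : (1 : ℝ) ≤ (n : ℝ) ^ α := Real.one_le_rpow hn1R hα
    refine le_trans ?_ q4
    rw [q5]
    nlinarith

end Pool.Agent.W935.CF
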