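import Pool.Agent.H560R2.Fm3
import Pool.Agent.H630VC.Clq1

/-! Formulas on top of monotone real circuits: the randomised gap version (helper935; from the
modules H630VC.* and H560R2.Fm* of the starting files). -/

namespace Pool.Agent.W935.CG

open Finset Pool.Agent.H560R2 H630VC
open scoped Classical

lemma mono_step (θ : ℝ) : Mono2 (fun a _ => if θ ≤ a then (1 : ℝ) else 0) := by
  intro a a' b b' h1 _
  by_cases h : θ ≤ a
  · simp only [if_pos h, if_pos (h.trans h1), le_refl]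
  · simp only [if_neg h]
    split_ifs <;> norm_num

lemma mono_min : Mono2 (fun a b => min a b) := fun _ _ _ _ h1 h2 => min_le_min h1 h2

lemma mono_max : Mono2 (fun a b => max a b) := fun _ _ _ _ h1 h2 => max_le_max h1 h2

/-- a Boolean function on `I` as a real function -/
noncomputable def rb {I : Type*} (f : I → Bool) : I → ℝ := fun x => if f x = true then 1 else 0

/-- monotone formulas over available bits -/
lemma ml_fprog {I : Type} {inp : Set (I → ℝ)} {V : Type} (lv : I → V → Bool)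
    {n : ℕ} {f : (V → Bool) → Bool} (h : ML (pbase V) n f) :
    ∀ l : List (I → ℝ), FProg inp l [] →
      (∀ (v : V) (l' : List (I → ℝ)), FProg inp l' [] → (∀ g ∈ l, g ∈ l') →
        ∃ l'', FProg inp l'' [] ∧ l''.length ≤ l'.length + 2 ∧ (∀ g ∈ l', g ∈ l'') ∧
          rb (fun x => lv x v) ∈ l'') →
      (∃ c, f = fun _ => c) ∨ ∃ l', FProg inp l' [] ∧ l'.length + 1 ≤ l.length + 3 * n ∧
        (∀ g ∈ l, g ∈ l') ∧ rb (fun x => f (lv x)) ∈ l' := by
  induction h with
  | const c => exact fun _ _ _ => Or.inl ⟨c, rfl⟩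
  | @leaf b hb =>
    intro l hl hv
    rcases hb with ⟨c, rfl⟩ | ⟨v, rfl⟩
    · exact Or.inl ⟨c, rfl⟩
    · obtain ⟨l', h1, h2, h3, h4⟩ := hv v l hl (fun g hg => hg)
      exact Or.inr ⟨l', h1, by omega, h3, h4⟩
  | @and n m f g _ _ ihf ihg =>
    intro l hl hv
    rcases ihf l hl hv with ⟨c, rfl⟩ | ⟨l1, h1, h2, h3, h4⟩
    · rcases ihg l hl hv with ⟨c', rfl⟩ | ⟨l2, k1, k2, k3, k4⟩
      · exact Or.inl ⟨c && c', rfl⟩
      · cases c
        · exact Or.inl ⟨false, by simp⟩
        · refine Or.inr ⟨l2, k1, by omega, k3, ?_⟩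
          simpa using k4
    · rcases ihg l1 h1 (fun v l' hl' hsub => hv v l' hl' (fun g hg => hsub _ (h3 g hg))) with
        ⟨c', rfl⟩ | ⟨l2, k1, k2, k3, k4⟩
      · cases c'
        · exact Or.inl ⟨false, by simp⟩
        · refine Or.inr ⟨l1, h1, by omega, h3, ?_⟩
          simpa using h4
      · refine Or.inr ⟨_ :: l2, FProg.gate k1 mono_min (k3 _ h4) k4, ?_,
          fun g hg => List.mem_cons_of_mem _ (k3 _ (h3 g hg)), ?_⟩
        · simp only [List.length_cons]; omega
        · have : rb (fun x => f (lv x) && g (lv x)) =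
              fun x => min (rb (fun x => f (lv x)) x) (rb (fun x => g (lv x)) x) := by
            funext x
            simp only [rb]
            by_cases h1 : f (lv x) = true <;> by_cases h2 : g (lv x) = true <;> simp [h1, h2]
          rw [this]
          exact List.mem_cons_self
  | @or n m f g _ _ ihf ihg =>
    intro l hl hv
    rcases ihf l hl hv with ⟨c, rfl⟩ | ⟨l1, h1, h2, h3, h4⟩
    · rcases ihg l hl hv with ⟨c', rfl⟩ | ⟨l2, k1, k2, k3, k4⟩
      · exact Or.inl ⟨c || c', rfl⟩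
      · cases c
        · refine Or.inr ⟨l2, k1, by omega, k3, ?_⟩
          simpa using k4
        · exact Or.inl ⟨true, by simp⟩
    · rcases ihg l1 h1 (fun v l' hl' hsub => hv v l' hl' (fun g hg => hsub _ (h3 g hg))) with
        ⟨c', rfl⟩ | ⟨l2, k1, k2, k3, k4⟩
      · cases c'
        · refine Or.inr ⟨l1, h1, by omega, h3, ?_⟩
          simpa using h4
        · exact Or.inl ⟨true, by simp⟩
      · refine Or.inr ⟨_ :: l2, FProg.gate k1 mono_max (k3 _ h4) k4, ?_,
          fun g hg => List.mem_cons_of_mem _ (k3 _ (h3 g hg)), ?_⟩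
        · simp only [List.length_cons]; omega
        · have : rb (fun x => f (lv x) || g (lv x)) =
              fun x => max (rb (fun x => f (lv x)) x) (rb (fun x => g (lv x)) x) := by
            funext x
            simp only [rb]
            by_cases h1 : f (lv x) = true <;> by_cases h2 : g (lv x) = true <;> simp [h1, h2]
          rw [this]
          exact List.mem_cons_self

/-- all functions of the list `P` are computed by one program -/
lemma all_fprog {I : Type} {inp : Set (I → ℝ)} (hc : ∀ c : ℝ, (fun _ => c) ∈ inp) {V : Type}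
    (lv : I → V → Bool) (P : List (ℕ × ((V → Bool) → Bool)))
    (hP : ∀ p ∈ P, ML (pbase V) p.1 p.2) (l : List (I → ℝ)) (hl : FProg inp l [])
    (hv : ∀ (v : V) (l' : List (I → ℝ)), FProg inp l' [] → (∀ g ∈ l, g ∈ l') →
        ∃ l'', FProg inp l'' [] ∧ l''.length ≤ l'.length + 2 ∧ (∀ g ∈ l', g ∈ l'') ∧
          rb (fun x => lv x v) ∈ l'') :
    ∃ l', FProg inp l' [] ∧ l'.length ≤ l.length + 3 * (P.map Prod.fst).sum + P.length ∧
      (∀ g ∈ l, g ∈ l') ∧ ∀ p ∈ P, rb (fun x => p.2 (lv x)) ∈ l' := by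
  induction P with
  | nil => exact ⟨l, hl, by simp, fun g hg => hg, by simp⟩
  | cons p P ih =>
    obtain ⟨l1, h1, h2, h3, h4⟩ := ih (fun p' hp' => hP p' (List.mem_cons_of_mem _ hp'))
    rcases ml_fprog lv (hP p List.mem_cons_self) l1 h1
      (fun v l' hl' hsub => hv v l' hl' (fun g hg => hsub _ (h3 g hg))) with
      ⟨c, hc'⟩ | ⟨l2, k1, k2, k3, k4⟩
    · refine ⟨(fun _ => if c = true then 1 else 0) :: l1, FProg.input h1 (hc _), ?_,
        fun g hg => List.mem_cons_of_mem _ (h3 g hg), ?_⟩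
      · simp only [List.map_cons, List.sum_cons, List.length_cons]; omega
      · intro p' hp'
        rcases List.mem_cons.mp hp' with rfl | hp'
        · have : rb (fun x => p'.2 (lv x)) = fun _ : I => if c = true then (1 : ℝ) else 0 := by
            funext x
            simp only [rb, hc']
          rw [this]
          exact List.mem_cons_self
        · exact List.mem_cons_of_mem _ (h4 p' hp')
    · refine ⟨l2, k1, ?_, fun g hg => k3 _ (h3 g hg), ?_⟩
      · simp only [List.map_cons, List.sum_cons, List.length_cons]; omega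
      · intro p' hp'
        rcases List.mem_cons.mp hp' with rfl | hp'
        · exact k4
        · exact k3 _ (h4 p' hp')

/-- the conversion to circuits with one further gate -/
theorem to_fprog {I : Type} {inp : Set (I → ℝ)} (hc : ∀ c : ℝ, (fun _ => c) ∈ inp) {V : Type}
    (lv : I → V → Bool) (φ : GF V) (l : List (I → ℝ)) (hl : FProg inp l [])
    (hv : ∀ (v : V) (l' : List (I → ℝ)), FProg inp l' [] → (∀ g ∈ l, g ∈ l') →
        ∃ l'', FProg inp l'' [] ∧ l''.length ≤ l'.length + 2 ∧ (∀ g ∈ l', g ∈ l'') ∧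
          rb (fun x => lv x v) ∈ l'') :
    ∃ l' w, FProg inp l' [w] ∧
      l'.length ≤ l.length + 6 * φ.leaves + (5 * φ.free + 1) + 1 ∧ w.length ≤ 5 * φ.free + 1 ∧
      rb (fun x => φ.eval (lv x)) ∈ l' := by
  obtain ⟨P, p1, p2, p3, p4⟩ := φ.good
  obtain ⟨l1, h1, h2, h3, h4⟩ := all_fprog hc lv P p1 l hl hv
  let w : List ((I → ℝ) × ℝ) := P.map (fun p => (rb (fun x => p.2 (lv x)), (1 : ℝ)))
  let ψ : List Prop → ℝ := fun ℓ =>
    if ∃ y : I, (w.map fun p => p.2 ≤ p.1 y) = ℓ ∧ φ.eval (lv y) = true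
    then 1 else 0
  refine ⟨(fun x => ψ (w.map fun p => p.2 ≤ p.1 x)) :: l1, w, FProg.free h1 ?_, ?_,
    by simpa [w] using p2, ?_⟩
  · intro p hp
    obtain ⟨p', hp', rfl⟩ := List.mem_map.mp hp
    exact h4 p' hp'
  · simp only [List.length_cons]
    omega
  · have : rb (fun x => φ.eval (lv x)) = fun x => ψ (w.map fun p => p.2 ≤ p.1 x) := by
      funext x
      simp only [rb, ψ]
      refine if_congr ?_ rfl rfl
      constructor
      · intro h
        exact ⟨x, rfl, h⟩
      · rintro ⟨y, hy, hyF⟩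
        rw [← hyF]
        refine p4 _ _ fun p hp => ?_
        have e := List.map_inj_left.mp hy (rb (fun x => p.2 (lv x)), 1)
          (List.mem_map_of_mem (f := fun p : ℕ × ((V → Bool) → Bool) =>
            (rb (fun x => p.2 (lv x)), (1 : ℝ))) hp)
        simp only [rb, eq_iff_iff] at e
        rcases h1 : p.2 (lv x) with _ | _ <;> rcases h2 : p.2 (lv y) with _ | _ <;>
          simp only [h1, h2] at e ⊢ <;> norm_num at e
    rw [this]
    exact List.mem_cons_self

/-- a monotone real circuit as a program -/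
lemma circ_fprog {I : Type} {inp : Set (I → ℝ)} {U : Type} {s : ℕ} (ub : I → U → ℝ)
    (hub : ∀ u, (fun x => ub x u) ∈ inp)
    (op : Fin s → ℝ → ℝ → ℝ)
    (hmono : ∀ i a a' b b', a ≤ a' → b ≤ b' → op i a b ≤ op i a' b')
    (l r : Fin s → U ⊕ Fin s) (htop : ∀ i k, l i = Sum.inr k ∨ r i = Sum.inr k → k < i)
    (val : I → Fin s → ℝ)
    (hval : ∀ x i, val x i = op i (Sum.elim (ub x) (val x) (l i)) (Sum.elim (ub x) (val x) (r i))) :
    ∃ L : List (I → ℝ), FProg inp L [] ∧ L.length ≤ 3 * s ∧ ∀ i, (fun x => val x i) ∈ L := by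
  have key : ∀ k ≤ s, ∃ L : List (I → ℝ), FProg inp L [] ∧ L.length ≤ 3 * k ∧
      ∀ i : Fin s, i.val < k → (fun x => val x i) ∈ L := by
    intro k
    induction k with
    | zero => exact fun _ => ⟨[], FProg.nil, le_rfl, fun i hi => absurd hi (by omega)⟩
    | succ k ih =>
      intro hk
      obtain ⟨L, h1, h2, h3⟩ := ih (by omega)
      let i0 : Fin s := ⟨k, hk⟩
      have hav : ∀ (z : U ⊕ Fin s), (∀ j, z = Sum.inr j → j < i0) →
          ∀ L' : List (I → ℝ), FProg inp L' [] → (∀ g ∈ L, g ∈ L') →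
          ∃ L'', FProg inp L'' [] ∧ L''.length ≤ L'.length + 1 ∧ (∀ g ∈ L', g ∈ L'') ∧
            (fun x => Sum.elim (ub x) (val x) z) ∈ L'' := by
        rintro (v | j) hz L' hL' hsub
        · exact ⟨_ :: L', FProg.input hL' (hub v), by simp,
            fun g hg => List.mem_cons_of_mem _ hg, List.mem_cons_self⟩
        · exact ⟨L', hL', by omega, fun g hg => hg, hsub _ (h3 j (hz j rfl))⟩
      obtain ⟨L1, a1, a2, a3, a4⟩ := hav (l i0) (fun j hj => htop i0 j (Or.inl hj)) L h1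
        (fun g hg => hg)
      obtain ⟨L2, b1, b2, b3, b4⟩ := hav (r i0) (fun j hj => htop i0 j (Or.inr hj)) L1 a1 a3
      refine ⟨_ :: L2, FProg.gate b1 (φ := op i0) (fun a a' b b' => hmono i0 a a' b b')
        (b3 _ a4) b4, by simp only [List.length_cons]; omega, ?_⟩
      intro i hi
      rcases Nat.lt_or_ge i.val k with hik | hik
      · exact List.mem_cons_of_mem _ (b3 _ (a3 _ (h3 i hik)))
      · have : i = i0 := Fin.ext (by show i.val = k; omega)
        subst this
        have e : (fun x => val x i0) = fun x =>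
            op i0 (Sum.elim (ub x) (val x) (l i0)) (Sum.elim (ub x) (val x) (r i0)) := by
          funext x
          exact hval x i0
        rw [e]
        exact List.mem_cons_self
  obtain ⟨L, h1, h2, h3⟩ := key s le_rfl
  exact ⟨L, h1, h2, fun i => h3 i i.isLt⟩

/-- a formula on top of a monotone real circuit -/
theorem hybrid_fprog {I : Type} {inp : Set (I → ℝ)} (hc : ∀ c : ℝ, (fun _ => c) ∈ inp)
    {U : Type} {s : ℕ} (ub : I → U → ℝ) (hub : ∀ u, (fun x => ub x u) ∈ inp)
    (op : Fin s → ℝ → ℝ → ℝ)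
    (hmono : ∀ i a a' b b', a ≤ a' → b ≤ b' → op i a b ≤ op i a' b')
    (l r : Fin s → U ⊕ Fin s) (htop : ∀ i k, l i = Sum.inr k ∨ r i = Sum.inr k → k < i)
    (val : I → Fin s → ℝ)
    (hval : ∀ x i, val x i = op i (Sum.elim (ub x) (val x) (l i)) (Sum.elim (ub x) (val x) (r i)))
    (φ : GF ((U ⊕ Fin s) × ℝ)) (out : I → Bool)
    (hout : ∀ x, out x = φ.eval (fun p => decide (p.2 ≤ Sum.elim (ub x) (val x) p.1))) :
    ∃ l' w, FProg inp l' [w] ∧
      l'.length ≤ 3 * s + 6 * φ.leaves + (5 * φ.free + 1) + 1 ∧ w.length ≤ 5 * φ.free + 1 ∧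
      rb out ∈ l' := by
  obtain ⟨L, h1, h2, h3⟩ := circ_fprog ub hub op hmono l r htop val hval
  obtain ⟨l', w, k1, k2, k3, k4⟩ := to_fprog hc
    (fun x (p : (U ⊕ Fin s) × ℝ) => decide (p.2 ≤ Sum.elim (ub x) (val x) p.1)) φ L h1 (by
      rintro ⟨z, θ⟩ l' hl' hsub
      have key : ∀ (l'' : List (I → ℝ)), FProg inp l'' [] → (∀ g ∈ l', g ∈ l'') →
          l''.length ≤ l'.length + 1 → (fun x => Sum.elim (ub x) (val x) z) ∈ l'' →
          ∃ l3, FProg inp l3 [] ∧ l3.length ≤ l'.length + 2 ∧ (∀ g ∈ l', g ∈ l3) ∧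
            rb (fun x => decide (θ ≤ Sum.elim (ub x) (val x) z)) ∈ l3 := by
        intro l'' g1 g2 g3 g4
        refine ⟨_ :: l'', FProg.gate g1 (mono_step θ) g4 g4, by simp only [List.length_cons]; omega,
          fun g hg => List.mem_cons_of_mem _ (g2 g hg), ?_⟩
        have : rb (fun x => decide (θ ≤ Sum.elim (ub x) (val x) z)) =
            fun x => if θ ≤ Sum.elim (ub x) (val x) z then (1 : ℝ) else 0 := by
          funext x
          simp only [rb, decide_eq_true_eq]
        rw [this]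
        exact List.mem_cons_self
      rcases z with u | i
      · exact key (_ :: l') (FProg.input hl' (hub u)) (fun g hg => List.mem_cons_of_mem _ hg)
          (by simp) List.mem_cons_self
      · exact key l' hl' (fun g hg => hg) (by omega) (hsub _ (h3 i)))
  refine ⟨l', w, k1, by omega, k3, ?_⟩
  have : rb out = rb (fun x => φ.eval (fun p => decide (p.2 ≤ Sum.elim (ub x) (val x) p.1))) := by
    funext x
    simp only [rb, hout]
  rw [this]
  exact k4

lemma asymp_aux (α δ : ℝ) (hα : 0 ≤ α) (hδ : 0 < δ) :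
    ∃ N : ℕ, ∀ n : ℕ, N ≤ n → 5 * (n : ℝ) ^ α + 2 ≤ (n : ℝ) ^ (α + δ) := by
  obtain ⟨N1, hN1⟩ := Filter.eventually_atTop.1 (((tendsto_rpow_atTop hδ).comp
    (tendsto_natCast_atTop_atTop (R := ℝ))).eventually_ge_atTop 7)
  refine ⟨max N1 1, fun n hn => ?_⟩
  have h7 := hN1 n ((le_max_left _ _).trans hn)
  simp only [Function.comp] at h7
  have hn1 : (1 : ℝ) ≤ n := by
    have : 1 ≤ n := (le_max_right _ _).trans hn
    exact_mod_cast this
  have h1 : (1 : ℝ) ≤ (n : ℝ) ^ α := Real.one_le_rpow hn1 hα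
  rw [Real.rpow_add (by linarith)]
  nlinarith

lemma asymp_aux2 (β δ ν : ℝ) (hδ : 0 < δ) (hν : 0 < ν) :
    ∃ N : ℕ, ∀ n : ℕ, N ≤ n → 6 * (2 : ℝ) ^ ((n : ℝ) ^ ν) + 2 * (n : ℝ) ^ β + 1 <
      (2 : ℝ) ^ ((n : ℝ) ^ (ν + δ)) := by
  have hlog : (0 : ℝ) < Real.log 2 := Real.log_pos (by norm_num)
  -- n ^ β = o (2 ^ (n ^ ν))
  have ho := (isLittleO_rpow_exp_pos_mul_atTop (β / ν) hlog).bound (show (0 : ℝ) < 1 by norm_num)
  have ht : Filter.Tendsto (fun n : ℕ => (n : ℝ) ^ ν) Filter.atTop Filter.atTop :=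
    (tendsto_rpow_atTop hν).comp (tendsto_natCast_atTop_atTop (R := ℝ))
  have ho' := ht.eventually ho
  obtain ⟨N1, hN1⟩ := Filter.eventually_atTop.1 ho'
  obtain ⟨N2, hN2⟩ := Filter.eventually_atTop.1 (((tendsto_rpow_atTop hδ).comp
      (tendsto_natCast_atTop_atTop (R := ℝ))).eventually_ge_atTop 2)
  obtain ⟨N3, hN3⟩ := Filter.eventually_atTop.1 (ht.eventually_ge_atTop 4)
  refine ⟨max (max N1 N2) (max N3 1), fun n hn => ?_⟩
  have a1 := hN1 n (((le_max_left _ _).trans (le_max_left _ _)).trans hn)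
  have a2 := hN2 n (((le_max_right _ _).trans (le_max_left _ _)).trans hn)
  have a3 := hN3 n (((le_max_left _ _).trans (le_max_right _ _)).trans hn)
  have hn1 : 1 ≤ n := ((le_max_right _ _).trans (le_max_right _ _)).trans hn
  have hn1R : (1 : ℝ) ≤ n := by exact_mod_cast hn1
  have hn0 : (0 : ℝ) < n := by linarith
  simp only [Function.comp] at a2
  set m := (n : ℝ) ^ ν with hm
  have hm0 : 0 < m := by linarith
  have e1 : m ^ (β / ν) = (n : ℝ) ^ β := by
    rw [hm, ← Real.rpow_mul hn0.le]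
    congr 1
    field_simp
  have e2 : Real.exp (Real.log 2 * m) = (2 : ℝ) ^ m := by
    rw [Real.rpow_def_of_pos (by norm_num)]
  rw [e1, e2, Real.norm_of_nonneg (by positivity), Real.norm_of_nonneg (by positivity),
    one_mul] at a1
  have e3 : (16 : ℝ) ≤ (2 : ℝ) ^ m := by
    calc (16 : ℝ) = (2 : ℝ) ^ (4 : ℝ) := by norm_num
      _ ≤ _ := Real.rpow_le_rpow_of_exponent_le (by norm_num) a3
  have e4 : (2 : ℝ) ^ m * (2 : ℝ) ^ m ≤ (2 : ℝ) ^ ((n : ℝ) ^ (ν + δ)) := by
    rw [← Real.rpow_add (by norm_num), Real.rpow_add hn0]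
    apply Real.rpow_le_rpow_of_exponent_le (by norm_num)
    nlinarith
  nlinarith

/-- from circuits with one further gate to formulas on top of monotone real circuits: the size
bound -/
theorem size_transfer (α ν δ : ℝ) (hα : 0 ≤ α) (hν : 0 < ν) (hδ : 0 < δ) :
    ∃ N : ℕ, ∀ n : ℕ, N ≤ n → ∀ (s lv fr L W : ℕ), L ≤ 3 * s + 6 * lv + (5 * fr + 1) + 1 →
      W ≤ 5 * fr + 1 → (fr : ℝ) ≤ (n : ℝ) ^ α →
      ((W : ℝ) + 1 ≤ (n : ℝ) ^ (α + δ)) ∧
      ((2 : ℝ) ^ ((n : ℝ) ^ (ν + δ)) ≤ (L : ℝ) + W →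
        (2 : ℝ) ^ ((n : ℝ) ^ ν) ≤ ((s + lv : ℕ) : ℝ)) := by
  obtain ⟨N1, hN1⟩ := asymp_aux α δ hα hδ
  obtain ⟨N2, hN2⟩ := asymp_aux2 (α + δ) δ ν hδ hν
  refine ⟨max N1 N2, fun n hn s lv fr L W hL hW hfr => ?_⟩
  have b1 := hN1 n ((le_max_left _ _).trans hn)
  have b2 := hN2 n ((le_max_right _ _).trans hn)
  have hW' : (W : ℝ) ≤ 5 * fr + 1 := by exact_mod_cast hW
  have hL' : (L : ℝ) ≤ 3 * s + 6 * lv + (5 * fr + 1) + 1 := by exact_mod_cast hL
  refine ⟨by linarith, fun h => ?_⟩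
  by_contra hlt
  push Not at hlt
  push_cast at hlt
  have : (0 : ℝ) ≤ s := by positivity
  nlinarith

end Pool.Agent.W935.CG
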