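import Pool.Agent.H560R2.Fm3
import Pool.Agent.H560R2.Real4

/-! Formulas with few further gates on top of monotone real circuits: the chain argument
(helper935; from the modules H560R2.Real*, H560R2.Fm* of the starting files). -/

namespace Pool.Agent.W935.HR

open Finset Pool.Agent.H560R2

/-- a Boolean function as a real function -/
noncomputable def rb {X : Type*} (f : X → Bool) : X → ℝ := fun x => if f x = true then 1 else 0

lemma rb_le {X : Type*} (f : X → Bool) (x : X) : (1 : ℝ) ≤ rb f x ↔ f x = true := by
  unfold rb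
  by_cases h : f x = true
  · simp [h]
  · rw [if_neg h]
    exact ⟨fun h' => absurd h' (by norm_num), fun h' => absurd h' h⟩

/-- the bits that tell whether the threshold `θ v` is at most `u v x` -/
noncomputable def tb {X V : Type} (u : V → X → ℝ) (θ : V → ℝ) (x : X) : V → Bool := by
  classical
  exact fun v => decide (θ v ≤ u v x)

lemma mono_step (θ : ℝ) : Monotone (fun a : Fin 1 → ℝ => if θ ≤ a 0 then (1 : ℝ) else 0) := by
  intro a a' h
  by_cases h1 : θ ≤ a 0
  · simp only [if_pos h1, if_pos (h1.trans (h 0)), le_refl]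
  · simp only [if_neg h1]
    split_ifs <;> norm_num

lemma mono_min : Monotone (fun a : Fin 2 → ℝ => min (a 0) (a 1)) :=
  fun _ _ h => min_le_min (h 0) (h 1)

lemma mono_max : Monotone (fun a : Fin 2 → ℝ => max (a 0) (a 1)) :=
  fun _ _ h => max_le_max (h 0) (h 1)

lemma av_mono {X : Type} {B : Set (X → ℝ)} {L : List (X → ℝ)} {f : X → ℝ}
    (h : f ∈ B ∨ f ∈ L) (L' : List (X → ℝ)) : f ∈ B ∨ f ∈ L' ++ L := by
  rcases h with h | h
  · exact Or.inl h
  · exact Or.inr (List.mem_append_right _ h)

/-- monotone Boolean formulas over threshold bits of a real program -/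
lemma ml_rprog {X : Type} {B : Set (X → ℝ)} {V : Type} (u : V → X → ℝ) (θ : V → ℝ)
    {n : ℕ} {f : (V → Bool) → Bool} (h : ML (pbase V) n f) :
    ∀ L : List (X → ℝ), RProg B L → (∀ v, u v ∈ B ∨ u v ∈ L) →
      (∃ c, f = fun _ => c) ∨ ∃ L', RProg B (L' ++ L) ∧ L'.length + 1 ≤ 2 * n ∧
        rb (fun x => f (tb u θ x)) ∈ L' ++ L := by
  classical
  induction h with
  | const c => exact fun _ _ _ => Or.inl ⟨c, rfl⟩
  | @leaf b hb =>
    intro L hL hu
    rcases hb with ⟨c, rfl⟩ | ⟨v, rfl⟩
    · exact Or.inl ⟨c, rfl⟩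
    · refine Or.inr ⟨[fun x => if θ v ≤ u v x then (1 : ℝ) else 0], ?_, by simp, ?_⟩
      · exact RProg.gate 1 (by norm_num) _ (mono_step (θ v)) (fun _ => u v) hL (fun _ => hu v)
      · have : rb (fun x => tb u θ x v) = fun x => if θ v ≤ u v x then (1 : ℝ) else 0 := by
          funext x
          simp only [rb, tb, decide_eq_true_eq]
        rw [this]
        simp
  | @and n m f g _ _ ihf ihg =>
    intro L hL hu
    rcases ihf L hL hu with ⟨c, rfl⟩ | ⟨L1, h1, h2, h3⟩
    · rcases ihg L hL hu with ⟨c', rfl⟩ | ⟨L2, k1, k2, k3⟩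
      · exact Or.inl ⟨c && c', rfl⟩
      · cases c
        · exact Or.inl ⟨false, by simp⟩
        · refine Or.inr ⟨L2, k1, by omega, ?_⟩
          simpa using k3
    · rcases ihg (L1 ++ L) h1 (fun v => av_mono (hu v) L1) with ⟨c', rfl⟩ | ⟨L2, k1, k2, k3⟩
      · cases c'
        · exact Or.inl ⟨false, by simp⟩
        · refine Or.inr ⟨L1, h1, by omega, ?_⟩
          simpa using h3
      · refine Or.inr ⟨(fun x => min (rb (fun x => f (tb u θ x)) x)
          (rb (fun x => g (tb u θ x)) x)) :: (L2 ++ L1), ?_, ?_, ?_⟩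
        · have := RProg.gate (B := B) 2 le_rfl _ mono_min
            (fun j : Fin 2 => if j = 0 then rb (fun x => f (tb u θ x)) else
              rb (fun x => g (tb u θ x))) k1 (fun j => by
              by_cases hj : j = 0
              · rw [if_pos hj]
                exact Or.inr (List.mem_append_right _ h3)
              · rw [if_neg hj]
                exact Or.inr k3)
          simpa using this
        · simp only [List.length_cons, List.length_append]
          omega
        · have : rb (fun x => f (tb u θ x) && g (tb u θ x)) =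
              fun x => min (rb (fun x => f (tb u θ x)) x) (rb (fun x => g (tb u θ x)) x) := by
            funext x
            simp only [rb]
            by_cases h1 : f (tb u θ x) = true <;> by_cases h2 : g (tb u θ x) = true <;>
              simp [h1, h2]
          rw [this]
          simp
  | @or n m f g _ _ ihf ihg =>
    intro L hL hu
    rcases ihf L hL hu with ⟨c, rfl⟩ | ⟨L1, h1, h2, h3⟩
    · rcases ihg L hL hu with ⟨c', rfl⟩ | ⟨L2, k1, k2, k3⟩
      · exact Or.inl ⟨c || c', rfl⟩
      · cases c
        · refine Or.inr ⟨L2, k1, by omega, ?_⟩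
          simpa using k3
        · exact Or.inl ⟨true, by simp⟩
    · rcases ihg (L1 ++ L) h1 (fun v => av_mono (hu v) L1) with ⟨c', rfl⟩ | ⟨L2, k1, k2, k3⟩
      · cases c'
        · refine Or.inr ⟨L1, h1, by omega, ?_⟩
          simpa using h3
        · exact Or.inl ⟨true, by simp⟩
      · refine Or.inr ⟨(fun x => max (rb (fun x => f (tb u θ x)) x)
          (rb (fun x => g (tb u θ x)) x)) :: (L2 ++ L1), ?_, ?_, ?_⟩
        · have := RProg.gate (B := B) 2 le_rfl _ mono_max
            (fun j : Fin 2 => if j = 0 then rb (fun x => f (tb u θ x)) else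
              rb (fun x => g (tb u θ x))) k1 (fun j => by
              by_cases hj : j = 0
              · rw [if_pos hj]
                exact Or.inr (List.mem_append_right _ h3)
              · rw [if_neg hj]
                exact Or.inr k3)
          simpa using this
        · simp only [List.length_cons, List.length_append]
          omega
        · have : rb (fun x => f (tb u θ x) || g (tb u θ x)) =
              fun x => max (rb (fun x => f (tb u θ x)) x) (rb (fun x => g (tb u θ x)) x) := by
            funext x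
            simp only [rb]
            by_cases h1 : f (tb u θ x) = true <;> by_cases h2 : g (tb u θ x) = true <;>
              simp [h1, h2]
          rw [this]
          simp

/-- The chain argument for functions of few monotone functions. -/
theorem det_real {I α κ V : Type} [DecidableEq κ] {m : ℕ} (en : Fin m → κ)
    (hen : Function.Injective en) (f : Set α → Prop) (hf0 : ¬ f ∅)
    (E : (κ → Set α) → I → Bool) (hmono : ∀ y y', (∀ j, y j ⊆ y' j) → E y ≤ E y')
    (u : V → (I → Bool) → ℝ) (θ : V → ℝ) (L0 : List ((I → Bool) → ℝ)) (hL0 : RProg (RB I) L0)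
    (hu : ∀ v, u v ∈ RB I ∨ u v ∈ L0)
    (P : List (ℕ × ((V → Bool) → Bool))) (hP : ∀ p ∈ P, ML (pbase V) p.1 p.2)
    (F : (V → Bool) → Bool) (hdet : ∀ x x', (∀ p ∈ P, p.2 x = p.2 x') → F x = F x')
    (hC : ∀ y, F (tb u θ (E y)) = true ↔ ∃ j, f (y j))
    (hlow : ∀ (y : κ → Set α) (J : κ) (L : List (Set α → ℝ)) (g : Set α → ℝ),
      RProg {h | ∃ b ∈ RB I, h = fun X => b (E (Function.update y J X))} L →
      (g ∈ {h : Set α → ℝ | ∃ b ∈ RB I, h = fun X => b (E (Function.update y J X))} ∨ g ∈ L) →
      L.length ≤ L0.length + 2 * (P.map Prod.fst).sum → ¬ ∀ X, 1 ≤ g X ↔ f X) :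
    m ≤ P.length := by
  classical
  have hval : ∀ y, F (tb u θ (E y)) = true ↔ ∃ j, f (y j) := hC
  have hupd : ∀ (Y : κ → Set α) (J : κ) (X : Set α), Y J = ∅ →
      E Y ≤ E (Function.update Y J X) := by
    intro Y J X hJ
    refine hmono _ _ fun j => ?_
    by_cases hj : j = J
    · rw [hj, hJ]
      exact Set.empty_subset _
    · rw [Function.update_of_ne hj]
  have htb : ∀ x x' : I → Bool, x ≤ x' → tb u θ x ≤ tb u θ x' := by
    intro x x' hx v
    have := RProg.mono_of RB_mono hL0 (u v) (hu v) hx
    show tb u θ x v ≤ tb u θ x' v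
    unfold tb
    by_cases h : θ v ≤ u v x
    · rw [decide_eq_true h, decide_eq_true (h.trans this)]
    · rw [decide_eq_false h]
      exact Bool.false_le _
  have hPm : ∀ p ∈ P, ∀ x x' : I → Bool, x ≤ x' → p.2 (tb u θ x) ≤ p.2 (tb u θ x') :=
    fun p hp x x' hx => (hP p hp).le_of_le _ _ (htb x x' hx)
  let pr : (κ → Set α) → List Bool := fun Y => P.map (fun p => p.2 (tb u θ (E Y)))
  have hpr : ∀ Y Y', pr Y = pr Y' ↔ ∀ p ∈ P, p.2 (tb u θ (E Y)) = p.2 (tb u θ (E Y')) := by
    intro Y Y'
    exact List.map_inj_left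
  obtain ⟨Y, k1, k2, k3⟩ := chain_core (κ := κ) (m := m) (fun X => ¬ f X) ∅ hf0 en hen pr (by
      intro y J hy hyJ
      by_contra hcon
      push Not at hcon
      let S := P.filter (fun p => !(p.2 (tb u θ (E y))))
      have hg := ML_any (B := pbase V) S (fun p hp => hP p (List.mem_of_mem_filter hp))
      have hsum : (S.map Prod.fst).sum ≤ (P.map Prod.fst).sum := sum_filter_le P _
      have hy0 : F (tb u θ (E y)) = false := by
        rw [← Bool.not_eq_true, hval]
        rintro ⟨J', hJ'⟩
        exact hy J' hJ'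
      have hiff : ∀ X, S.any (fun p => p.2 (tb u θ (E (Function.update y J X)))) = true ↔
          f X := by
        intro X
        constructor
        · intro hX
          by_contra hneg
          obtain ⟨p, hp, hpX⟩ := List.any_eq_true.mp hX
          obtain ⟨hp1, hp2⟩ := List.mem_filter.mp hp
          have := (hpr _ _).mp (hcon X hneg) p hp1
          rw [this] at hpX
          rw [hpX] at hp2
          exact absurd hp2 (by simp)
        · intro hX
          have hv : F (tb u θ (E (Function.update y J X))) = true :=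
            (hval _).mpr ⟨J, by rwa [Function.update_self]⟩
          have hne : ¬ ∀ p ∈ P, p.2 (tb u θ (E (Function.update y J X))) =
              p.2 (tb u θ (E y)) := by
            intro hall
            have := hdet _ _ hall
            rw [hv, hy0] at this
            exact absurd this (by simp)
          push Not at hne
          obtain ⟨p, hp, hpne⟩ := hne
          have hmono := hPm p hp _ _ (hupd y J X hyJ)
          have e1 : p.2 (tb u θ (E y)) = false := by
            by_contra hc
            rw [Bool.not_eq_false] at hc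
            rw [hc] at hmono hpne
            exact hpne (top_le_iff.mp hmono)
          have e2 : p.2 (tb u θ (E (Function.update y J X))) = true := by
            rw [e1] at hpne
            simpa using hpne
          rw [List.any_eq_true]
          exact ⟨p, List.mem_filter.mpr ⟨hp, by simp [e1]⟩, e2⟩
      have hG : ∃ (L : List ((I → Bool) → ℝ)) (G : (I → Bool) → ℝ), RProg (RB I) L ∧
          L.length ≤ L0.length + 2 * (P.map Prod.fst).sum ∧ (G ∈ RB I ∨ G ∈ L) ∧
          ∀ x, 1 ≤ G x ↔ S.any (fun p => p.2 (tb u θ x)) = true := by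
        rcases ml_rprog u θ hg L0 hL0 hu with ⟨c, hc'⟩ | ⟨L', m1, m2, m3⟩
        · refine ⟨[], fun _ => if c = true then 1 else 0, RProg.nil, by simp,
            Or.inl (Or.inl ⟨_, rfl⟩), fun x => ?_⟩
          have : S.any (fun p => p.2 (tb u θ x)) = c := congrFun hc' (tb u θ x)
          rw [this]
          cases c
          · simp
          · simp
        · refine ⟨L' ++ L0, _, m1, ?_, Or.inr m3, fun x => rb_le _ x⟩
          rw [List.length_append]
          omega
      obtain ⟨L, G, hL, hlen, hG1, hG2⟩ := hG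
      refine hlow y J _ (fun X => G (E (Function.update y J X)))
        (hL.comp (B' := {h | ∃ b ∈ RB I, h = fun X => b (E (Function.update y J X))})
          (fun X => E (Function.update y J X)) (fun b hb => ⟨b, hb, rfl⟩)) ?_ ?_ ?_
      · rcases hG1 with h | h
        · exact Or.inl ⟨G, h, rfl⟩
        · exact Or.inr (List.mem_map.mpr ⟨G, h, rfl⟩)
      · rw [List.length_map]
        exact hlen
      · intro X
        rw [hG2, hiff])
  -- count
  let c : ℕ → ℕ := fun i => P.countP (fun p => p.2 (tb u θ (E (Y i))))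
  have hstep : ∀ i < m, c i + 1 ≤ c (i + 1) := by
    intro i hi
    obtain ⟨J, X, hJ, hX⟩ := k1 i hi
    have hmono : ∀ p ∈ P, p.2 (tb u θ (E (Y i))) = true →
        p.2 (tb u θ (E (Y (i + 1)))) = true := by
      intro p hp hpt
      have := hPm p hp _ _ (hupd (Y i) J X hJ)
      rw [← hX, hpt] at this
      exact top_le_iff.mp this
    have hne := k2 i hi
    rw [Ne, hpr] at hne
    push Not at hne
    obtain ⟨p, hp, hpne⟩ := hne
    exact countP_lt P _ _ hmono ⟨p, hp, hpne⟩
  have hM' : ∀ i ≤ m, i ≤ c i := by
    intro i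
    induction i with
    | zero => intro _; exact Nat.zero_le _
    | succ i ih =>
      intro hi
      have := ih (by omega)
      have := hstep i (by omega)
      omega
  have h5 := hM' m le_rfl
  have h6 : c m ≤ P.length := List.countP_le_length
  omega

/-- a monotone real circuit as a program -/
lemma circ_rprog {I : Type} {s : ℕ} (op : Fin s → ℝ → ℝ → ℝ)
    (hmono : ∀ i a a' b b', a ≤ a' → b ≤ b' → op i a b ≤ op i a' b')
    (l r : Fin s → I ⊕ Fin s) (htop : ∀ i k, l i = Sum.inr k ∨ r i = Sum.inr k → k < i)
    (val : (I → Bool) → Fin s → ℝ)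
    (hval : ∀ x i, val x i = op i (Sum.elim (bit x) (val x) (l i))
      (Sum.elim (bit x) (val x) (r i))) :
    ∃ L : List ((I → Bool) → ℝ), RProg (RB I) L ∧ L.length ≤ s ∧ ∀ i, (fun x => val x i) ∈ L := by
  have key : ∀ k ≤ s, ∃ L : List ((I → Bool) → ℝ), RProg (RB I) L ∧ L.length ≤ k ∧
      ∀ i : Fin s, i.val < k → (fun x => val x i) ∈ L := by
    intro k
    induction k with
    | zero => exact fun _ => ⟨[], RProg.nil, le_rfl, fun i hi => absurd hi (by omega)⟩
    | succ k ih =>
      intro hk
      obtain ⟨L, h1, h2, h3⟩ := ih (by omega)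
      let i0 : Fin s := ⟨k, hk⟩
      have hav : ∀ (z : I ⊕ Fin s), (∀ j, z = Sum.inr j → j < i0) →
          (fun x => Sum.elim (bit x) (val x) z) ∈ RB I ∨
          (fun x => Sum.elim (bit x) (val x) z) ∈ L := by
        rintro (v | j) hz
        · exact Or.inl (Or.inr ⟨v, rfl⟩)
        · exact Or.inr (h3 j (hz j rfl))
      have a1 := hav (l i0) (fun j hj => htop i0 j (Or.inl hj))
      have a2 := hav (r i0) (fun j hj => htop i0 j (Or.inr hj))
      refine ⟨_ :: L, RProg.gate 2 le_rfl (fun a : Fin 2 → ℝ => op i0 (a 0) (a 1))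
        (fun a a' h => hmono i0 _ _ _ _ (h 0) (h 1))
        (fun j : Fin 2 => if j = 0 then (fun x => Sum.elim (bit x) (val x) (l i0)) else
          (fun x => Sum.elim (bit x) (val x) (r i0))) h1 (fun j => by
            by_cases hj : j = 0
            · rw [if_pos hj]; exact a1
            · rw [if_neg hj]; exact a2), by simp only [List.length_cons]; omega, ?_⟩
      intro i hi
      rcases Nat.lt_or_ge i.val k with hik | hik
      · exact List.mem_cons_of_mem _ (h3 i hik)
      · have : i = i0 := Fin.ext (by show i.val = k; omega)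
        subst this
        have e : (fun x => val x i0) = fun x =>
            op i0 (Sum.elim (bit x) (val x) (l i0)) (Sum.elim (bit x) (val x) (r i0)) := by
          funext x
          exact hval x i0
        rw [e]
        simp
  obtain ⟨L, h1, h2, h3⟩ := key s le_rfl
  exact ⟨L, h1, h2, fun i => h3 i i.isLt⟩

/-- The chain argument for formulas on top of monotone real circuits. -/
theorem hybrid_real {I α κ : Type} [DecidableEq κ] {m : ℕ} (en : Fin m → κ)
    (hen : Function.Injective en) (f : Set α → Prop) (hf0 : ¬ f ∅)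
    (E : (κ → Set α) → I → Bool) (hmono : ∀ y y', (∀ j, y j ⊆ y' j) → E y ≤ E y')
    {s : ℕ} (op : Fin s → ℝ → ℝ → ℝ)
    (hop : ∀ i a a' b b', a ≤ a' → b ≤ b' → op i a b ≤ op i a' b')
    (l r : Fin s → I ⊕ Fin s) (htop : ∀ i k, l i = Sum.inr k ∨ r i = Sum.inr k → k < i)
    (val : (I → Bool) → Fin s → ℝ)
    (hval : ∀ x i, val x i = op i (Sum.elim (bit x) (val x) (l i))
      (Sum.elim (bit x) (val x) (r i)))
    (φ : GF ((I ⊕ Fin s) × ℝ)) (out : (I → Bool) → Bool)
    (hout : ∀ x, out x = φ.eval (tb (fun v x => Sum.elim (bit x) (val x) v.1) Prod.snd x))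
    (hC : ∀ y, out (E y) = true ↔ ∃ j, f (y j))
    (hlow : ∀ (y : κ → Set α) (J : κ) (L : List (Set α → ℝ)) (g : Set α → ℝ),
      RProg {h | ∃ b ∈ RB I, h = fun X => b (E (Function.update y J X))} L →
      (g ∈ {h : Set α → ℝ | ∃ b ∈ RB I, h = fun X => b (E (Function.update y J X))} ∨ g ∈ L) →
      L.length ≤ s + 4 * φ.leaves → ¬ ∀ X, 1 ≤ g X ↔ f X) :
    m ≤ 5 * φ.free + 1 := by
  obtain ⟨L0, h1, h2, h3⟩ := circ_rprog op hop l r htop val hval
  obtain ⟨P, p1, p2, p3, p4⟩ := φ.good
  refine (det_real en hen f hf0 E hmono (fun v x => Sum.elim (bit x) (val x) v.1) Prod.snd L0 h1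
    ?_ P p1 φ.eval p4 (fun y => by rw [← hout]; exact hC y) ?_).trans p2
  · rintro ⟨z | i, θ⟩
    · exact Or.inl (Or.inr ⟨z, rfl⟩)
    · exact Or.inr (h3 i)
  · intro y J L g hL hg hlen
    exact hlow y J L g hL hg (by omega)

end Pool.Agent.W935.HR
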