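import Pool.Agent.W935.HR1
import Pool.Agent.H560R2.Real5
import Pool.Agent.H630VC.Final2

/-! Formulas on top of monotone real circuits for the half-clique language (helper935). -/

namespace Pool.Agent.W935.HR

open Finset Pool.Agent.H560R2 Pool.Agent.H520R2.HC Filter

theorem half_hybrid {N s : ℕ} (d : ℕ) (hd : 2 ≤ d)
    (hN : 2 ^ 64 * (Nat.log 2 d + 1) ^ 8 * d ^ 16 ≤ N)
    (op : Fin s → ℝ → ℝ → ℝ)
    (hop : ∀ i a a' b b', a ≤ a' → b ≤ b' → op i a b ≤ op i a' b')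
    (l r : Fin s → Fin N ⊕ Fin s) (htop : ∀ i k, l i = Sum.inr k ∨ r i = Sum.inr k → k < i)
    (val : (Fin N → Bool) → Fin s → ℝ)
    (hval : ∀ x i, val x i = op i (Sum.elim (bit x) (val x) (l i))
      (Sum.elim (bit x) (val x) (r i)))
    (φ : GF ((Fin N ⊕ Fin s) × ℝ)) (out : (Fin N → Bool) → Bool)
    (hout : ∀ x, out x = φ.eval (tb (fun v x => Sum.elim (bit x) (val x) v.1) Prod.snd x))
    (ho : ∀ x, out x = true ↔ List.ofFn x ∈ HalfClique)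
    (hsize : s + 4 * φ.leaves < 2 ^ d) :
    N / (2 ^ 23 * (Nat.log 2 d + 1) ^ 2 * d ^ 4) ≤ 5 * φ.free + 1 := by
  classical
  obtain ⟨lam, h0, h1, h2⟩ := exists_lam3 d (by omega)
  obtain ⟨F, _, _, _, hq⟩ := exists_field lam h0
  set q := 2 ^ lam with hqd
  set u := Nat.log 2 d + 1 with hu
  have hdq : d ≤ q := by
    refine le_trans ?_ h1
    calc d = 1 * d * 1 := by ring
      _ ≤ 2 * d * (d * lam + 1) :=
        Nat.mul_le_mul (Nat.mul_le_mul_right _ (by norm_num)) (Nat.le_add_left 1 _)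
  obtain ⟨m, E, hm, hmpos, hmono, hR, hnar⟩ := half_embed (F := F) N d q
    (2 ^ 23 * u ^ 2 * d ^ 4) (by omega) hq hdq (by
      rw [Nat.le_sqrt]
      calc 16 * q ^ 4 * (16 * q ^ 4) ≤ (16 * (128 * u * d ^ 2) ^ 4) *
            (16 * (128 * u * d ^ 2) ^ 4) :=
            Nat.mul_le_mul (Nat.mul_le_mul_left _ (Nat.pow_le_pow_left h2 4))
              (Nat.mul_le_mul_left _ (Nat.pow_le_pow_left h2 4))
        _ = 2 ^ 64 * u ^ 8 * d ^ 16 := by ring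
        _ ≤ N := hN) (by
      calc 512 * q ^ 2 ≤ 512 * (128 * u * d ^ 2) ^ 2 :=
            Nat.mul_le_mul_left _ (Nat.pow_le_pow_left h2 2)
        _ = _ := by ring)
  have hf0 : ¬ fPoly (F := F) d ∅ := by
    rintro ⟨c, hc⟩
    exact hc 0
  refine hm.trans (hybrid_real (κ := Fin m) id (fun _ _ h => h) (fPoly (F := F) d) hf0 E hmono
    op hop l r htop val hval φ out hout (fun y => (ho (E y)).trans (hR y)) ?_)
  intro y J L g hL hg hlen hgf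
  have := poly_lowerR (F := F) d lam hd (by rw [hq]) (by rw [hq]; exact h1) _ (by
    rintro _ ⟨b, hb, rfl⟩
    rcases hb with ⟨c, rfl⟩ | ⟨p, rfl⟩
    · exact ⟨∅, by simp, fun x x' _ => le_rfl⟩
    · obtain ⟨T', hT1, hT2⟩ := hnar y J p
      refine ⟨T', by omega, fun x x' h => ?_⟩
      show bit (E (Function.update y J x)) p ≤ bit (E (Function.update y J x')) p
      unfold bit
      by_cases hx : E (Function.update y J x) p = true
      · rw [if_pos hx, if_pos (hT2 x x' h hx)]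
      · rw [if_neg hx]
        split_ifs <;> norm_num) hL g hg 1 hgf
  omega

lemma params1 (k : ℕ) (α : ℝ) (hα : 0 ≤ α) (hα1 : α < 1) :
    ∃ N0 : ℕ, ∀ n : ℕ, N0 ≤ n → ∃ d : ℕ, 2 ≤ d ∧ 4 * n ^ k < 2 ^ d ∧
      2 ^ 64 * (Nat.log 2 d + 1) ^ 8 * d ^ 16 ≤ n ∧
      5 * (n : ℝ) ^ α + 1 ≤ ((n / (2 ^ 23 * (Nat.log 2 d + 1) ^ 2 * d ^ 4) : ℕ) : ℝ) := by
  obtain ⟨δ, hδd⟩ : ∃ δ, δ = (1 - α) / 2 := ⟨_, rfl⟩
  have hδ : 0 < δ := by rw [hδd]; linarith
  have hδ1 : δ ≤ 1 / 2 := by rw [hδd]; linarith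
  obtain ⟨N1, hN1⟩ := H630VC.eventually_log ((2 : ℝ) ^ 6 * (k + 2) ^ 2) (δ / 12) (by positivity)
  obtain ⟨N2, hN2⟩ := Filter.eventually_atTop.1 (((tendsto_rpow_atTop hδ).comp
      (tendsto_natCast_atTop_atTop (R := ℝ))).eventually_ge_atTop 7)
  refine ⟨max (max N1 N2) 2, fun n hn => ?_⟩
  have a1 := hN1 n (((le_max_left _ _).trans (le_max_left _ _)).trans hn)
  have a2 := hN2 n (((le_max_right _ _).trans (le_max_left _ _)).trans hn)
  have hn2 : 2 ≤ n := (le_max_right _ _).trans hn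
  simp only [Function.comp] at a2
  have hn1R : (1 : ℝ) ≤ n := by
    have : 1 ≤ n := by omega
    exact_mod_cast this
  have hn0 : (0 : ℝ) < n := by linarith
  obtain ⟨L, hL⟩ : ∃ L, L = Nat.log 2 n + 1 := ⟨_, rfl⟩
  have hL1 : 2 ≤ L := by
    have : 0 < Nat.log 2 n := Nat.log_pos (by norm_num) hn2
    omega
  obtain ⟨d, hd⟩ : ∃ d, d = (k + 2) * L := ⟨_, rfl⟩
  have hd2 : 2 ≤ d := by
    rw [hd]
    calc 2 = 1 * 2 := by norm_num
      _ ≤ (k + 2) * L := Nat.mul_le_mul (by omega) hL1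
  have hlogd : Nat.log 2 d + 1 ≤ 2 * d := by
    have := Nat.log_lt_self 2 (show d ≠ 0 by omega)
    omega
  have hD : ((2 ^ 64 * (Nat.log 2 d + 1) ^ 8 * d ^ 16 : ℕ) : ℝ) ≤ (n : ℝ) ^ δ := by
    have e1 : 2 ^ 64 * (Nat.log 2 d + 1) ^ 8 * d ^ 16 ≤ 2 ^ 64 * (2 * d) ^ 8 * d ^ 16 :=
      Nat.mul_le_mul_right _ (Nat.mul_le_mul_left _ (Nat.pow_le_pow_left hlogd 8))
    have e2 : ((2 ^ 64 * (2 * d) ^ 8 * d ^ 16 : ℕ) : ℝ) =
        ((2 : ℝ) ^ 6 * (k + 2) ^ 2 * ((Nat.log 2 n : ℝ) + 1) ^ 2) ^ 12 := by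
      rw [hd, hL]
      push_cast
      generalize ((k : ℝ) + 2) = x
      generalize ((Nat.log 2 n : ℝ) + 1) = y
      ring
    calc ((2 ^ 64 * (Nat.log 2 d + 1) ^ 8 * d ^ 16 : ℕ) : ℝ)
        ≤ ((2 ^ 64 * (2 * d) ^ 8 * d ^ 16 : ℕ) : ℝ) := by exact_mod_cast e1
      _ = _ := e2
      _ ≤ ((n : ℝ) ^ (δ / 12)) ^ 12 := by
        apply pow_le_pow_left₀ (by positivity) a1
      _ = (n : ℝ) ^ δ := by
        rw [← Real.rpow_natCast, ← Real.rpow_mul hn0.le]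
        congr 1
        push_cast
        ring
  obtain ⟨D, hDd⟩ : ∃ D, D = 2 ^ 64 * (Nat.log 2 d + 1) ^ 8 * d ^ 16 := ⟨_, rfl⟩
  rw [← hDd] at hD
  obtain ⟨W, hW⟩ : ∃ W, W = 2 ^ 23 * (Nat.log 2 d + 1) ^ 2 * d ^ 4 := ⟨_, rfl⟩
  have hW1 : 1 ≤ W := by
    rw [hW]
    exact Nat.mul_pos (Nat.mul_pos (by norm_num) (Nat.pow_pos (by omega))) (Nat.pow_pos (by omega))
  have hWD : W ≤ D := by
    rw [hW, hDd]
    have e1 : (Nat.log 2 d + 1) ^ 2 ≤ (Nat.log 2 d + 1) ^ 8 :=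
      Nat.pow_le_pow_right (by omega) (by norm_num)
    have e2 : d ^ 4 ≤ d ^ 16 := Nat.pow_le_pow_right (by omega) (by norm_num)
    exact Nat.mul_le_mul (Nat.mul_le_mul (by norm_num) e1) e2
  have hWn : (W : ℝ) ≤ (n : ℝ) ^ δ := le_trans (by exact_mod_cast hWD) hD
  refine ⟨d, hd2, ?_, ?_, ?_⟩
  rotate_left
  · rw [← hDd]
    have : (D : ℝ) ≤ (n : ℝ) := by
      refine hD.trans ?_
      calc (n : ℝ) ^ δ ≤ (n : ℝ) ^ (1 : ℝ) :=
            Real.rpow_le_rpow_of_exponent_le hn1R (by linarith)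
        _ = n := Real.rpow_one _
    exact_mod_cast this
  rotate_left
  · have e1 : n < 2 ^ L := by
      rw [hL]
      exact Nat.lt_pow_succ_log_self (by norm_num) n
    have e2 : n ^ k ≤ (2 ^ L) ^ k := Nat.pow_le_pow_left e1.le k
    have e3 : (2 ^ L) ^ k * 4 < 2 ^ d := by
      have f2 : (2 ^ L) ^ k * 4 = 2 ^ (L * k + 2) := by
        rw [pow_add, pow_mul]; norm_num
      rw [f2]
      apply Nat.pow_lt_pow_right (by norm_num)
      rw [hd]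
      nlinarith
    omega
  · rw [← hW]
    have q2 : (n : ℝ) < W * ((n / W : ℕ) + 1) := by
      have := Nat.lt_mul_div_succ n (show 0 < W by omega)
      exact_mod_cast this
    have hWpos : (0 : ℝ) < W := by exact_mod_cast hW1
    have hnδ : 0 < (n : ℝ) ^ δ := by positivity
    have hsplit : (n : ℝ) ^ (α + δ) * (n : ℝ) ^ δ = n := by
      rw [← Real.rpow_add hn0, hδd]
      have : α + (1 - α) / 2 + (1 - α) / 2 = 1 := by ring
      rw [this, Real.rpow_one]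
    have q3 : (n : ℝ) ^ (α + δ) < ((n / W : ℕ) : ℝ) + 1 := by
      by_contra hcon
      push Not at hcon
      have h5 : (W : ℝ) * (((n / W : ℕ) : ℝ) + 1) ≤ (n : ℝ) ^ δ * (n : ℝ) ^ (α + δ) := by
        apply mul_le_mul hWn hcon (by positivity) (by positivity)
      rw [mul_comm ((n : ℝ) ^ δ), hsplit] at h5
      linarith
    have q4 : (n : ℝ) ^ (α + δ) = (n : ℝ) ^ α * (n : ℝ) ^ δ := Real.rpow_add hn0 _ _
    have q7 : (1 : ℝ) ≤ (n : ℝ) ^ α := Real.one_le_rpow hn1R hα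
    nlinarith

end Pool.Agent.W935.HR
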