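import Pool.Agent.H560R2.Av2

/-! Domination: small monotone programs accept random graphs of polynomials at most as often as
random rejected sets, up to an exponentially small error (helper935; from H560R2.Spread*, Av*). -/

namespace Pool.Agent.W935.LC

open Finset Pool.Agent.H560R2 Pool.Agent.H520R2

/-- Counting positives that contain a minterm with size in `[t0, m]`. -/
lemma count_pos_ge {ι Pt : Type*} [Fintype ι] [DecidableEq ι] [Fintype Pt] (gr : Pt → Finset ι)
    (r m t0 : ℕ) (ht0 : 1 ≤ t0) (hr : 0 < r)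
    (hind : ∀ Y : Finset ι, Y.card ≤ m →
      {p : Pt | Y ⊆ gr p}.ncard * (12 * r) ^ Y.card ≤ Fintype.card Pt)
    (g : Finset ι → Prop) (hthin : ∀ l, l ≤ m → (Mint g l).card ≤ r ^ l) (E : Set Pt)
    (hE : ∀ p ∈ E, ∃ Y, Y ⊆ gr p ∧ Y ∈ Mint g Y.card ∧ t0 ≤ Y.card ∧ Y.card ≤ m) :
    (E.ncard : ℚ) * 3 ^ t0 ≤ Fintype.card Pt * (1 / 3) := by
  classical
  rcases Nat.lt_or_ge m t0 with hmt | hmt
  · have : E = ∅ := by
      ext p
      constructor
      · intro hp
        obtain ⟨Y, -, -, h3, h4⟩ := hE p hp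
        omega
      · intro h; exact absurd h (Set.notMem_empty p)
    rw [this, Set.ncard_empty]
    simp
  have hsub : E ⊆ ⋃ l ∈ Finset.Ioc (t0 - 1) m, ⋃ Y ∈ Mint g l, {p : Pt | Y ⊆ gr p} := by
    intro p hp
    obtain ⟨Y, h1, h2, h3, h4⟩ := hE p hp
    simp only [Set.mem_iUnion]
    exact ⟨Y.card, Finset.mem_Ioc.mpr ⟨by omega, h4⟩, Y, h2, h1⟩
  have h1 : E.ncard ≤ ∑ l ∈ Finset.Ioc (t0 - 1) m, ∑ Y ∈ Mint g l, {p : Pt | Y ⊆ gr p}.ncard := by
    refine (Set.ncard_le_ncard hsub (Set.toFinite _)).trans ?_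
    refine (Finset.set_ncard_biUnion_le _ _).trans ?_
    apply Finset.sum_le_sum
    intro l _
    exact Finset.set_ncard_biUnion_le _ _
  have h2 : ∀ l ∈ Finset.Ioc (t0 - 1) m,
      ((∑ Y ∈ Mint g l, {p : Pt | Y ⊆ gr p}.ncard : ℕ) : ℚ) * 3 ^ t0 ≤
      Fintype.card Pt * (1 / 4 : ℚ) ^ l := by
    intro l hl
    obtain ⟨hl1, hl2⟩ := Finset.mem_Ioc.mp hl
    have h3 : (∑ Y ∈ Mint g l, {p : Pt | Y ⊆ gr p}.ncard) * (12 * r) ^ l ≤
        r ^ l * Fintype.card Pt := by
      rw [Finset.sum_mul]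
      calc _ ≤ ∑ Y ∈ Mint g l, Fintype.card Pt := by
            apply Finset.sum_le_sum
            intro Y hY
            have hYl := ((mem_Mint g l Y).mp hY).1
            have := hind Y (by omega)
            rw [hYl] at this
            exact this
        _ = (Mint g l).card * Fintype.card Pt := by simp
        _ ≤ _ := Nat.mul_le_mul_right _ (hthin l hl2)
    have h4 : ((∑ Y ∈ Mint g l, {p : Pt | Y ⊆ gr p}.ncard : ℕ) : ℚ) * ((12 : ℚ) * r) ^ l ≤
        (r : ℚ) ^ l * Fintype.card Pt := by exact_mod_cast h3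
    have hr0 : (0 : ℚ) < (r : ℚ) ^ l := by positivity
    have h5 : (0 : ℚ) < (4 : ℚ) ^ l := by positivity
    rw [mul_pow] at h4
    have h12 : (12 : ℚ) ^ l = 3 ^ l * 4 ^ l := by rw [← mul_pow]; norm_num
    have h6 : ((∑ Y ∈ Mint g l, {p : Pt | Y ⊆ gr p}.ncard : ℕ) : ℚ) * 3 ^ l * (4 : ℚ) ^ l ≤
        Fintype.card Pt := by
      refine le_of_mul_le_mul_right ?_ hr0
      calc _ = ((∑ Y ∈ Mint g l, {p : Pt | Y ⊆ gr p}.ncard : ℕ) : ℚ) *
            (12 ^ l * (r : ℚ) ^ l) := by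
            rw [h12]; ring
        _ ≤ _ := h4
        _ = _ := by ring
    have h7 : (3 : ℚ) ^ t0 ≤ 3 ^ l := pow_le_pow_right₀ (by norm_num) (by omega)
    refine le_of_mul_le_mul_right ?_ h5
    calc _ ≤ ((∑ Y ∈ Mint g l, {p : Pt | Y ⊆ gr p}.ncard : ℕ) : ℚ) * 3 ^ l * (4 : ℚ) ^ l := by
          apply mul_le_mul_of_nonneg_right _ h5.le
          exact mul_le_mul_of_nonneg_left h7 (Nat.cast_nonneg _)
      _ ≤ _ := h6
      _ = (Fintype.card Pt : ℚ) * ((1 / 4) ^ l * 4 ^ l) := by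
          rw [← mul_pow]; norm_num
      _ = _ := by ring
  have hk0 : (0 : ℚ) ≤ 3 ^ t0 := by positivity
  calc (E.ncard : ℚ) * 3 ^ t0 ≤
        ((∑ l ∈ Finset.Ioc (t0 - 1) m, ∑ Y ∈ Mint g l, {p : Pt | Y ⊆ gr p}.ncard : ℕ) : ℚ) *
          3 ^ t0 := by
        apply mul_le_mul_of_nonneg_right _ hk0
        exact_mod_cast h1
    _ = ∑ l ∈ Finset.Ioc (t0 - 1) m,
          ((∑ Y ∈ Mint g l, {p : Pt | Y ⊆ gr p}.ncard : ℕ) : ℚ) * 3 ^ t0 := by
        rw [Nat.cast_sum, Finset.sum_mul]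
    _ ≤ ∑ l ∈ Finset.Ioc (t0 - 1) m, (Fintype.card Pt : ℚ) * (1 / 4 : ℚ) ^ l :=
        Finset.sum_le_sum h2
    _ = (Fintype.card Pt : ℚ) * (1 / 3 * ((1 / 4) ^ (t0 - 1) - (1 / 4) ^ m)) := by
        rw [← Finset.mul_sum, geom_bound (t0 - 1) m (by omega)]
    _ ≤ _ := by
        apply mul_le_mul_of_nonneg_left _ (Nat.cast_nonneg _)
        have h8 : (0 : ℚ) ≤ (1 / 4) ^ m := by positivity
        have h9 : (1 / 4 : ℚ) ^ (t0 - 1) ≤ 1 := pow_le_one₀ (by norm_num) (by norm_num)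
        linarith

lemma pow_third (Q L : ℕ) (hL : 0 < L) (hQ : Q ≤ 2 * L) (hQ0 : 0 < Q) :
    3 * (Q - 1) ^ L ≤ 2 * Q ^ L := by
  rcases Nat.lt_or_ge Q 2 with h | h
  · have : Q = 1 := by omega
    subst this
    simp [Nat.pos_iff_ne_zero.mp hL]
  · have hR : (0 : ℚ) < ((Q - 1 : ℕ) : ℚ) := by
      have : 0 < Q - 1 := by omega
      exact_mod_cast this
    have h1 : (1 : ℚ) + L * (1 / ((Q - 1 : ℕ) : ℚ)) ≤ (1 + 1 / ((Q - 1 : ℕ) : ℚ)) ^ L := by
      apply one_add_mul_le_pow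
      have : (0 : ℚ) < 1 / ((Q - 1 : ℕ) : ℚ) := by positivity
      linarith
    have h2 : (1 / 2 : ℚ) ≤ L * (1 / ((Q - 1 : ℕ) : ℚ)) := by
      rw [mul_one_div, div_le_div_iff₀ (by norm_num) hR]
      have : ((Q - 1 : ℕ) : ℚ) ≤ ((2 * L : ℕ) : ℚ) := by
        have : Q - 1 ≤ 2 * L := by omega
        exact_mod_cast this
      push_cast at this
      linarith
    have h3 : (3 / 2 : ℚ) ≤ (1 + 1 / ((Q - 1 : ℕ) : ℚ)) ^ L := by linarith
    have h4 : (Q : ℚ) = ((Q - 1 : ℕ) : ℚ) * (1 + 1 / ((Q - 1 : ℕ) : ℚ)) := by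
      have : (Q : ℚ) = ((Q - 1 : ℕ) : ℚ) + 1 := by
        have : Q = (Q - 1) + 1 := by omega
        exact_mod_cast this
      rw [mul_add, mul_one_div, div_self hR.ne', mul_one]
      exact this
    have h5 : (3 : ℚ) * ((Q - 1 : ℕ) : ℚ) ^ L ≤ 2 * (Q : ℚ) ^ L := by
      have h6 : (0 : ℚ) < ((Q - 1 : ℕ) : ℚ) ^ L := by positivity
      calc (3 : ℚ) * ((Q - 1 : ℕ) : ℚ) ^ L = 2 * (((Q - 1 : ℕ) : ℚ) ^ L * (3 / 2)) := by ring
        _ ≤ 2 * (((Q - 1 : ℕ) : ℚ) ^ L * (1 + 1 / ((Q - 1 : ℕ) : ℚ)) ^ L) := by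
            apply mul_le_mul_of_nonneg_left _ (by norm_num)
            exact mul_le_mul_of_nonneg_left h3 h6.le
        _ = 2 * (Q : ℚ) ^ L := by rw [← mul_pow, ← h4]
    exact_mod_cast h5

/-- the random set contains a given set `S` with probability at least `3 ^ (- |S|)` -/
lemma contains_lower {ι : Type*} [Fintype ι] [DecidableEq ι] {Q : ℕ} [NeZero Q] (B J : ℕ)
    (hL : 0 < B * J) (hQ : Q ≤ 2 * (B * J)) (S : Finset ι) :
    ((Q ^ Fintype.card ι) ^ J) ^ B ≤
      {ω : Fin B → Fin J → ι → Fin Q | S ⊆ WB ω}.ncard * 3 ^ S.card := by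
  classical
  have hQ0 : 0 < Q := Nat.pos_of_ne_zero (NeZero.ne Q)
  let col : Finset (Fin B × Fin J → Fin Q) := univ.filter (fun g => ∃ p, g p = 0)
  have hcolc : col.card = Q ^ (B * J) - (Q - 1) ^ (B * J) := by
    have h1 : (univ.filter (fun g : Fin B × Fin J → Fin Q => ¬ ∃ p, g p = 0)).card =
        (Q - 1) ^ (B * J) := by
      have : (univ.filter (fun g : Fin B × Fin J → Fin Q => ¬ ∃ p, g p = 0)) =
          Fintype.piFinset (fun _ => univ.erase (0 : Fin Q)) := by
        ext g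
        simp
      rw [this, Fintype.card_piFinset]
      simp
    have h2 := Finset.card_filter_add_card_filter_not (s := (univ : Finset (Fin B × Fin J → Fin Q)))
      (fun g => ∃ p, g p = 0)
    rw [h1, Finset.card_univ, Fintype.card_fun, Fintype.card_fin, Fintype.card_prod,
      Fintype.card_fin, Fintype.card_fin] at h2
    have h3 : col.card + (Q - 1) ^ (B * J) = Q ^ (B * J) := h2
    omega
  have hcol3 : Q ^ (B * J) ≤ 3 * col.card := by
    have h1 := pow_third Q (B * J) hL hQ hQ0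
    have h2 : (Q - 1) ^ (B * J) ≤ Q ^ (B * J) := Nat.pow_le_pow_left (by omega) _
    rw [hcolc]
    omega
  have hle : (Fintype.piFinset (fun v : ι => if v ∈ S then col else univ)).card ≤
      {ω : Fin B → Fin J → ι → Fin Q | S ⊆ WB ω}.ncard := by
    rw [← Set.ncard_coe_finset]
    apply Set.ncard_le_ncard_of_injOn
      (fun (κ : ι → (Fin B × Fin J → Fin Q)) => fun (b : Fin B) (j : Fin J) (v : ι) => κ v (b, j))
    · intro κ hκ
      rw [Finset.mem_coe, Fintype.mem_piFinset] at hκ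
      show S ⊆ WB _
      intro v hv
      have h1 := hκ v
      simp only [hv, if_true, col, mem_filter, mem_univ, true_and] at h1
      obtain ⟨⟨b, j⟩, h⟩ := h1
      exact (mem_WB _ v).mpr ⟨b, j, h⟩
    · intro κ _ κ' _ h
      funext v p
      exact congrFun (congrFun (congrFun h p.1) p.2) v
  have hprod : (Q ^ (B * J)) ^ Fintype.card ι ≤
      (Fintype.piFinset (fun v : ι => if v ∈ S then col else univ)).card * 3 ^ S.card := by
    rw [Fintype.card_piFinset]
    have h1 : ∀ v : ι, (if v ∈ S then col else (univ : Finset (Fin B × Fin J → Fin Q))).card =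
        if v ∈ S then col.card else Q ^ (B * J) := by
      intro v
      split_ifs
      · rfl
      · rw [Finset.card_univ, Fintype.card_fun, Fintype.card_fin, Fintype.card_prod,
          Fintype.card_fin, Fintype.card_fin]
    simp only [h1]
    have h2 : (3 : ℕ) ^ S.card = ∏ v : ι, if v ∈ S then 3 else 1 := by
      rw [Finset.prod_ite]
      simp
    rw [h2, ← Finset.prod_mul_distrib]
    calc (Q ^ (B * J)) ^ Fintype.card ι = ∏ _v : ι, Q ^ (B * J) := by simp
      _ ≤ _ := by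
          apply Finset.prod_le_prod'
          intro v _
          split_ifs
          · exact le_of_le_of_eq hcol3 (mul_comm _ _)
          · rw [mul_one]
  calc _ = (Q ^ (B * J)) ^ Fintype.card ι := by
        rw [← pow_mul, ← pow_mul, ← pow_mul]
        congr 1
        ring
    _ ≤ _ := hprod
    _ ≤ _ := Nat.mul_le_mul_right _ hle

section

variable {ι : Type*} [Fintype ι] [DecidableEq ι] {Q : ℕ} [NeZero Q]

/-- Abstract domination: a small monotone circuit accepts a random point at most as often as a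
random set outside `bad`, up to an exponentially small error. -/
theorem spread_dom {Λ : Type*} (lf : Λ → Set ι → Prop) (B J r e : ℕ) (hr : 64 * Q ≤ r)
    (hJ : 2 * e < 2 ^ J)
    (hB : ((univ : Finset (Finset ι)).filter (fun Y => Y.card ≤ 2 * e)).card * 4 ^ e ≤ 4 ^ B)
    (hL : 0 < B * J) (hQ : Q ≤ 2 * (B * J))
    (hleaf : ∀ l, ∃ T : Finset ι, T.card ≤ e ∧ LeafOn T (lf l))
    {Pt : Type*} [Fintype Pt] (gr : Pt → Finset ι)
    (hind : ∀ Y : Finset ι, Y.card ≤ 2 * e →
      {p : Pt | Y ⊆ gr p}.ncard * (12 * r) ^ Y.card ≤ Fintype.card Pt)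
    {t : ℕ} (op : Fin t → Bool) (a b : Fin t → Λ ⊕ Fin t)
    (htop : ∀ i j, (a i = Sum.inr j → j < i) ∧ (b i = Sum.inr j → j < i))
    (val : Set ι → Fin t → Prop)
    (hval : ∀ x i, val x i ↔ (if op i = true then
        (Sum.elim (fun l => lf l x) (val x) (a i) ∧ Sum.elim (fun l => lf l x) (val x) (b i))
      else (Sum.elim (fun l => lf l x) (val x) (a i) ∨ Sum.elim (fun l => lf l x) (val x) (b i))))
    (o : Fin t) (bad : Set (Fin B → Fin J → ι → Fin Q))
    (hbad : bad.ncard * (2 * 3 ^ e * 3) ≤ ((Q ^ Fintype.card ι) ^ J) ^ B) :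
    ({p : Pt | val (gr p : Set ι) o}.ncard : ℚ) * (badᶜ : Set _).ncard ≤
      ({ω : Fin B → Fin J → ι → Fin Q | ω ∉ bad ∧ val (WB ω : Set ι) o}.ncard : ℚ) *
        Fintype.card Pt +
      (3 * (t * (1 / 4) ^ e)) * ((badᶜ : Set (Fin B → Fin J → ι → Fin Q)).ncard *
        Fintype.card Pt) := by
  classical
  have hQ0 : 0 < Q := Nat.pos_of_ne_zero (NeZero.ne Q)
  have hrpos : 0 < r := by omega
  set Om := ((Q ^ Fintype.card ι) ^ J) ^ B with hOm
  have hOmc : Fintype.card (Fin B → Fin J → ι → Fin Q) = Om := by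
    rw [Fintype.card_fun, Fintype.card_fun, Fintype.card_fun, Fintype.card_fin, Fintype.card_fin,
      Fintype.card_fin]
  have hsplit : bad.ncard + (badᶜ : Set _).ncard = Om := by
    have := Set.ncard_add_ncard_compl bad
    rwa [Nat.card_eq_fintype_card, hOmc] at this
  set N : ℚ := ((badᶜ : Set (Fin B → Fin J → ι → Fin Q)).ncard : ℚ) with hN
  set fb : ℚ := (bad.ncard : ℚ) with hfb
  have hNb : fb + N = Om := by
    rw [hfb, hN]
    exact_mod_cast hsplit
  have hfb0 : 0 ≤ fb := Nat.cast_nonneg _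
  have hOm0 : (0 : ℚ) < Om := by
    rw [hOm]
    have : 0 < ((Q ^ Fintype.card ι) ^ J) ^ B := by positivity
    exact_mod_cast this
  have hbq : fb * (2 * 3 ^ e * 3) ≤ Om := by
    rw [hfb]
    exact_mod_cast hbad
  have h3e : (1 : ℚ) ≤ 3 ^ e := one_le_pow₀ (by norm_num)
  have hfb2 : 6 * fb ≤ Om := by nlinarith
  have hN2 : Om ≤ 2 * N := by linarith
  have hN0 : 0 < N := by linarith
  have hNOm : N ≤ Om := by linarith
  -- `fb` is small compared with `N`
  have hfbN : fb * (3 ^ e * 3) ≤ N := by nlinarith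
  have hind' : ∀ Y : Finset ι, Y.card ≤ 2 * e →
      {p : Pt | Y ⊆ gr p}.ncard * (4 * r) ^ Y.card ≤ Fintype.card Pt := by
    intro Y hY
    refine le_trans (Nat.mul_le_mul_left _ (Nat.pow_le_pow_left ?_ _)) (hind Y hY)
    omega
  obtain ⟨E, E', hE, hE', H⟩ := approx2 (Q := Q) lf B J r e hr hJ hB hleaf gr hind' op a b htop val
    hval t le_rfl
  obtain ⟨A, hAm, hAg, hAthin, hAp, hAn⟩ := H o o.isLt
  set PT : ℚ := (Fintype.card Pt : ℚ) with hPT
  have hPT0 : 0 ≤ PT := Nat.cast_nonneg _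
  set P : ℚ := ({p : Pt | val (gr p : Set ι) o}.ncard : ℚ) with hP
  set W : ℚ := ({ω : Fin B → Fin J → ι → Fin Q | ω ∉ bad ∧ val (WB ω : Set ι) o}.ncard : ℚ) with hW
  have hP0 : 0 ≤ P := Nat.cast_nonneg _
  have hW0 : 0 ≤ W := Nat.cast_nonneg _
  set τ : ℚ := (t : ℚ) * (1 / 4) ^ e with hτ
  have hτ0 : 0 ≤ τ := by positivity
  have hPle : P ≤ PT := by
    rw [hP, hPT]
    have := Set.ncard_le_ncard (Set.subset_univ {p : Pt | val (gr p : Set ι) o})
    rw [Set.ncard_univ, Nat.card_eq_fintype_card] at this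
    exact_mod_cast this
  have hE2 : (E'.ncard : ℚ) ≤ 2 * τ * N := by
    have h1 : (E'.ncard : ℚ) * 4 ^ e ≤ t * Om := by exact_mod_cast hE'
    have h2 : (0 : ℚ) < 4 ^ e := by positivity
    have h3 : τ * 4 ^ e = t := by
      rw [hτ, mul_assoc, ← mul_pow]
      norm_num
    refine le_of_mul_le_mul_right ?_ h2
    calc (E'.ncard : ℚ) * 4 ^ e ≤ t * Om := h1
      _ ≤ t * (2 * N) := mul_le_mul_of_nonneg_left hN2 (Nat.cast_nonneg _)
      _ = 2 * (τ * 4 ^ e) * N := by rw [h3]; ring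
      _ = _ := by ring
  have hE1 : (E.ncard : ℚ) ≤ τ * PT := by
    refine hE.trans ?_
    rw [hτ]
    have : (0 : ℚ) ≤ t * (PT * (1 / 4) ^ e) := by positivity
    nlinarith
  by_cases hA0 : A ∅
  · -- true on almost all good sets
    have h1 : (badᶜ : Set (Fin B → Fin J → ι → Fin Q)) ⊆
        {ω | ω ∉ bad ∧ val (WB ω : Set ι) o} ∪ E' := by
      intro ω hω
      by_cases hωE : ω ∈ E'
      · exact Or.inr hωE
      · exact Or.inl ⟨hω, hAn ω hωE (hAm ∅ _ (Finset.empty_subset _) hA0)⟩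
    have h2 := (Set.ncard_le_ncard h1 (Set.toFinite _)).trans (Set.ncard_union_le _ _)
    have h3 : N ≤ W + (E'.ncard : ℚ) := by
      rw [hN, hW]
      exact_mod_cast h2
    have h4 : N ≤ W + 2 * τ * N := by linarith
    calc P * N ≤ PT * N := mul_le_mul_of_nonneg_right hPle hN0.le
      _ ≤ PT * (W + 2 * τ * N) := mul_le_mul_of_nonneg_left h4 hPT0
      _ = W * PT + 2 * τ * (N * PT) := by ring
      _ ≤ W * PT + 3 * τ * (N * PT) := by
          have : 0 ≤ τ * (N * PT) := by positivity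
          linarith
  · -- P ≤ P_A + E
    set PA : ℚ := (({p : Pt | A (gr p)} : Set Pt).ncard : ℚ) with hPA
    have hPsub : P ≤ PA + τ * PT := by
      have hsub : {p : Pt | val (gr p : Set ι) o} ⊆ {p : Pt | A (gr p)} ∪ E := by
        intro p hp
        by_cases hpE : p ∈ E
        · exact Or.inr hpE
        · exact Or.inl (hAp p hpE hp)
      have h2 := (Set.ncard_le_ncard hsub (Set.toFinite _)).trans (Set.ncard_union_le _ _)
      have h3 : P ≤ PA + E.ncard := by
        rw [hP, hPA]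
        exact_mod_cast h2
      linarith
    by_cases hex : ∃ Y : Finset ι, Y.card ≤ e ∧ Y ∈ Mint A Y.card
    · -- minimal size of a minterm
      obtain ⟨Y0, hY0, hmin⟩ := Finset.exists_min_image
        (univ.filter (fun Y : Finset ι => Y.card ≤ e ∧ Y ∈ Mint A Y.card)) Finset.card
        (by obtain ⟨Y, hY⟩ := hex; exact ⟨Y, Finset.mem_filter.mpr ⟨mem_univ _, hY⟩⟩)
      obtain ⟨-, hY0e, hY0m⟩ := Finset.mem_filter.mp hY0
      set t0 := Y0.card with ht0
      have hY0A : A Y0 := ((mem_Mint _ _ _).mp hY0m).2.1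
      have ht0pos : 1 ≤ t0 := by
        rw [Nat.one_le_iff_ne_zero, ht0, Ne, Finset.card_eq_zero]
        intro h
        rw [h] at hY0A
        exact hA0 hY0A
      have hPA1 : PA * 3 ^ t0 ≤ PT * (1 / 3) := by
        apply count_pos_ge gr r e t0 ht0pos hrpos (fun Y hY => hind Y (by omega)) A
          (fun l hl => hAthin l hl)
        intro p hp
        obtain ⟨Z0, hZ0, hZ0c, hZ0A⟩ := hAg _ hp
        obtain ⟨Y, hY, hYm⟩ := exists_minterm A Z0 hZ0A
        have hYe : Y.card ≤ e := (Finset.card_le_card hY).trans hZ0c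
        exact ⟨Y, hY.trans hZ0, hYm,
          hmin Y (Finset.mem_filter.mpr ⟨mem_univ _, hYe, hYm⟩), hYe⟩
      have hlow := contains_lower (Q := Q) B J hL hQ Y0
      set C0 : ℚ := ({ω : Fin B → Fin J → ι → Fin Q | Y0 ⊆ WB ω}.ncard : ℚ) with hC0
      have hlowq : (Om : ℚ) ≤ C0 * 3 ^ t0 := by
        rw [hC0]
        exact_mod_cast hlow
      have hC0le : C0 ≤ W + fb + 2 * τ * N := by
        have hsub : {ω : Fin B → Fin J → ι → Fin Q | Y0 ⊆ WB ω} ⊆
            ({ω | ω ∉ bad ∧ val (WB ω : Set ι) o} ∪ bad) ∪ E' := by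
          intro ω hω
          by_cases hωE : ω ∈ E'
          · exact Or.inr hωE
          · left
            by_cases hb : ω ∈ bad
            · exact Or.inr hb
            · exact Or.inl ⟨hb, hAn ω hωE (hAm Y0 _ hω hY0A)⟩
        have h2 := ((Set.ncard_le_ncard hsub (Set.toFinite _)).trans
          (Set.ncard_union_le _ _)).trans (Nat.add_le_add_right (Set.ncard_union_le _ _) _)
        have h3 : C0 ≤ W + fb + E'.ncard := by
          rw [hC0, hW, hfb]
          exact_mod_cast h2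
        linarith
      have h3t : (0 : ℚ) < 3 ^ t0 := by positivity
      have h3te : (3 : ℚ) ^ t0 ≤ 3 ^ e := pow_le_pow_right₀ (by norm_num) hY0e
      -- combine
      have hfbt : fb * 3 ^ t0 * 3 ≤ N := by
        calc fb * 3 ^ t0 * 3 ≤ fb * 3 ^ e * 3 := by
              apply mul_le_mul_of_nonneg_right _ (by norm_num)
              exact mul_le_mul_of_nonneg_left h3te hfb0
          _ = fb * (3 ^ e * 3) := by ring
          _ ≤ N := hfbN
      -- (PA) N 3^t0 ≤ PT N / 3 and (C0 - fb) 3^t0 ≥ Om - N/3 ≥ 2N/3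
      have hkey : PA * N ≤ (C0 - fb) * PT := by
        refine le_of_mul_le_mul_right ?_ h3t
        have e1 : PA * N * 3 ^ t0 = (PA * 3 ^ t0) * N := by ring
        have e2 : (C0 - fb) * PT * 3 ^ t0 = (C0 * 3 ^ t0 - fb * 3 ^ t0) * PT := by ring
        rw [e1, e2]
        have e3 : (PA * 3 ^ t0) * N ≤ (PT * (1 / 3)) * N := mul_le_mul_of_nonneg_right hPA1 hN0.le
        have e4 : (1 / 3 : ℚ) * N ≤ C0 * 3 ^ t0 - fb * 3 ^ t0 := by linarith
        have e5 := mul_le_mul_of_nonneg_right e4 hPT0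
        linarith
      have h5 : (C0 - fb) * PT ≤ (W + 2 * τ * N) * PT :=
        mul_le_mul_of_nonneg_right (by linarith) hPT0
      calc P * N ≤ (PA + τ * PT) * N := mul_le_mul_of_nonneg_right hPsub hN0.le
        _ = PA * N + τ * (N * PT) := by ring
        _ ≤ (W + 2 * τ * N) * PT + τ * (N * PT) := by linarith
        _ = _ := by ring
    · -- no accepted positives
      have hPA0 : PA = 0 := by
        have : {p : Pt | A (gr p)} = ∅ := by
          ext p
          constructor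
          · intro hp
            exfalso
            obtain ⟨Z0, hZ0, hZ0c, hZ0A⟩ := hAg _ hp
            obtain ⟨Y, hY, hYm⟩ := exists_minterm A Z0 hZ0A
            exact hex ⟨Y, (Finset.card_le_card hY).trans hZ0c, hYm⟩
          · intro h; exact absurd h (Set.notMem_empty p)
        rw [hPA, this, Set.ncard_empty, Nat.cast_zero]
      rw [hPA0, zero_add] at hPsub
      calc P * N ≤ (τ * PT) * N := mul_le_mul_of_nonneg_right hPsub hN0.le
        _ = τ * (N * PT) := by ring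
        _ ≤ W * PT + 3 * τ * (N * PT) := by
            have h1 : 0 ≤ τ * (N * PT) := by positivity
            have h2 : 0 ≤ W * PT := by positivity
            linarith

end

end Pool.Agent.W935.LC
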