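import Pool.Agent.W935.LC1

/-! Domination for POLY, for monotone programs (helper935; from H560R2.Av2). -/

namespace Pool.Agent.W935.LC

open Finset Pool.Agent.H560R2 Pool.Agent.H520R2

section

variable {F : Type} [Field F] [Fintype F] [DecidableEq F]

/-- Domination for POLY: there is a distribution on rejected inputs such that small monotone
programs accept random graphs of polynomials at most as often as the rejected inputs, up to an
exponentially small error. -/
theorem poly_dom (e lam : ℕ) (he : 1 ≤ e) (hq : Fintype.card F ≤ 2 ^ lam)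
    (hq2 : 1024 * lam * (lam + 1) * e * 3 ≤ Fintype.card F) :
    ∃ (Ng : Type) (_ : Fintype Ng) (_ : Nonempty Ng) (neg : Ng → Set (F × F)),
      (∀ ω, ¬ fPoly (2 * e) (neg ω)) ∧
      ∀ (Bs : Set (Set (F × F) → Bool)) (_ : ∀ b ∈ Bs, ∃ T : Finset (F × F), T.card ≤ e ∧
          LeafOn T (fun x => b x = true))
        (s : ℕ) (g : Set (F × F) → Bool) (_ : MComp Bs s g),
        ((univ.filter (fun p : Fin (2 * e) → F => g (grf p : Set (F × F)) = true)).card : ℚ) *
            Fintype.card Ng ≤
          ((univ.filter (fun ω : Ng => g (neg ω) = true)).card : ℚ) *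
            Fintype.card (Fin (2 * e) → F) +
          (3 * (((max s 1 : ℕ) : ℚ) * (1 / 4) ^ e)) *
            (Fintype.card Ng * Fintype.card (Fin (2 * e) → F)) := by
  classical
  set q := Fintype.card F with hqdef
  have hlam : 1 ≤ lam := by
    by_contra hcon
    have h0 : lam = 0 := by omega
    subst h0
    have : 1 < q := Fintype.one_lt_card
    simp at hq
    omega
  have hq2' : 1024 * lam * (lam + 1) * e ≤ q := le_trans (Nat.le_mul_of_pos_right _ (by norm_num)) hq2
  have hle : 1 ≤ lam * (lam + 1) := Nat.mul_pos hlam (by omega)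
  have hqe : 1024 * e ≤ q := by
    refine le_trans ?_ hq2'
    calc 1024 * e = (1024 * e) * 1 := by ring
      _ ≤ (1024 * e) * (lam * (lam + 1)) := Nat.mul_le_mul_left _ hle
      _ = _ := by ring
  set B := (2 * lam + 2) * e with hBdef
  set L := B * lam with hL
  set Q := 2 * L with hQdef
  have hBpos : 0 < B := Nat.mul_pos (by omega) he
  have hLpos : 0 < L := Nat.mul_pos hBpos hlam
  have : NeZero Q := ⟨by omega⟩
  set r := 64 * Q with hr
  have h12r : 12 * r ≤ q := by
    refine le_trans (le_of_eq ?_) hq2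
    rw [hr, hQdef, hL, hBdef]
    ring
  have hN : Fintype.card (F × F) = q * q := Fintype.card_prod _ _
  have hq4 : q * q + 1 ≤ 2 ^ (2 * lam + 1) := by
    have h1 : q * q ≤ 2 ^ lam * 2 ^ lam := Nat.mul_le_mul hq hq
    have h2 : 2 ^ (2 * lam + 1) = 2 * (2 ^ lam * 2 ^ lam) := by rw [← pow_add, pow_succ]; ring
    have h3 : 1 ≤ 2 ^ lam * 2 ^ lam := Nat.one_le_iff_ne_zero.mpr (by positivity)
    omega
  have hJ : 2 * e < 2 ^ lam := by omega
  have hBB : ((univ : Finset (Finset (F × F))).filter (fun Y => Y.card ≤ 2 * e)).card * 4 ^ e ≤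
      4 ^ B := by
    refine (Nat.mul_le_mul_right _ (card_small_sets (2 * e))).trans ?_
    rw [hN]
    calc (q * q + 1) ^ (2 * e) * 4 ^ e ≤ (2 ^ (2 * lam + 1)) ^ (2 * e) * 4 ^ e :=
          Nat.mul_le_mul_right _ (Nat.pow_le_pow_left hq4 _)
      _ = 4 ^ B := by
          rw [← pow_mul, hBdef]
          have : (4 : ℕ) = 2 ^ 2 := by norm_num
          rw [this, ← pow_mul, ← pow_mul, ← pow_add]
          congr 1
          ring
  have hind : ∀ Y : Finset (F × F), Y.card ≤ 2 * e →
      {p : Fin (2 * e) → F | Y ⊆ grf p}.ncard * (12 * r) ^ Y.card ≤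
        Fintype.card (Fin (2 * e) → F) := by
    intro Y hY
    have h1 := card_through (F := F) (2 * e) Y hY (by omega)
    rw [Fintype.card_fun, Fintype.card_fin, ← hqdef]
    calc _ ≤ q ^ (2 * e - Y.card) * q ^ Y.card :=
          Nat.mul_le_mul h1 (Nat.pow_le_pow_left h12r _)
      _ = q ^ (2 * e) := by
          rw [← pow_add]
          congr 1
          omega
  -- the rejected random sets
  set Om := ((Q ^ Fintype.card (F × F)) ^ lam) ^ B with hOm
  have hOmc : Fintype.card (Fin B → Fin lam → (F × F) → Fin Q) = Om := by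
    rw [Fintype.card_fun, Fintype.card_fun, Fintype.card_fun, Fintype.card_fin, Fintype.card_fin,
      Fintype.card_fin]
  have hOmpos : 0 < Om := by positivity
  set bad : Set (Fin B → Fin lam → (F × F) → Fin Q) :=
    {ω | fPoly (2 * e) (WB ω : Set (F × F))} with hbaddef
  have hbad : bad.ncard * (2 * 3 ^ e * 3) ≤ Om := by
    have hsub : bad ⊆ ⋃ p ∈ (univ : Finset (Fin (2 * e) → F)), {ω | grf p ⊆ WB ω} := by
      intro ω hω
      obtain ⟨c, hc⟩ := hω
      simp only [Set.mem_iUnion]
      refine ⟨c, mem_univ _, ?_⟩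
      intro v hv
      have := (mem_grf c v).mp hv
      have h2 := hc v.1
      rw [this] at h2
      exact h2
    have h1 : bad.ncard ≤
        ∑ p : Fin (2 * e) → F, {ω : Fin B → Fin lam → (F × F) → Fin Q | grf p ⊆ WB ω}.ncard :=
      (Set.ncard_le_ncard hsub (Set.toFinite _)).trans (Finset.set_ncard_biUnion_le _ _)
    have h2 : ∀ p : Fin (2 * e) → F,
        {ω : Fin B → Fin lam → (F × F) → Fin Q | grf p ⊆ WB ω}.ncard * 2 ^ q ≤ Om := by
      intro p
      have h3 := count_contains (Q := Q) B lam (by rw [hQdef, hL]) (grf p)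
      have h4 : (grf p).card = q := by
        unfold grf
        rw [Finset.card_image_of_injective _ (fun a b hab => (Prod.mk.inj hab).1), Finset.card_univ]
      rw [h4] at h3
      exact h3
    have h3 : bad.ncard * 2 ^ q ≤ q ^ (2 * e) * Om := by
      calc _ ≤ (∑ p : Fin (2 * e) → F,
            {ω : Fin B → Fin lam → (F × F) → Fin Q | grf p ⊆ WB ω}.ncard) * 2 ^ q :=
            Nat.mul_le_mul_right _ h1
        _ ≤ ∑ p : Fin (2 * e) → F, Om := by
            rw [Finset.sum_mul]
            exact Finset.sum_le_sum (fun p _ => h2 p)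
        _ = q ^ (2 * e) * Om := by
            rw [Finset.sum_const, Finset.card_univ, Fintype.card_fun, Fintype.card_fin, smul_eq_mul]
    have h5 : (2 * 3 ^ e * 3) * q ^ (2 * e) ≤ 2 ^ q := by
      have h6 : 3 ^ e ≤ 4 ^ e := Nat.pow_le_pow_left (by norm_num) _
      have h7 : (4 : ℕ) ^ e = 2 ^ (2 * e) := by rw [pow_mul]; norm_num
      calc (2 * 3 ^ e * 3) * q ^ (2 * e) ≤ (2 * 4 ^ e * 4) * (2 ^ lam) ^ (2 * e) := by
            apply Nat.mul_le_mul _ (Nat.pow_le_pow_left hq _)
            exact Nat.mul_le_mul (Nat.mul_le_mul_left _ h6) (by norm_num)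
        _ = 2 ^ (lam * (2 * e) + 2 * e + 3) := by rw [h7, ← pow_mul, pow_add, pow_add]; ring
        _ ≤ 2 ^ q := by
            apply Nat.pow_le_pow_right (by norm_num)
            refine le_trans ?_ hq2'
            have h8 : 1 ≤ lam * e := Nat.mul_pos hlam he
            nlinarith
    have hpos : 0 < 2 ^ q := by positivity
    refine Nat.le_of_mul_le_mul_right ?_ hpos
    calc _ = (bad.ncard * 2 ^ q) * (2 * 3 ^ e * 3) := by ring
      _ ≤ (q ^ (2 * e) * Om) * (2 * 3 ^ e * 3) := Nat.mul_le_mul_right _ h3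
      _ = ((2 * 3 ^ e * 3) * q ^ (2 * e)) * Om := by ring
      _ ≤ 2 ^ q * Om := Nat.mul_le_mul_right _ h5
      _ = _ := by ring
  let Ng := {ω : Fin B → Fin lam → (F × F) → Fin Q // ω ∉ bad}
  have hNgc : Fintype.card Ng = (badᶜ : Set _).ncard := by
    rw [← Nat.card_eq_fintype_card, ← Nat.card_coe_set_eq]
    rfl
  have hNgpos : 0 < Fintype.card Ng := by
    have h1 := Set.ncard_add_ncard_compl bad
    rw [Nat.card_eq_fintype_card, hOmc, ← hNgc] at h1
    have h2 : bad.ncard * 2 ≤ bad.ncard * (2 * 3 ^ e * 3) := by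
      apply Nat.mul_le_mul_left
      have : 1 ≤ 3 ^ e := Nat.one_le_pow _ _ (by norm_num)
      nlinarith
    omega
  refine ⟨Ng, inferInstance, Fintype.card_pos_iff.mp hNgpos, fun ω => (WB ω.1 : Set (F × F)),
    fun ω => ω.2, ?_⟩
  intro Bs hBs s g hg
  obtain ⟨t, op, a, b, val, o, ht, htop, hval, ho⟩ := mcomp_circ hg
  have h := spread_dom (Q := Q) (fun (b : {b // b ∈ Bs}) x => b.1 x = true) B lam r e le_rfl hJ
    hBB hLpos le_rfl (fun b => hBs b.1 b.2) (Pt := Fin (2 * e) → F) grf hind op a b htop val hval o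
    bad hbad
  have hPset : ({p : Fin (2 * e) → F | val (grf p : Set (F × F)) o} : Set _).ncard =
      (univ.filter (fun p : Fin (2 * e) → F => g (grf p : Set (F × F)) = true)).card := by
    rw [← Set.ncard_coe_finset]
    congr 1
    ext p
    simp [ho]
  have hWset : ({ω : Fin B → Fin lam → (F × F) → Fin Q | ω ∉ bad ∧ val (WB ω : Set _) o}).ncard =
      (univ.filter (fun ω : Ng => g (WB ω.1 : Set (F × F)) = true)).card := by
    rw [← Set.ncard_coe_finset]
    symm
    apply Set.ncard_congr (fun (ω : Ng) _ => ω.1)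
    · intro ω hω
      rw [Finset.mem_coe, Finset.mem_filter] at hω
      exact ⟨ω.2, (ho _).mpr hω.2⟩
    · intro ω ω' _ _ h
      exact Subtype.ext h
    · rintro ω ⟨h1, h2⟩
      refine ⟨⟨ω, h1⟩, ?_, rfl⟩
      rw [Finset.mem_coe, Finset.mem_filter]
      exact ⟨mem_univ _, (ho _).mp h2⟩
  rw [hPset, hWset, ← hNgc] at h
  refine h.trans ?_
  apply add_le_add le_rfl
  apply mul_le_mul_of_nonneg_right _ (by positivity)
  apply mul_le_mul_of_nonneg_left _ (by norm_num)
  apply mul_le_mul_of_nonneg_right _ (by positivity)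
  exact_mod_cast ht

end

end Pool.Agent.W935.LC
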