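import Pool.Agent.W935.LC2
import Pool.Agent.H560R2.Av3

/-! Weighted votes of circuits: the potential argument (helper935). -/

namespace Pool.Agent.W935.LC

open Finset Pool.Agent.H560R2 Pool.Agent.H520R2 Pool.Agent.H520R2.NM

section

variable {ι α κ Pt Ng : Type} [DecidableEq κ] [Fintype Pt] [Nonempty Pt] [Fintype Ng] [Nonempty Ng]

open Classical in
/-- the output of a weighted vote: the sum of the weights of the gates that have value `1` -/
noncomputable def score {ι R : Type} [Fintype R] {n : R → ℕ} (C : ∀ r, Circuit ι (n r))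
    (a : ∀ r, Fin (n r) → ℝ) (x : ι → Bool) : ℝ :=
  ∑ r, ∑ j, if (C r).vals x j = true then a r j else 0

/-- the potential -/
noncomputable def pot {ι R : Type} [Fintype R] {n : R → ℕ} (C : ∀ r, Circuit ι (n r))
    (a : ∀ r, Fin (n r) → ℝ) (x : ι → Bool) : ℝ :=
  ∑ r, min 1 (∑ j, a r j) * ((C r).rank x : ℝ)

open Classical in
/-- one step of the chain -/
theorem vote_step (pos : Pt → Set α) (neg : Ng → Set α) (S : ℕ) (τ : ℝ) (hτ : 0 ≤ τ)
    (E : (κ → Set α) → ι → Bool) (hmono : ∀ y y', (∀ j, y j ⊆ y' j) → E y ≤ E y')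
    {R : Type} [Fintype R] {n : R → ℕ} (C : ∀ r, Circuit ι (n r))
    (hS : ∀ r, (C r).size + (C r).fanins.sum ≤ S)
    (a : ∀ r, Fin (n r) → ℝ) (ha : ∀ r j, 0 ≤ a r j) (θ : ℝ)
    (y : κ → Set α) (J : κ) (hJ : y J = ∅)
    (hdom : ∀ (g : Set α → Bool), MComp (blockBase E y J) S g →
      ((univ.filter (fun p => g (pos p) = true)).card : ℝ) * Fintype.card Ng ≤
        ((univ.filter (fun ω => g (neg ω) = true)).card : ℝ) * Fintype.card Pt +
          τ * (Fintype.card Ng * Fintype.card Pt))
    (h1 : ∀ p, θ + 1 ≤ score C a (E (Function.update y J (pos p))))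
    (h2 : ∀ ω, score C a (E (Function.update y J (neg ω))) ≤ θ) :
    ∃ ω, pot C a (E y) + (1 - τ * ∑ r, ∑ j, a r j) ≤
      pot C a (E (Function.update y J (neg ω))) := by
  set x0 := E y with hx0
  let xp : Pt → ι → Bool := fun p => E (Function.update y J (pos p))
  let xn : Ng → ι → Bool := fun ω => E (Function.update y J (neg ω))
  have hle : ∀ X, x0 ≤ E (Function.update y J X) := by
    intro X
    apply hmono
    intro j
    by_cases hj : j = J
    · subst hj
      rw [Function.update_self, hJ]
      exact Set.empty_subset _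
    · rw [Function.update_of_ne hj]
  let ch : R → Ng → ℝ := fun r ω => if (C r).probes (xn ω) ≠ (C r).probes x0 then 1 else 0
  have hN : (0 : ℝ) < Fintype.card Ng := by exact_mod_cast Fintype.card_pos
  have hP : (0 : ℝ) < Fintype.card Pt := by exact_mod_cast Fintype.card_pos
  -- one gate
  have hgate : ∀ r (j : Fin (n r)),
      (∑ p, if (C r).vals (xp p) j = true then (1 : ℝ) else 0) * Fintype.card Ng ≤
      (∑ ω, ((if (C r).vals (xn ω) j = true then (1 : ℝ) else 0) + ch r ω)) * Fintype.card Pt +
        τ * (Fintype.card Ng * Fintype.card Pt) := by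
    intro r j
    obtain ⟨g, hg, hgx⟩ := flip2 (C r) (Wire.gate j) x0
    obtain ⟨L, hL1, hL2, hL3⟩ := hg.comp (B' := blockBase E y J)
      (fun X => E (Function.update y J X)) (fun b hb => ⟨b, hb, rfl⟩)
    have h3 := hdom _ ⟨L, hL1, hL2.trans (hS r), hL3⟩
    have hp : (∑ p, if (C r).vals (xp p) j = true then (1 : ℝ) else 0) ≤
        ((univ.filter (fun p => g (xp p) = true)).card : ℝ) := by
      rw [Finset.card_filter]
      push_cast
      apply Finset.sum_le_sum
      intro p _
      by_cases hv : (C r).vals (xp p) j = true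
      · rw [if_pos hv, if_pos ((hgx _ (hle _)).mpr (Or.inr hv))]
      · rw [if_neg hv]
        split_ifs <;> norm_num
    have hn : ((univ.filter (fun ω => g (xn ω) = true)).card : ℝ) ≤
        ∑ ω, ((if (C r).vals (xn ω) j = true then (1 : ℝ) else 0) + ch r ω) := by
      rw [Finset.card_filter]
      push_cast
      apply Finset.sum_le_sum
      intro ω _
      have hc0 : 0 ≤ ch r ω := by
        simp only [ch]
        split_ifs <;> norm_num
      by_cases hv : g (xn ω) = true
      · rw [if_pos hv]
        rcases (hgx _ (hle _)).mp hv with h | h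
        · have : ch r ω = 1 := if_pos h
          rw [this]
          split_ifs <;> norm_num
        · rw [if_pos (show (C r).vals (xn ω) j = true from h)]
          linarith
      · rw [if_neg hv]
        split_ifs
        · linarith
        · linarith
    calc _ ≤ ((univ.filter (fun p => g (xp p) = true)).card : ℝ) * Fintype.card Ng :=
          mul_le_mul_of_nonneg_right hp hN.le
      _ ≤ _ := h3
      _ ≤ _ := by
          apply add_le_add _ le_rfl
          exact mul_le_mul_of_nonneg_right hn hP.le
  -- weighted sum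
  set W := ∑ r, ∑ j, a r j with hW
  set c : R → ℝ := fun r => ∑ j, a r j with hc
  have hc0 : ∀ r, 0 ≤ c r := fun r => Finset.sum_nonneg (fun j _ => ha r j)
  have hsum : (∑ p, score C a (xp p)) * Fintype.card Ng ≤
      ((∑ ω, score C a (xn ω)) + ∑ ω, ∑ r, c r * ch r ω) * Fintype.card Pt +
        τ * W * (Fintype.card Ng * Fintype.card Pt) := by
    have h3 : (∑ p, score C a (xp p)) =
        ∑ r, ∑ j, a r j * ∑ p, if (C r).vals (xp p) j = true then (1 : ℝ) else 0 := by
      unfold score
      rw [Finset.sum_comm]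
      apply Finset.sum_congr rfl
      intro r _
      rw [Finset.sum_comm]
      apply Finset.sum_congr rfl
      intro j _
      rw [Finset.mul_sum]
      apply Finset.sum_congr rfl
      intro p _
      split_ifs <;> simp
    have h4 : (∑ ω, score C a (xn ω)) + ∑ ω, ∑ r, c r * ch r ω =
        ∑ r, ∑ j, a r j * ∑ ω, ((if (C r).vals (xn ω) j = true then (1 : ℝ) else 0) + ch r ω) := by
      rw [← Finset.sum_add_distrib]
      have e1 : ∀ ω, score C a (xn ω) + ∑ r, c r * ch r ω =
          ∑ r, ∑ j, a r j * ((if (C r).vals (xn ω) j = true then (1 : ℝ) else 0) + ch r ω) := by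
        intro ω
        unfold score
        rw [← Finset.sum_add_distrib]
        apply Finset.sum_congr rfl
        intro r _
        rw [hc]
        simp only
        rw [Finset.sum_mul, ← Finset.sum_add_distrib]
        apply Finset.sum_congr rfl
        intro j _
        split_ifs <;> ring
      rw [Finset.sum_congr rfl (fun ω _ => e1 ω), Finset.sum_comm]
      apply Finset.sum_congr rfl
      intro r _
      rw [Finset.sum_comm]
      apply Finset.sum_congr rfl
      intro j _
      rw [Finset.mul_sum]
    rw [h3, h4, Finset.sum_mul, Finset.sum_mul]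
    have h5 : τ * W * (Fintype.card Ng * Fintype.card Pt) =
        ∑ r, ∑ j, a r j * (τ * (Fintype.card Ng * Fintype.card Pt)) := by
      rw [hW]
      simp only [Finset.mul_sum, Finset.sum_mul]
      apply Finset.sum_congr rfl
      intro r _
      simp only [hc]
      rw [Finset.mul_sum, Finset.sum_mul]
      apply Finset.sum_congr rfl
      intro j _
      ring
    rw [h5, ← Finset.sum_add_distrib]
    apply Finset.sum_le_sum
    intro r _
    rw [Finset.sum_mul, Finset.sum_mul, ← Finset.sum_add_distrib]
    apply Finset.sum_le_sum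
    intro j _
    have h6 := mul_le_mul_of_nonneg_left (hgate r j) (ha r j)
    calc _ = a r j * ((∑ p, if (C r).vals (xp p) j = true then (1 : ℝ) else 0) *
          Fintype.card Ng) := by ring
      _ ≤ _ := h6
      _ = _ := by ring
  have hlow : (Fintype.card Pt : ℝ) * (θ + 1) ≤ ∑ p, score C a (xp p) := by
    calc (Fintype.card Pt : ℝ) * (θ + 1) = ∑ _p : Pt, (θ + 1) := by
          rw [Finset.sum_const, Finset.card_univ, nsmul_eq_mul]
      _ ≤ _ := Finset.sum_le_sum (fun p _ => h1 p)
  have hupp : ∑ ω, score C a (xn ω) ≤ (Fintype.card Ng : ℝ) * θ := by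
    calc _ ≤ ∑ _ω : Ng, θ := Finset.sum_le_sum (fun ω _ => h2 ω)
      _ = _ := by rw [Finset.sum_const, Finset.card_univ, nsmul_eq_mul]
  have hch : (Fintype.card Ng : ℝ) * (1 - τ * W) ≤ ∑ ω, ∑ r, c r * ch r ω := by
    have h3 : (Fintype.card Pt : ℝ) * (θ + 1) * Fintype.card Ng ≤
        ((Fintype.card Ng : ℝ) * θ + ∑ ω, ∑ r, c r * ch r ω) * Fintype.card Pt +
        τ * W * (Fintype.card Ng * Fintype.card Pt) := by
      calc _ ≤ (∑ p, score C a (xp p)) * Fintype.card Ng :=
            mul_le_mul_of_nonneg_right hlow hN.le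
        _ ≤ _ := hsum
        _ ≤ _ := by
            apply add_le_add _ le_rfl
            exact mul_le_mul_of_nonneg_right (add_le_add hupp le_rfl) hP.le
    refine le_of_mul_le_mul_right ?_ hP
    linarith
  -- a good negative
  obtain ⟨ω, hω⟩ : ∃ ω, 1 - τ * W ≤ ∑ r, c r * ch r ω := by
    by_contra hcon
    push Not at hcon
    have h3 : ∑ ω, ∑ r, c r * ch r ω < ∑ _ω : Ng, (1 - τ * W) :=
      Finset.sum_lt_sum_of_nonempty Finset.univ_nonempty (fun ω _ => hcon ω)
    rw [Finset.sum_const, Finset.card_univ, nsmul_eq_mul] at h3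
    linarith
  refine ⟨ω, ?_⟩
  have hch0 : ∀ r, 0 ≤ ch r ω := by
    intro r
    simp only [ch]
    split_ifs <;> norm_num
  have hW0 : 0 ≤ W := Finset.sum_nonneg (fun r _ => hc0 r)
  -- truncation
  have htr : 1 - τ * W ≤ ∑ r, min 1 (c r) * ch r ω := by
    by_cases hex : ∃ r, 1 ≤ c r ∧ ch r ω = 1
    · obtain ⟨r, hr1, hr2⟩ := hex
      have h3 : min 1 (c r) * ch r ω ≤ ∑ r, min 1 (c r) * ch r ω :=
        Finset.single_le_sum (f := fun r => min 1 (c r) * ch r ω)
          (fun r _ => mul_nonneg (le_min zero_le_one (hc0 r)) (hch0 r)) (mem_univ r)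
      rw [hr2, min_eq_left hr1] at h3
      have : 0 ≤ τ * W := mul_nonneg hτ hW0
      linarith
    · push Not at hex
      refine hω.trans (Finset.sum_le_sum (fun r _ => ?_))
      by_cases hr : 1 ≤ c r
      · have h3 := hex r hr
        have h4 : ch r ω = 0 := by
          simp only [ch] at h3 ⊢
          split_ifs at h3 ⊢ with h5
          · exact absurd rfl h3
          · rfl
        rw [h4]
        simp
      · rw [min_eq_right (not_le.mp hr).le]
  refine le_trans (add_le_add le_rfl htr) ?_
  unfold pot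
  rw [← Finset.sum_add_distrib]
  apply Finset.sum_le_sum
  intro r _
  rw [← mul_add]
  apply mul_le_mul_of_nonneg_left _ (le_min zero_le_one (hc0 r))
  have hrank := (C r).rank_mono (hle (neg ω))
  simp only [ch]
  rcases hrank with h | ⟨h, h', _⟩
  · have h3 : ((C r).rank x0 : ℝ) + 1 ≤ ((C r).rank (E (Function.update y J (neg ω))) : ℝ) := by
      exact_mod_cast h
    split_ifs
    · exact h3
    · linarith
  · rw [if_neg (not_not.mpr h'.symm), ← h]
    simp

/-- The lower bound for votes, abstract form. -/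
theorem vote_bound (m : ℕ) (en : Fin m → κ) (hen : Function.Injective en)
    (pos : Pt → Set α) (neg : Ng → Set α) (S : ℕ) (τ : ℝ) (hτ : 0 ≤ τ)
    (E : (κ → Set α) → ι → Bool) (hmono : ∀ y y', (∀ j, y j ⊆ y' j) → E y ≤ E y')
    (f : Set α → Prop) (hpos : ∀ p, f (pos p)) (hneg : ∀ ω, ¬ f (neg ω)) (hf0 : ¬ f ∅)
    {R : Type} [Fintype R] {n : R → ℕ} (C : ∀ r, Circuit ι (n r))
    (hS : ∀ r, (C r).size + (C r).fanins.sum ≤ S)
    (a : ∀ r, Fin (n r) → ℝ) (ha : ∀ r j, 0 ≤ a r j) (θ : ℝ)
    (hdom : ∀ (z : κ → Set α) (J : κ) (g : Set α → Bool), MComp (blockBase E z J) S g →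
      ((univ.filter (fun p => g (pos p) = true)).card : ℝ) * Fintype.card Ng ≤
        ((univ.filter (fun ω => g (neg ω) = true)).card : ℝ) * Fintype.card Pt +
          τ * (Fintype.card Ng * Fintype.card Pt))
    (h1 : ∀ y : κ → Set α, (∃ j, f (y j)) → θ + 1 ≤ score C a (E y))
    (h2 : ∀ y : κ → Set α, (¬ ∃ j, f (y j)) → score C a (E y) ≤ θ) :
    (m : ℝ) * (1 - τ * ∑ r, ∑ j, a r j) ≤
      ∑ r, min 1 (∑ j, a r j) * ((((C r).fanins.map (· + 1)).prod : ℕ) - 1 : ℝ) := by
  classical
  set W := ∑ r, ∑ j, a r j with hW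
  have key : ∀ i ≤ m, ∃ y : κ → Set α, (∀ j, ¬ f (y j)) ∧
      (∀ k : Fin m, i ≤ k.val → y (en k) = ∅) ∧ (i : ℝ) * (1 - τ * W) ≤ pot C a (E y) := by
    intro i
    induction i with
    | zero =>
      intro _
      refine ⟨fun _ => ∅, fun _ => hf0, fun _ _ => rfl, ?_⟩
      rw [Nat.cast_zero, zero_mul]
      unfold pot
      apply Finset.sum_nonneg
      intro r _
      exact mul_nonneg (le_min zero_le_one (Finset.sum_nonneg (fun j _ => ha r j)))
        (Nat.cast_nonneg _)
    | succ i ih =>
      intro hi
      obtain ⟨y, k1, k2, k3⟩ := ih (by omega)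
      let J : κ := en ⟨i, hi⟩
      have hJ : y J = ∅ := k2 ⟨i, hi⟩ le_rfl
      obtain ⟨ω, hω⟩ := vote_step pos neg S τ hτ E hmono C hS a ha θ y J hJ (hdom y J)
        (fun p => h1 _ ⟨J, by rw [Function.update_self]; exact hpos p⟩)
        (fun ω => h2 _ (by
          rintro ⟨j, hj⟩
          by_cases hjJ : j = J
          · subst hjJ
            rw [Function.update_self] at hj
            exact hneg ω hj
          · rw [Function.update_of_ne hjJ] at hj
            exact k1 j hj))
      refine ⟨Function.update y J (neg ω), ?_, ?_, ?_⟩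
      · intro j hj
        by_cases hjJ : j = J
        · subst hjJ
          rw [Function.update_self] at hj
          exact hneg ω hj
        · rw [Function.update_of_ne hjJ] at hj
          exact k1 j hj
      · intro k hk
        have : en k ≠ J := by
          intro h
          have := hen h
          rw [this] at hk
          simp only at hk
          omega
        rw [Function.update_of_ne this]
        exact k2 k (by omega)
      · push_cast
        linarith
  obtain ⟨y, -, -, k3⟩ := key m le_rfl
  refine k3.trans ?_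
  unfold pot
  apply Finset.sum_le_sum
  intro r _
  apply mul_le_mul_of_nonneg_left _
    (le_min zero_le_one (Finset.sum_nonneg (fun j _ => ha r j)))
  have h3 := (C r).rank_lt (E y)
  have h4 : ((C r).rank (E y) : ℝ) + 1 ≤ (((C r).fanins.map (· + 1)).prod : ℕ) := by
    exact_mod_cast h3
  push_cast at h4 ⊢
  linarith

end

end Pool.Agent.W935.LC
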