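import Pool.Agent.W935.LC3
import Pool.Agent.H560R2.Neg6

/-! Weighted votes of circuits for the clique function (helper935; from H560R2.Neg5). -/

namespace Pool.Agent.W935.LC

open Finset Pool.Agent.H560R2 Pool.Agent.H520R2 Pool.Agent.H520R2.NM

/-- The lower bound for weighted votes of circuits that decide the clique function. -/
theorem vote_clique (d n : ℕ) (hd : 1 ≤ d)
    (hn : 2 ^ 88 * (Nat.log 2 (3 * d) + 1) ^ 8 * (3 * d) ^ 4 ≤ n)
    (A B : Finset (Fin n)) (hAB : Disjoint A B) (hc : 2 * (A.card + B.card) ≤ n)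
    {V : Type} (lf : V → SimpleGraph (Fin n) → Bool) (hlf : ∀ l, FreeOutB (rect A B hAB) d (lf l))
    {R : Type} [Fintype R] {N : R → ℕ} (C : ∀ r, Circuit V (N r)) (S : ℕ)
    (hS : ∀ r, (C r).size + (C r).fanins.sum ≤ S)
    (a : ∀ r, Fin (N r) → ℝ) (ha : ∀ r j, 0 ≤ a r j) (θ : ℝ)
    (h1 : ∀ G : SimpleGraph (Fin n), (∃ c : Finset (Fin n), G.IsClique (c : Set (Fin n)) ∧
      Real.sqrt (n : ℝ) < (c.card : ℝ)) → θ + 1 ≤ score C a (inp lf G))
    (h2 : ∀ G : SimpleGraph (Fin n), (¬ ∃ c : Finset (Fin n), G.IsClique (c : Set (Fin n)) ∧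
      Real.sqrt (n : ℝ) < (c.card : ℝ)) → score C a (inp lf G) ≤ θ) :
    ((A.card * (B.card / (2 ^ 42 * (Nat.log 2 (3 * d) + 1) ^ 4 * (3 * d) ^ 2)) : ℕ) : ℝ) *
      (1 - 3 * (((max S 1 : ℕ) : ℝ) * (1 / 4) ^ d) * ∑ r, ∑ j, a r j) ≤
      ∑ r, min 1 (∑ j, a r j) * ((((C r).fanins.map (· + 1)).prod : ℕ) - 1 : ℝ) := by
  classical
  obtain ⟨D, hD⟩ : ∃ D, D = 3 * d := ⟨_, rfl⟩
  rw [← hD] at hn ⊢
  have hD1 : 1 ≤ D := by omega
  have hdD : d ≤ D := by omega
  obtain ⟨lam, h0, g1, g2⟩ := exists_lam2 D hD1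
  obtain ⟨F', _, _, _, hq⟩ := exists_field lam h0
  set q := 2 ^ lam with hqd
  set u := Nat.log 2 D + 1 with hu
  have hlam : 1 ≤ lam := by omega
  have hd4 : 1024 * D ≤ q := by
    refine le_trans ?_ g1
    have : 1 ≤ lam * (lam + 1) := Nat.mul_pos hlam (by omega)
    calc 1024 * D = (1024 * D) * 1 := by ring
      _ ≤ (1024 * D) * (lam * (lam + 1)) := Nat.mul_le_mul_left _ this
      _ = _ := by ring
  have hq2 : q ^ 2 ≤ 2 ^ 42 * u ^ 4 * D ^ 2 := by
    calc q ^ 2 ≤ (2 ^ 21 * u ^ 2 * D) ^ 2 := Nat.pow_le_pow_left g2 2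
      _ = _ := by ring
  have hq4 : 16 * q ^ 4 ≤ n := by
    calc 16 * q ^ 4 ≤ 16 * (2 ^ 21 * u ^ 2 * D) ^ 4 :=
          Nat.mul_le_mul_left _ (Nat.pow_le_pow_left g2 4)
      _ = 2 ^ 88 * u ^ 8 * D ^ 4 := by ring
      _ ≤ n := hn
  have hsq : 4 * q ^ 2 ≤ Nat.sqrt n := by
    rw [Nat.le_sqrt]
    calc 4 * q ^ 2 * (4 * q ^ 2) = 16 * q ^ 4 := by ring
      _ ≤ n := hq4
  have hsn : Nat.sqrt n * Nat.sqrt n ≤ n := Nat.sqrt_le n
  have e0 : 1 ≤ q := by omega
  have e1 : 2 * d ≤ q := by omega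
  have e2 : q * (2 * d) ≤ q ^ 2 := by rw [sq]; exact Nat.mul_le_mul_left _ e1
  have e2' : 2 * d * q ≤ q ^ 2 := by rw [mul_comm]; exact e2
  have e3 : q ≤ q ^ 2 := by rw [sq]; exact Nat.le_mul_self q
  have e8 : 1 ≤ q ^ 2 := Nat.one_le_pow _ _ e0
  have hsq1 : 4 ≤ Nat.sqrt n := by omega
  have hι : Fintype.card (F' × F') = q ^ 2 := by rw [Fintype.card_prod, sq, hq]
  have hCl : Fintype.card (PCl F' (2 * d)) = 2 * d + (q * (2 * d) + q) := by
    simp [PCl, hq]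
  have hSt : Fintype.card (PSt F' (2 * d)) = 2 * d * q + (q * (2 * d) * q ^ 2 + q ^ 2) := by
    simp [PSt, hq, sq]
  have hb2 : 2 * (Fintype.card (PSt F' (2 * d)) + Nat.sqrt n) ≤ n := by
    rw [hSt]
    have e4 : q * (2 * d) * q ^ 2 ≤ q ^ 2 * q ^ 2 := Nat.mul_le_mul_right _ e2
    have e5 : 16 * (q ^ 2 * q ^ 2) ≤ n := by
      calc 16 * (q ^ 2 * q ^ 2) = 16 * q ^ 4 := by ring
        _ ≤ _ := hq4
    have e6 : q ^ 2 ≤ q ^ 2 * q ^ 2 := Nat.le_mul_self _
    have e7 : 4 * Nat.sqrt n ≤ Nat.sqrt n * Nat.sqrt n := Nat.mul_le_mul_right _ hsq1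
    omega
  have hclle : Fintype.card (PCl F' (2 * d)) ≤ Nat.sqrt n := by
    rw [hCl]; omega
  set M := A.card * (B.card / (2 ^ 42 * u ^ 4 * D ^ 2)) with hM
  have hRnn : 0 ≤ ∑ r, min 1 (∑ j, a r j) * ((((C r).fanins.map (· + 1)).prod : ℕ) - 1 : ℝ) := by
    apply Finset.sum_nonneg
    intro r _
    apply mul_nonneg (le_min zero_le_one (Finset.sum_nonneg (fun j _ => ha r j)))
    have h3 := (C r).rank_lt (fun _ => false)
    have h4 : (1 : ℝ) ≤ (((C r).fanins.map (· + 1)).prod : ℕ) := by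
      have : 1 ≤ ((C r).fanins.map (· + 1)).prod := by omega
      exact_mod_cast this
    linarith
  rcases Nat.eq_zero_or_pos M with hM0 | hMpos
  · rw [hM0, Nat.cast_zero, zero_mul]
    exact hRnn
  have hBpos : 0 < B.card / (2 ^ 42 * u ^ 4 * D ^ 2) := Nat.pos_of_mul_pos_left hMpos
  -- number of copies
  set K' := B.card / q ^ 2 with hK'
  have hK'le : B.card / (2 ^ 42 * u ^ 4 * D ^ 2) ≤ K' := Nat.div_le_div_left hq2 e8
  have hK'pos : 0 < K' := lt_of_lt_of_le hBpos hK'le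
  have hMle : M ≤ A.card * K' := Nat.mul_le_mul_left _ hK'le
  set p := Nat.sqrt n - Fintype.card (PCl F' (2 * d)) with hp
  have hp1 : 1 + Fintype.card (PCl F' (2 * d)) + p = Nat.sqrt n + 1 := by omega
  obtain ⟨ψ, hψA, hψB⟩ := psi_exists (St := PSt F' (2 * d)) (ι := F' × F') pst A.card K' p A B hAB
    le_rfl (by rw [hι]; exact Nat.mul_div_le _ _) (by omega)
  have hHr : ∀ k w, (rect A B hAB).Adj (ψ (Sum.inl k)) (ψ (Sum.inr (Sum.inl (Sum.inl w)))) :=
    fun k w => Or.inl ⟨hψA k, hψB w⟩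
  let E : (Fin A.card × Fin K' → Set (F' × F')) → SimpleGraph (Fin n) :=
    fun y => gPsi pcls pcmp pst A.card K' p ψ ⊥ y
  have hclique : ∀ y, (∃ c : Finset (Fin n), (E y).IsClique (c : Set (Fin n)) ∧
      Real.sqrt (n : ℝ) < (c.card : ℝ)) ↔ ∃ j, fPoly (2 * d) (y j) := by
    intro y
    have h := gPsi_clique (cls := pcls) (cmp := pcmp) (pst_inj (F := F') (d := 2 * d)) hK'pos
      (ψ := ψ) (P := ⊥) (by intro u v h; exact absurd h (by simp)) (by
        rw [hp1]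
        intro c hcl
        rw [SimpleGraph.isNClique_iff] at hcl
        obtain ⟨a, ha, b, hb, hab⟩ := Finset.one_lt_card.mp (show 1 < c.card by omega)
        exact hcl.1 ha hb hab) y
    rw [hp1] at h
    simp only [real_sqrt_lt_nat]
    refine h.trans ?_
    constructor
    · rintro ⟨j, hj⟩; exact ⟨j, (csp_iff (by omega) (y j)).mp hj⟩
    · rintro ⟨j, hj⟩; exact ⟨j, (csp_iff (by omega) (y j)).mpr hj⟩
  have hf0 : ¬ fPoly (F := F') (2 * d) ∅ := by
    rintro ⟨c, hc⟩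
    exact hc 0
  let en : Fin M → Fin A.card × Fin K' := fun i =>
    finProdFinEquiv.symm (Fin.castLE hMle i)
  have hen : Function.Injective en := by
    intro i j h
    exact Fin.castLE_injective _ (finProdFinEquiv.symm.injective h)
  obtain ⟨Ng, _, _, neg, hneg, hdom⟩ := poly_dom (F := F') d lam hd (by rw [hq])
    (by
      rw [hq]
      calc 1024 * lam * (lam + 1) * d * 3 = 1024 * lam * (lam + 1) * D := by rw [hD]; ring
        _ ≤ _ := g1)
  refine vote_bound (Pt := Fin (2 * d) → F') (m := M) en hen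
    (fun p : Fin (2 * d) → F' => (grf p : Set (F' × F'))) neg S
    (3 * (((max S 1 : ℕ) : ℝ) * (1 / 4) ^ d)) (by positivity) (fun y => inp lf (E y)) ?_
    (fPoly (2 * d)) (fun p => ⟨p, fun a => by rw [Finset.mem_coe, mem_grf]⟩) hneg hf0 C hS a ha θ
    ?_ ?_ ?_
  · -- monotone leaves
    intro y y' hyy l
    obtain ⟨S, hS1, hS2, hS3⟩ := hlf l
    show lf l (E y) ≤ lf l (E y')
    rcases hb : lf l (E y) with _ | _
    · exact Bool.false_le _
    · rw [hS3 (E y) (E y') (fun u v huv => gPsi_out hHr y y' huv)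
        (fun u v _ h => gPsi_mono hyy h) hb]
  · intro z J g hg
    have h3 := hdom (blockBase (fun y => inp lf (E y)) z J) (block_narrow hHr lf d hlf z J) S g hg
    have h4 : ((((univ.filter (fun p : Fin (2 * d) → F' =>
        g (grf p : Set (F' × F')) = true)).card : ℚ) * Fintype.card Ng : ℚ) : ℝ) ≤
        ((((univ.filter (fun ω : Ng => g (neg ω) = true)).card : ℚ) *
            Fintype.card (Fin (2 * d) → F') +
          (3 * (((max S 1 : ℕ) : ℚ) * (1 / 4) ^ d)) *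
            (Fintype.card Ng * Fintype.card (Fin (2 * d) → F')) : ℚ) : ℝ) := by
      exact_mod_cast h3
    push_cast at h4
    push_cast
    exact h4
  · intro y hy
    exact h1 (E y) ((hclique y).mpr hy)
  · intro y hy
    exact h2 (E y) (fun h => hy ((hclique y).mp h))

end Pool.Agent.W935.LC
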